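import Pool.Agent.Helper79.FY.Defs
import Pool.Agent.Helper79.FX.Dense

/-!
# FY-11: the `ℓ`-adic closure of the monodromy group

`InCl M g`: `g` is in the closure of `M` in `GL r` over `ℤ_ℓ`.
* `zar_of_inCl`: let `f ∈ vanGL ℚ (qp Γ)`; multiply by an integer: `c f` has integral coefficients. For every `k` there is `γ ∈ Γ` with `g ≡ γ` modulo `ℓ ^ k`, so `det g ≡ det γ` and `(det g)⁻¹ ≡ (det γ)⁻¹` (units), and `evGL (toQl g) (c f)` is in `ℤ_ℓ`, congruent to `evGL γ (c f) = 0` modulo `ℓ ^ k`. For all `k`: it is zero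
  (`PadicInt.ext_of_toZModPow` or the norm).
* `exists_level_sub`: let `γ_1, …, γ_n` be representatives of the cosets `γ_i Γ` of `Γ` in `M`. `InCl M g` gives for every `k` an `i` with `g ≡ γ_i δ`, `δ ∈ Γ`, modulo `ℓ ^ k`; one `i` occurs for infinitely many `k`, so for all `k` (congruences modulo `ℓ ^ k'` imply those modulo `ℓ ^ k`, `k ≤ k'`): `InCl Γ (γ_i⁻¹ g)`. For those `i` with
  `¬ InCl Γ γ_i⁻¹` there is `k_i` such that `γ_i⁻¹` is not congruent to an element of `Γ` modulo `ℓ ^ k_i`. Let `K` be the maximum of the `k_i`. If `g ≡ 1` modulo `ℓ ^ K` then `γ_i⁻¹ g ≡ γ_i⁻¹` modulo `ℓ ^ K`, so `InCl Γ γ_i⁻¹` for the `i` above, so `InCl Γ γ_i`, `InCl Γ g` (products and inverses), and `zar_of_inCl`.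
* `conj_zar`: let `Γ' = {γ ∈ qp Γ | toQl g * γ * (toQl g)⁻¹ ∈ zar}`, a subgroup (`zarG`). It contains the `γ ∈ Γ` with `γ ≡ 1` modulo `ℓ ^ K` (`g γ g⁻¹ ≡ 1`, `InCl M`, and `hK`), a subgroup of finite index of `Γ` (the kernel of a homomorphism to the finite group `GL r (ZMod (ℓ ^ K))`, or a pigeonhole argument), so it has finite index in `qp Γ`.
  Let `f ∈ vanGL ℚ (qp Γ)` and let `f'` be the polynomial over `ℚ_ℓ` with `evGL a f' = evGL (toQl g * a * (toQl g)⁻¹) f` (`HI.exists_left`, `HI.exists_right` over `ℚ_ℓ`; see `HI/Trans.lean`). It vanishes on `Γ'`, so its components `pc φ f'` (`HI/Pc.lean`) over `ℚ` vanish on `Γ'`, on `qp Γ` (`DenseG`), so `f'` vanishes on `zar` (see `HI.evGL_zero_of_zar`).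
-/

namespace Pool.Agent.Helper79.FY

open Matrix Pool.Agent.Helper79.BB Pool.Agent.Helper79.HH Pool.Agent.Helper79.HG Pool.Agent.Helper64.Per
  Pool.Agent.Helper79.HI Pool.Agent.Helper79.FX Pool.Agent.Helper88.MT

variable {r ℓ : ℕ} [Fact ℓ.Prime]

/-- `g` is in the `ℓ`-adic closure of `M`. -/
def InCl (M : Subgroup (GL (Fin r) ℤ)) (g : GL (Fin r) ℤ_[ℓ]) : Prop :=
  ∀ k, ∃ γ ∈ M, ∀ v : Fin r → ZMod (ℓ ^ k), actP g v = actZ (γ : Matrix (Fin r) (Fin r) ℤ) v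

/-- The element `γ` over `ℤ_ℓ`. -/
noncomputable def zl (γ : GL (Fin r) ℤ) : GL (Fin r) ℤ_[ℓ] :=
  Matrix.GeneralLinearGroup.map (Int.castRingHom ℤ_[ℓ]) γ

theorem actP_mul (g g' : GL (Fin r) ℤ_[ℓ]) {k : ℕ} (v : Fin r → ZMod (ℓ ^ k)) :
    actP (g * g') v = actP g (actP g' v) := by
  unfold actP
  rw [Matrix.mulVec_mulVec, Units.val_mul]
  congr 1
  exact Matrix.map_mul (f := PadicInt.toZModPow k)

theorem actP_one {k : ℕ} (v : Fin r → ZMod (ℓ ^ k)) : actP (1 : GL (Fin r) ℤ_[ℓ]) v = v := by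
  unfold actP
  rw [Units.val_one, Matrix.map_one _ (map_zero _) (map_one _), Matrix.one_mulVec]

theorem actP_zl (γ : GL (Fin r) ℤ) {k : ℕ} (v : Fin r → ZMod (ℓ ^ k)) :
    actP (zl γ : GL (Fin r) ℤ_[ℓ]) v = actZ (γ : Matrix (Fin r) (Fin r) ℤ) v := by
  unfold actP actZ
  congr 1
  ext i j
  rw [Matrix.map_apply, Matrix.map_apply]
  change PadicInt.toZModPow k (((γ : Matrix (Fin r) (Fin r) ℤ) i j : ℤ) : ℤ_[ℓ]) = _
  rw [map_intCast]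

/-- Reduction modulo `ℓ ^ k`. -/
private noncomputable def red (k : ℕ) : GL (Fin r) ℤ_[ℓ] →* GL (Fin r) (ZMod (ℓ ^ k)) :=
  Matrix.GeneralLinearGroup.map (PadicInt.toZModPow k)

private noncomputable def redZ (ℓ k : ℕ) : GL (Fin r) ℤ →* GL (Fin r) (ZMod (ℓ ^ k)) :=
  Matrix.GeneralLinearGroup.map (Int.castRingHom (ZMod (ℓ ^ k)))

private theorem mat_ext {R : Type*} [CommRing R] {A B : Matrix (Fin r) (Fin r) R}
    (h : ∀ v, A *ᵥ v = B *ᵥ v) : A = B := by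
  apply Matrix.toLin'.injective
  refine LinearMap.ext fun v => ?_
  rw [Matrix.toLin'_apply, Matrix.toLin'_apply]
  exact h v

private theorem act_iff {k : ℕ} {g : GL (Fin r) ℤ_[ℓ]} {γ : GL (Fin r) ℤ} :
    (∀ v : Fin r → ZMod (ℓ ^ k), actP g v = actZ (γ : Matrix (Fin r) (Fin r) ℤ) v) ↔
      red k g = redZ ℓ k γ := by
  constructor
  · intro h
    refine Units.ext ?_
    exact mat_ext h
  · intro h v
    have h1 : (red k g : GL (Fin r) (ZMod (ℓ ^ k))).val = (redZ ℓ k γ).val := by rw [h]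
    exact congrArg (fun A => A *ᵥ v) h1

private theorem inCl_iff {M : Subgroup (GL (Fin r) ℤ)} {g : GL (Fin r) ℤ_[ℓ]} :
    InCl M g ↔ ∀ k, red k g ∈ M.map (redZ ℓ k) := by
  refine forall_congr' fun k => ?_
  rw [Subgroup.mem_map]
  refine exists_congr fun γ => and_congr_right fun _ => ?_
  rw [act_iff]
  exact ⟨fun h => h.symm, fun h => h.symm⟩

private theorem red_mono {k K : ℕ} (h : k ≤ K) {g : GL (Fin r) ℤ_[ℓ]} {γ : GL (Fin r) ℤ}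
    (h1 : red K g = redZ ℓ K γ) : red k g = redZ ℓ k γ := by
  refine Units.ext ?_
  ext i j
  have h2 : PadicInt.toZModPow K ((g : Matrix (Fin r) (Fin r) ℤ_[ℓ]) i j) =
      (((γ : Matrix (Fin r) (Fin r) ℤ) i j : ℤ) : ZMod (ℓ ^ K)) := by
    have h3 : (red K g : GL (Fin r) (ZMod (ℓ ^ K))).val i j = (redZ ℓ K γ).val i j := by rw [h1]
    exact h3
  change PadicInt.toZModPow k ((g : Matrix (Fin r) (Fin r) ℤ_[ℓ]) i j) =
      (((γ : Matrix (Fin r) (Fin r) ℤ) i j : ℤ) : ZMod (ℓ ^ k))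
  rw [← PadicInt.zmod_cast_comp_toZModPow k K h, RingHom.comp_apply, h2, map_intCast]

private theorem red_zl (k : ℕ) (γ : GL (Fin r) ℤ) : red k (zl γ : GL (Fin r) ℤ_[ℓ]) = redZ ℓ k γ := by
  rw [← act_iff]
  exact fun v => actP_zl γ v

private theorem mem_mono {Γ : Subgroup (GL (Fin r) ℤ)} {k K : ℕ} (h : k ≤ K) {g : GL (Fin r) ℤ_[ℓ]}
    (h1 : red K g ∈ Γ.map (redZ ℓ K)) : red k g ∈ Γ.map (redZ ℓ k) := by
  obtain ⟨γ, hγ, hγ'⟩ := h1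
  exact ⟨γ, hγ, (red_mono h hγ'.symm).symm⟩

private theorem red_eq_one {K : ℕ} {g : GL (Fin r) ℤ_[ℓ]} :
    (∀ v : Fin r → ZMod (ℓ ^ K), actP g v = v) ↔ red K g = 1 := by
  rw [← map_one (redZ ℓ K), ← act_iff]
  refine forall_congr' fun v => ?_
  have h1 : actZ (((1 : GL (Fin r) ℤ) : Matrix (Fin r) (Fin r) ℤ)) v = v := by
    rw [← actP_zl, zl, map_one, actP_one]
  rw [h1]

theorem InCl.mul {M : Subgroup (GL (Fin r) ℤ)} {g g' : GL (Fin r) ℤ_[ℓ]} (h : InCl M g)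
    (h' : InCl M g') : InCl M (g * g') := by
  rw [inCl_iff] at h h' ⊢
  intro k
  rw [map_mul]
  exact Subgroup.mul_mem _ (h k) (h' k)

theorem InCl.inv {M : Subgroup (GL (Fin r) ℤ)} {g : GL (Fin r) ℤ_[ℓ]} (h : InCl M g) :
    InCl M g⁻¹ := by
  rw [inCl_iff] at h ⊢
  intro k
  rw [map_inv]
  exact Subgroup.inv_mem _ (h k)

private theorem exists_int (f : GLPoly r ℚ) : ∃ (c : ℤ) (F : GLPoly r ℤ), c ≠ 0 ∧
    MvPolynomial.map (algebraMap ℤ ℚ) F = MvPolynomial.C (c : ℚ) * f := by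
  induction f using MvPolynomial.induction_on with
  | C a =>
    refine ⟨a.den, MvPolynomial.C a.num, by exact_mod_cast a.den_ne_zero, ?_⟩
    rw [MvPolynomial.map_C, ← MvPolynomial.C_mul]
    congr 1
    change ((a.num : ℤ) : ℚ) = ((a.den : ℤ) : ℚ) * a
    rw [Int.cast_natCast, mul_comm]
    exact (Rat.mul_den_eq_num a).symm
  | add p q hp hq =>
    obtain ⟨c, F, hc, hF⟩ := hp
    obtain ⟨c', F', hc', hF'⟩ := hq
    refine ⟨c * c', MvPolynomial.C c' * F + MvPolynomial.C c * F', mul_ne_zero hc hc', ?_⟩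
    rw [map_add, map_mul, map_mul, hF, hF', MvPolynomial.map_C, MvPolynomial.map_C]
    change MvPolynomial.C (c' : ℚ) * (MvPolynomial.C (c : ℚ) * p) +
      MvPolynomial.C (c : ℚ) * (MvPolynomial.C (c' : ℚ) * q) = _
    rw [Int.cast_mul, MvPolynomial.C_mul]
    ring
  | mul_X p n hp =>
    obtain ⟨c, F, hc, hF⟩ := hp
    refine ⟨c, F * MvPolynomial.X n, hc, ?_⟩
    rw [map_mul, hF, MvPolynomial.map_X, mul_assoc]

theorem zar_of_inCl {Γ : Subgroup (GL (Fin r) ℤ)} {g : GL (Fin r) ℤ_[ℓ]} (h : InCl Γ g) :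
    toQl g ∈ zar ℚ_[ℓ] (qp Γ : Set (GL (Fin r) ℚ)) := by
  intro f hf
  rw [inCl_iff] at h
  obtain ⟨c, F, hc, hF⟩ := exists_int f
  -- the values of the integral polynomial
  have hΓ : ∀ γ ∈ Γ, evGL γ F = 0 := by
    intro γ hγ
    have h1 : evGL (Matrix.GeneralLinearGroup.map ((Algebra.ofId ℤ ℚ : ℤ →ₐ[ℤ] ℚ) : ℤ →+* ℚ) γ) F =
        Algebra.ofId ℤ ℚ (evGL γ F) := evGL_map _ γ F
    have h2 : evGL (Matrix.GeneralLinearGroup.map ((Algebra.ofId ℤ ℚ : ℤ →ₐ[ℤ] ℚ) : ℤ →+* ℚ) γ)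
        (MvPolynomial.map (algebraMap ℤ ℚ) F) =
        evGL (Matrix.GeneralLinearGroup.map ((Algebra.ofId ℤ ℚ : ℤ →ₐ[ℤ] ℚ) : ℤ →+* ℚ) γ) F :=
      evGL_mapPoly _ F
    have h3 : evGL (Matrix.GeneralLinearGroup.map ((Algebra.ofId ℤ ℚ : ℤ →ₐ[ℤ] ℚ) : ℤ →+* ℚ) γ) f = 0 :=
      hf _ ⟨γ, hγ, rfl⟩
    rw [hF, map_mul, h3, mul_zero, h1] at h2
    have h4 : ((evGL γ F : ℤ) : ℚ) = 0 := h2.symm
    exact_mod_cast h4
  have hg : evGL g F = 0 := by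
    rw [← PadicInt.ext_of_toZModPow]
    intro k
    rw [map_zero]
    obtain ⟨γ, hγ, hγ'⟩ := h k
    have h1 : evGL (Matrix.GeneralLinearGroup.map
        (((PadicInt.toZModPow k : ℤ_[ℓ] →+* ZMod (ℓ ^ k)).toIntAlgHom : ℤ_[ℓ] →ₐ[ℤ] ZMod (ℓ ^ k)) :
          ℤ_[ℓ] →+* ZMod (ℓ ^ k)) g) F =
        (PadicInt.toZModPow k : ℤ_[ℓ] →+* ZMod (ℓ ^ k)).toIntAlgHom (evGL g F) := evGL_map _ g F
    have h2 : evGL (Matrix.GeneralLinearGroup.map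
        ((Algebra.ofId ℤ (ZMod (ℓ ^ k)) : ℤ →ₐ[ℤ] ZMod (ℓ ^ k)) : ℤ →+* ZMod (ℓ ^ k)) γ) F =
        Algebra.ofId ℤ (ZMod (ℓ ^ k)) (evGL γ F) := evGL_map _ γ F
    have h3 : Matrix.GeneralLinearGroup.map
        (((PadicInt.toZModPow k : ℤ_[ℓ] →+* ZMod (ℓ ^ k)).toIntAlgHom : ℤ_[ℓ] →ₐ[ℤ] ZMod (ℓ ^ k)) :
          ℤ_[ℓ] →+* ZMod (ℓ ^ k)) g = Matrix.GeneralLinearGroup.map
        ((Algebra.ofId ℤ (ZMod (ℓ ^ k)) : ℤ →ₐ[ℤ] ZMod (ℓ ^ k)) : ℤ →+* ZMod (ℓ ^ k)) γ := hγ'.symm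
    rw [h3, h2, hΓ γ hγ, map_zero] at h1
    exact h1.symm
  have h1 : evGL (toQl g) (MvPolynomial.map (algebraMap ℤ ℚ) F) = evGL (toQl g) F :=
    evGL_mapPoly _ F
  have h2 : evGL (Matrix.GeneralLinearGroup.map
      (((algebraMap ℤ_[ℓ] ℚ_[ℓ]).toIntAlgHom : ℤ_[ℓ] →ₐ[ℤ] ℚ_[ℓ]) : ℤ_[ℓ] →+* ℚ_[ℓ]) g) F =
      (algebraMap ℤ_[ℓ] ℚ_[ℓ]).toIntAlgHom (evGL g F) := evGL_map _ g F
  have h3 : evGL (toQl g) F = 0 := by
    rw [hg, map_zero] at h2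
    exact h2
  rw [h3, hF, map_mul] at h1
  have h4 : evGL (toQl g) (MvPolynomial.C (c : ℚ) : GLPoly r ℚ) = ((c : ℚ) : ℚ_[ℓ]) := by
    rw [evGL, MvPolynomial.aeval_C]
    rfl
  rw [h4] at h1
  rcases mul_eq_zero.1 h1 with h5 | h5
  · exfalso
    apply hc
    exact_mod_cast h5
  · exact h5

theorem exists_level_sub (ℓ : ℕ) [Fact ℓ.Prime] {Γ M : Subgroup (GL (Fin r) ℤ)} (hΓ : Γ ≤ M)
    (hfin : Γ.relIndex M ≠ 0) :
    ∃ K, ∀ g : GL (Fin r) ℤ_[ℓ], InCl M g → (∀ v : Fin r → ZMod (ℓ ^ K), actP g v = v) →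
      toQl g ∈ zar ℚ_[ℓ] (qp Γ : Set (GL (Fin r) ℚ)) := by
  classical
  have hfq : Finite (M ⧸ Γ.subgroupOf M) := by
    rw [Subgroup.relIndex, Subgroup.index] at hfin
    exact Nat.finite_of_card_ne_zero hfin
  have hft : Fintype (M ⧸ Γ.subgroupOf M) := Fintype.ofFinite _
  obtain ⟨ρ, hρ⟩ : ∃ ρ : M ⧸ Γ.subgroupOf M → GL (Fin r) ℤ, ∀ q, ρ q = ((q.out : M) : GL (Fin r) ℤ) :=
    ⟨fun q => ((q.out : M) : GL (Fin r) ℤ), fun _ => rfl⟩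
  have hcos : ∀ γ ∈ M, ∃ q, (ρ q)⁻¹ * γ ∈ Γ := by
    intro γ hγ
    refine ⟨QuotientGroup.mk ⟨γ, hγ⟩, ?_⟩
    have h1 := QuotientGroup.out_eq' (QuotientGroup.mk (s := Γ.subgroupOf M) (⟨γ, hγ⟩ : M))
    rw [QuotientGroup.eq, Subgroup.mem_subgroupOf] at h1
    rw [hρ]
    exact h1
  -- the first claim
  have hone : ∀ g : GL (Fin r) ℤ_[ℓ], InCl M g → ∃ q, InCl Γ (zl (ρ q)⁻¹ * g) := by
    intro g hg
    by_contra hne
    push Not at hne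
    have h1 : ∀ q, ∃ k, red k (zl (ρ q)⁻¹ * g) ∉ Γ.map (redZ ℓ k) := by
      intro q
      have h2 := hne q
      rw [inCl_iff] at h2
      push Not at h2
      exact h2
    choose k hk using h1
    rw [inCl_iff] at hg
    obtain ⟨γ, hγ, hγ'⟩ := hg (Finset.univ.sup k)
    obtain ⟨q, hq⟩ := hcos γ hγ
    refine hk q (mem_mono (Finset.le_sup (Finset.mem_univ q)) (g := zl (ρ q)⁻¹ * g) ?_)
    refine ⟨(ρ q)⁻¹ * γ, hq, ?_⟩
    rw [map_mul, map_mul, red_zl, ← hγ']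
  -- the level
  have h2 : ∀ q, ∃ k, ¬ InCl Γ (zl (ρ q)⁻¹ : GL (Fin r) ℤ_[ℓ]) →
      red k (zl (ρ q)⁻¹ : GL (Fin r) ℤ_[ℓ]) ∉ Γ.map (redZ ℓ k) := by
    intro q
    by_cases h3 : InCl Γ (zl (ρ q)⁻¹ : GL (Fin r) ℤ_[ℓ])
    · exact ⟨0, fun h4 => absurd h3 h4⟩
    · have h4 := h3
      rw [inCl_iff] at h4
      push Not at h4
      obtain ⟨k, hk⟩ := h4
      exact ⟨k, fun _ => hk⟩
  choose k hk using h2
  refine ⟨Finset.univ.sup k, fun g hg hg1 => ?_⟩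
  rw [red_eq_one] at hg1
  obtain ⟨q, hq⟩ := hone g hg
  have h3 : InCl Γ (zl (ρ q)⁻¹ : GL (Fin r) ℤ_[ℓ]) := by
    by_contra h4
    refine hk q h4 (mem_mono (Finset.le_sup (Finset.mem_univ q)) ?_)
    have h5 := (inCl_iff.1 hq) (Finset.univ.sup k)
    rw [map_mul, hg1, mul_one] at h5
    exact h5
  have h4 := h3.inv.mul hq
  rw [inv_mul_cancel_left] at h4
  exact zar_of_inCl h4

theorem conj_zar {Γ M : Subgroup (GL (Fin r) ℤ)} (hΓ : Γ ≤ M) (hdense : DenseG (qp Γ)) {K : ℕ}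
    (hK : ∀ g : GL (Fin r) ℤ_[ℓ], InCl M g → (∀ v : Fin r → ZMod (ℓ ^ K), actP g v = v) →
      toQl g ∈ zar ℚ_[ℓ] (qp Γ : Set (GL (Fin r) ℚ))) {g : GL (Fin r) ℤ_[ℓ]}
    (hg : ∀ γ ∈ M, InCl M (g * zl γ * g⁻¹)) {a : GL (Fin r) ℚ_[ℓ]}
    (ha : a ∈ zar ℚ_[ℓ] (qp Γ : Set (GL (Fin r) ℚ))) :
    toQl g * a * (toQl g)⁻¹ ∈ zar ℚ_[ℓ] (qp Γ : Set (GL (Fin r) ℚ)) := by
  classical
  obtain ⟨θ, hθ⟩ : ∃ θ : GL (Fin r) ℚ →* GL (Fin r) ℚ_[ℓ],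
      θ = Matrix.GeneralLinearGroup.map (algebraMap ℚ ℚ_[ℓ]) := ⟨_, rfl⟩
  obtain ⟨Γ', hΓ'⟩ : ∃ Γ' : Subgroup (GL (Fin r) ℚ), ∀ γ, γ ∈ Γ' ↔
      toQl g * θ γ * (toQl g)⁻¹ ∈ zar ℚ_[ℓ] (qp Γ : Set (GL (Fin r) ℚ)) := by
    refine ⟨((zarG ℚ_[ℓ] (qp Γ)).comap (MulAut.conj (toQl g)).toMonoidHom).comap θ, fun γ => ?_⟩
    rw [Subgroup.mem_comap, Subgroup.mem_comap]
    exact Iff.rfl
  have hnz : NeZero (ℓ ^ K) := ⟨pow_ne_zero _ (Fact.out : ℓ.Prime).ne_zero⟩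
  have hfinG : (redZ (r := r) ℓ K).ker.FiniteIndex := by
    have hf1 : Finite (Matrix (Fin r) (Fin r) (ZMod (ℓ ^ K))) := inferInstance
    have hf2 : Finite (GL (Fin r) (ZMod (ℓ ^ K))) := Finite.of_injective _ Units.val_injective
    exact inferInstance
  have h1 : (((redZ (r := r) ℓ K).ker ⊓ Γ).map (Matrix.GeneralLinearGroup.map (Int.castRingHom ℚ))).relIndex
      (Γ.map (Matrix.GeneralLinearGroup.map (Int.castRingHom ℚ))) ≠ 0 :=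
    relIndex_map_ne_zero _ hfinG
  have h2 : ((redZ (r := r) ℓ K).ker ⊓ Γ).map (Matrix.GeneralLinearGroup.map (Int.castRingHom ℚ)) ≤ Γ' := by
    rintro _ ⟨γ, ⟨hγ1, hγ2⟩, rfl⟩
    rw [hΓ']
    have h3 := hK (g * zl γ * g⁻¹) (hg γ (hΓ hγ2)) ?_
    · have h4 : toQl (g * zl γ * g⁻¹) = toQl g *
          θ (Matrix.GeneralLinearGroup.map (Int.castRingHom ℚ) γ) * (toQl g)⁻¹ := by
        unfold toQl
        rw [map_mul, map_mul, map_inv]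
        congr 2
        refine Units.ext ?_
        ext i j
        rw [hθ]
        change algebraMap ℤ_[ℓ] ℚ_[ℓ] (((γ : Matrix (Fin r) (Fin r) ℤ) i j : ℤ) : ℤ_[ℓ]) =
          algebraMap ℚ ℚ_[ℓ] (((γ : Matrix (Fin r) (Fin r) ℤ) i j : ℤ) : ℚ)
        rw [map_intCast, map_intCast]
      rw [← h4]
      exact h3
    · rw [red_eq_one, map_mul, map_mul, red_zl, map_inv]
      have h5 : redZ (r := r) ℓ K γ = 1 := hγ1
      rw [h5, mul_one, mul_inv_cancel]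
  have hfin : Γ'.relIndex (qp Γ) ≠ 0 := fun h3 => h1 (Nat.eq_zero_of_zero_dvd (h3 ▸
    Subgroup.relIndex_dvd_of_le_left _ h2))
  intro f hf
  obtain ⟨f₁, hf₁⟩ := exists_left (toQl g) (MvPolynomial.map (algebraMap ℚ ℚ_[ℓ]) f)
  obtain ⟨f₂, hf₂⟩ := exists_right (toQl g)⁻¹ f₁
  have hself : ∀ x : GL (Fin r) ℚ_[ℓ], Matrix.GeneralLinearGroup.map (algebraMap ℚ_[ℓ] ℚ_[ℓ]) x = x := by
    intro x
    rw [Algebra.algebraMap_self]
    exact congrFun (congrArg DFunLike.coe (Matrix.GeneralLinearGroup.map_id (n := Fin r) (R := ℚ_[ℓ]))) x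
  have hv : ∀ x : GL (Fin r) ℚ_[ℓ], evGL x f₂ = evGL (toQl g * x * (toQl g)⁻¹) f := by
    intro x
    rw [hf₂ x, hf₁, hself, hself, evGL_mapPoly, mul_assoc]
  rw [← hv]
  refine evGL_zero_of_zar (S := (qp Γ : Set (GL (Fin r) ℚ))) (fun γ hγ => ?_) ha
  refine eq_zero_of_dual (k := ℚ) fun φ => ?_
  rw [evGL_pc]
  refine hdense Γ' hfin (pc φ f₂) (fun γ' hγ' _ => ?_) γ hγ
  rw [← evGL_pc, hv]
  have h3 := (hΓ' γ').1 hγ' f hf
  rw [hθ] at h3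
  rw [h3, map_zero]

end Pool.Agent.Helper79.FY
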