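import Pool.Agent.Helper79.FY.Defs
import Pool.Agent.Helper79.HG.Mon

/-!
# FY-02: chains of analytic continuations of families of functions

The first part is the same as `Pool/Agent/Helper79/FX/Chain.lean` (`reach_symm`, `reach_dom`, `reach_analytic`, `restrict`, `reach_ext`), for `Elem` instead of `Element`.
* `reach_map`: `Relation.ReflTransGen.lift` and `next_lift` of `Pool/Agent/Helper79/HG/Mon.lean` (private there: copy it).
* `reach_rel`: a relation which holds on `a.U` holds on `b.U`: induction on the chain, the identity theorem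
  (`AnalyticOnNhd.eqOn_zero_of_preconnected_of_eventuallyEq_zero`), as in `elem_chain` of `Pool/Agent/Helper79/HG/RelG.lean`.
* `eq_of_germ`: the identity theorem.
-/

namespace Pool.Agent.Helper79.FY

open Matrix Pool.Agent.Helper79.BB Pool.Agent.Helper79.HH Pool.Agent.Helper79.HG Pool.Agent.Helper64.Per

section

variable {κ : Type} [Field κ] [Algebra κ ℂ] {m : ℕ} {α β : Type} {S : MvPolynomial (Fin m) κ}
  {a b c : Elem m α}

private theorem h45_dom (hd : ∀ t ∈ a.U, MvPolynomial.aeval t S ≠ 0) (h : Reach S a b) :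
    ∀ t ∈ b.U, MvPolynomial.aeval t S ≠ 0 := by
  rcases Relation.ReflTransGen.cases_tail h with h1 | ⟨c, -, h1⟩
  · rw [h1]; exact hd
  · exact h1.2

private theorem h45_next_symm (h : a.Next b) : b.Next a := by
  obtain ⟨ha, hb, O, hO, hne, hOa, hOb, heq⟩ := h
  exact ⟨hb, ha, O, hO, hne, hOb, hOa, fun t ht =>
    ⟨(heq t ht).1.symm, fun i => ((heq t ht).2 i).symm⟩⟩

private theorem h45_next_lift (F : Elem m α → Elem m β) (hU : ∀ a, (F a).U = a.U)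
    (hw : ∀ a, (F a).w = a.w) (hf : ∀ a, a.IsAnalytic → ∀ i, AnalyticOnNhd ℂ ((F a).f i) a.U)
    (heq : ∀ a b t, (∀ i, a.f i t = b.f i t) → ∀ i, (F a).f i t = (F b).f i t)
    (h : Elem.Next a b) : Elem.Next (F a) (F b) := by
  obtain ⟨ha, hb, O, hO, hO1, hOa, hOb, ht⟩ := h
  have han : ∀ a : Elem m α, a.IsAnalytic → (F a).IsAnalytic := by
    intro a ha
    refine ⟨?_, ?_, ?_, ?_⟩
    · rw [hU]; exact ha.1
    · rw [hU]; exact ha.2.1
    · rw [hU, hw]; exact ha.2.2.1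
    · rw [hU]; exact hf a ha
  refine ⟨han a ha, han b hb, O, hO, hO1, ?_, ?_, ?_⟩
  · rw [hU]; exact hOa
  · rw [hU]; exact hOb
  · intro t htO
    rw [hw, hw]
    exact ⟨(ht t htO).1, heq a b t (ht t htO).2⟩

theorem reach_symm (hd : ∀ t ∈ a.U, MvPolynomial.aeval t S ≠ 0) (h : Reach S a b) : Reach S b a := by
  induction h with
  | refl => exact Relation.ReflTransGen.refl
  | tail h1 h2 ih =>
    exact Relation.ReflTransGen.head ⟨h45_next_symm h2.1, h45_dom hd h1⟩ ih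

theorem reach_dom (hd : ∀ t ∈ a.U, MvPolynomial.aeval t S ≠ 0) (h : Reach S a b) :
    ∀ t ∈ b.U, MvPolynomial.aeval t S ≠ 0 := h45_dom hd h

theorem reach_analytic (ha : a.IsAnalytic) (h : Reach S a b) : b.IsAnalytic := by
  rcases Relation.ReflTransGen.cases_tail h with h1 | ⟨c, -, h1⟩
  · rw [h1]; exact ha
  · exact h1.1.2.1

theorem reach_map (F : Elem m α → Elem m β) (hU : ∀ a, (F a).U = a.U) (hw : ∀ a, (F a).w = a.w)
    (hf : ∀ a, a.IsAnalytic → ∀ i, AnalyticOnNhd ℂ ((F a).f i) a.U)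
    (heq : ∀ a b t, (∀ i, a.f i t = b.f i t) → ∀ i, (F a).f i t = (F b).f i t)
    (h : Reach S a b) : Reach S (F a) (F b) := by
  induction h with
  | refl => exact Relation.ReflTransGen.refl
  | @tail b c _ h2 ih =>
    refine Relation.ReflTransGen.tail ih ⟨h45_next_lift F hU hw hf heq h2.1, ?_⟩
    rw [hU]
    exact h2.2

theorem eq_of_germ (hb : b.IsAnalytic) (hc : c.IsAnalytic) (hU : b.U = c.U) {t : Fin m → ℂ}
    (ht : t ∈ b.U) (h : ∀ᶠ s in nhds t, b.w s = c.w s ∧ ∀ i, b.f i s = c.f i s) :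
    ∀ s ∈ b.U, b.w s = c.w s ∧ ∀ i, b.f i s = c.f i s := by
  have hc1 : AnalyticOnNhd ℂ c.w b.U := by rw [hU]; exact hc.2.2.1
  have hc2 : ∀ i, AnalyticOnNhd ℂ (c.f i) b.U := by rw [hU]; exact hc.2.2.2
  have h1 : Set.EqOn b.w c.w b.U :=
    hb.2.2.1.eqOn_of_preconnected_of_eventuallyEq hc1 hb.2.1 ht (h.mono fun s hs => hs.1)
  have h2 : ∀ i, Set.EqOn (b.f i) (c.f i) b.U := fun i =>
    (hb.2.2.2 i).eqOn_of_preconnected_of_eventuallyEq (hc2 i) hb.2.1 ht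
      (h.mono fun s hs => hs.2 i)
  exact fun s hs => ⟨h1 hs, fun i => h2 i hs⟩

theorem restrict (hd : ∀ t ∈ a.U, MvPolynomial.aeval t S ≠ 0) (ha : a.IsAnalytic) (h : Reach S a b)
    {D : Set (Fin m → ℂ)} (hD : IsOpen D) (hD' : IsPreconnected D) (hne : D.Nonempty) (hsub : D ⊆ b.U) :
    Reach S a ⟨D, b.w, b.f⟩ := by
  have hb := reach_analytic ha h
  refine h.tail ⟨⟨hb, ⟨hD, hD', hb.2.2.1.mono hsub, fun i => (hb.2.2.2 i).mono hsub⟩, D, hD, hne,
    hsub, subset_rfl, fun t _ => ⟨rfl, fun _ => rfl⟩⟩, fun t ht => reach_dom hd h t (hsub ht)⟩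

/-- An element which agrees on an open set with a reached element is reached. -/
theorem reach_of_eq (hd : ∀ t ∈ a.U, MvPolynomial.aeval t S ≠ 0) (ha : a.IsAnalytic) (h : Reach S a b)
    (hc : c.IsAnalytic) (hcS : ∀ t ∈ c.U, MvPolynomial.aeval t S ≠ 0) {t : Fin m → ℂ} (ht : t ∈ b.U)
    (ht' : t ∈ c.U) (heq : ∀ᶠ s in nhds t, b.w s = c.w s ∧ ∀ i, b.f i s = c.f i s) : Reach S a c := by
  have hb := reach_analytic ha h
  obtain ⟨O, hO, hOo, htO⟩ := eventually_nhds_iff.mp heq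
  refine h.tail ⟨⟨hb, hc, O ∩ (b.U ∩ c.U), hOo.inter (hb.1.inter hc.1), ⟨t, htO, ht, ht'⟩,
    fun s hs => hs.2.1, fun s hs => hs.2.2, fun s hs => hO s hs.1⟩, hcS⟩

/-- Relations are preserved by analytic continuation. -/
theorem reach_rel {G : (Fin m → ℂ) → ℂ → (α → ℂ) → ℂ}
    (hG : ∀ b : Elem m α, b.IsAnalytic → AnalyticOnNhd ℂ (fun t => G t (b.w t) fun i => b.f i t) b.U)
    (h : Reach S a b) (ha : ∀ t ∈ a.U, G t (a.w t) (fun i => a.f i t) = 0) :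
    ∀ t ∈ b.U, G t (b.w t) (fun i => b.f i t) = 0 := by
  induction h with
  | refl => exact ha
  | @tail b c _ hbc ih =>
    obtain ⟨⟨hb, hc, O, hO, ⟨x, hx⟩, hOb, hOc, heq⟩, -⟩ := hbc
    have h2 : Set.EqOn (fun t => G t (c.w t) fun i => c.f i t) 0 c.U := by
      refine (hG c hc).eqOn_zero_of_preconnected_of_eventuallyEq_zero hc.2.1 (hOc hx) ?_
      filter_upwards [hO.mem_nhds hx] with t ht
      change G t (c.w t) (fun i => c.f i t) = 0
      have h3 : (fun i => c.f i t) = fun i => b.f i t := funext fun i => ((heq t ht).2 i).symm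
      rw [← (heq t ht).1, h3]
      exact ih t (hOb ht)
    exact fun t ht => h2 ht

end

section

variable {κ : Type} [Field κ] [Algebra κ ℂ] {m r ℓ : ℕ} [Fact ℓ.Prime] {U : Set (Fin m → ℂ)}
  {w : (Fin m → ℂ) → ℂ} {S : MvPolynomial (Fin m) κ} {P : (Fin m → ℂ) → Matrix (Fin r) (Fin r) ℂ}
  {Y : ∀ k : ℕ, CoverData κ (Fin r → ZMod (ℓ ^ k)) U w} {lev : Fin r → ℤ} {j : ℤ}
  {ψ : Matrix (Fin r) (Fin r) ℤ}

/-- The indices of the functions. -/
abbrev Ix (Y : ∀ k : ℕ, CoverData κ (Fin r → ZMod (ℓ ^ k)) U w) : Type :=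
  (Fin r × Fin r) ⊕ (Σ k : ℕ, (Fin r → ZMod (ℓ ^ k)) × Fin (Y k).N)

/-- Change of the basis of `ℤ^r` with the matrix `γ`. -/
noncomputable def gact (γ : Matrix (Fin r) (Fin r) ℤ) (b : Elem m (Ix Y)) : Elem m (Ix Y) :=
  ⟨b.U, b.w, Sum.elim (fun e t => (pmat b t * γ.map (Int.cast : ℤ → ℂ)) e.1 e.2)
    fun e => b.f (Sum.inr ⟨e.1, (actZ γ e.2.1, e.2.2)⟩)⟩

omit [Fact ℓ.Prime] in
theorem actZ_one {k : ℕ} (v : Fin r → ZMod (ℓ ^ k)) : actZ (1 : Matrix (Fin r) (Fin r) ℤ) v = v := by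
  unfold actZ
  rw [Matrix.map_one _ Int.cast_zero Int.cast_one, Matrix.one_mulVec]

omit [Fact ℓ.Prime] in
theorem actZ_mul (γ γ' : Matrix (Fin r) (Fin r) ℤ) {k : ℕ} (v : Fin r → ZMod (ℓ ^ k)) :
    actZ γ (actZ γ' v) = actZ (γ * γ') v := by
  unfold actZ
  rw [Matrix.mulVec_mulVec]
  congr 1
  exact (Matrix.map_mul (f := Int.castRingHom (ZMod (ℓ ^ k)))).symm

omit [Fact ℓ.Prime] in
theorem actZ_injective (γ : GL (Fin r) ℤ) (k : ℕ) :
    Function.Injective (actZ (γ : Matrix (Fin r) (Fin r) ℤ) : (Fin r → ZMod (ℓ ^ k)) → _) := by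
  intro v v' h
  have h1 : ∀ v : Fin r → ZMod (ℓ ^ k),
      actZ ((γ⁻¹ : GL (Fin r) ℤ) : Matrix (Fin r) (Fin r) ℤ)
        (actZ (γ : Matrix (Fin r) (Fin r) ℤ) v) = v := by
    intro v
    rw [actZ_mul, ← Units.val_mul, inv_mul_cancel, Units.val_one, actZ_one]
  rw [← h1 v, ← h1 v', h]

theorem pmat_base : pmat (base P Y) = P := by
  funext t
  ext x y
  change (P t * (1 : Matrix (Fin r) (Fin r) ℤ).map (Int.cast : ℤ → ℂ)) x y = P t x y
  rw [Matrix.map_one _ Int.cast_zero Int.cast_one, Matrix.mul_one]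

theorem base_inr (k : ℕ) (v : Fin r → ZMod (ℓ ^ k)) (i : Fin (Y k).N) :
    (base P Y).f (Sum.inr ⟨k, (v, i)⟩) = (Y k).y v i := by
  change (Y k).y (actZ 1 v) i = (Y k).y v i
  rw [actZ_one]

theorem gact_base (γ : Matrix (Fin r) (Fin r) ℤ) : gact γ (base P Y) = ⟨U, w, fns P Y γ⟩ := by
  unfold gact
  congr 1
  funext e
  rcases e with e | e
  · change (fun t => (pmat (base P Y) t * γ.map (Int.cast : ℤ → ℂ)) e.1 e.2) = _
    rw [pmat_base]
    rfl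
  · change (Y e.1).y (actZ 1 (actZ γ e.2.1)) e.2.2 = (Y e.1).y (actZ γ e.2.1) e.2.2
    rw [actZ_one]

theorem gact_mul (γ γ' : Matrix (Fin r) (Fin r) ℤ) (b : Elem m (Ix Y)) :
    gact γ' (gact γ b) = gact (γ * γ') b := by
  have h1 : (γ * γ').map (Int.cast : ℤ → ℂ) =
      γ.map (Int.cast : ℤ → ℂ) * γ'.map (Int.cast : ℤ → ℂ) :=
    Matrix.map_mul (f := Int.castRingHom ℂ)
  unfold gact
  congr 1
  funext e
  rcases e with e | e
  · funext t
    change ((pmat b t * γ.map (Int.cast : ℤ → ℂ)) * γ'.map (Int.cast : ℤ → ℂ)) e.1 e.2 =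
      (pmat b t * (γ * γ').map (Int.cast : ℤ → ℂ)) e.1 e.2
    rw [h1, Matrix.mul_assoc]
  · change b.f (Sum.inr ⟨e.1, (actZ γ (actZ γ' e.2.1), e.2.2)⟩) =
      b.f (Sum.inr ⟨e.1, (actZ (γ * γ') e.2.1, e.2.2)⟩)
    rw [actZ_mul]

theorem reach_gact (γ : Matrix (Fin r) (Fin r) ℤ) {a b : Elem m (Ix Y)} (h : Reach S a b) :
    Reach S (gact γ a) (gact γ b) := by
  refine reach_map (gact γ) (fun _ => rfl) (fun _ => rfl) ?_ ?_ h
  · intro a ha i
    rcases i with e | e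
    · have h2 : (gact γ a).f (Sum.inl e) = fun t => ∑ l, a.f (Sum.inl (e.1, l)) t *
          (γ.map (Int.cast : ℤ → ℂ)) l e.2 := by
        funext t
        change (pmat a t * γ.map (Int.cast : ℤ → ℂ)) e.1 e.2 = _
        rw [Matrix.mul_apply]
        rfl
      rw [h2]
      exact Finset.analyticOnNhd_fun_sum _ fun l _ => (ha.2.2.2 _).mul analyticOnNhd_const
    · exact ha.2.2.2 _
  · intro a b t hab i
    rcases i with e | e
    · have h2 : pmat a t = pmat b t := by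
        ext x y
        exact hab _
      change (pmat a t * γ.map (Int.cast : ℤ → ℂ)) e.1 e.2 =
        (pmat b t * γ.map (Int.cast : ℤ → ℂ)) e.1 e.2
      rw [h2]
    · exact hab _

/-- The monodromy group. -/
def MG (P : (Fin m → ℂ) → Matrix (Fin r) (Fin r) ℂ)
    (Y : ∀ k : ℕ, CoverData κ (Fin r → ZMod (ℓ ^ k)) U w) (S : MvPolynomial (Fin m) κ)
    (ψ : Matrix (Fin r) (Fin r) ℤ) (hd : ∀ t ∈ U, MvPolynomial.aeval t S ≠ 0) :
    Subgroup (GL (Fin r) ℤ) where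
  carrier := {γ | (γ : Matrix (Fin r) (Fin r) ℤ)ᵀ * ψ * (γ : Matrix (Fin r) (Fin r) ℤ) = ψ ∧
    Reach S (base P Y) (gact (γ : Matrix (Fin r) (Fin r) ℤ) (base P Y))}
  mul_mem' := by
    rintro γ γ' ⟨h1, h2⟩ ⟨h3, h4⟩
    refine ⟨?_, ?_⟩
    · rw [Units.val_mul]
      calc ((γ : Matrix (Fin r) (Fin r) ℤ) * (γ' : Matrix (Fin r) (Fin r) ℤ))ᵀ * ψ *
            ((γ : Matrix (Fin r) (Fin r) ℤ) * (γ' : Matrix (Fin r) (Fin r) ℤ)) =
            (γ' : Matrix (Fin r) (Fin r) ℤ)ᵀ * ((γ : Matrix (Fin r) (Fin r) ℤ)ᵀ * ψ *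
              (γ : Matrix (Fin r) (Fin r) ℤ)) * (γ' : Matrix (Fin r) (Fin r) ℤ) := by
            rw [Matrix.transpose_mul]
            simp only [Matrix.mul_assoc]
        _ = ψ := by rw [h1, h3]
    · rw [Units.val_mul, ← gact_mul]
      exact Relation.ReflTransGen.trans h4 (reach_gact _ h2)
  one_mem' := by
    refine ⟨?_, ?_⟩
    · rw [Units.val_one, Matrix.transpose_one, Matrix.one_mul, Matrix.mul_one]
    · rw [Units.val_one, gact_base]
      exact Relation.ReflTransGen.refl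
  inv_mem' := by
    rintro γ ⟨h1, h2⟩
    have h3 : (γ : Matrix (Fin r) (Fin r) ℤ) *
        ((γ⁻¹ : GL (Fin r) ℤ) : Matrix (Fin r) (Fin r) ℤ) = 1 := by
      rw [← Units.val_mul, mul_inv_cancel, Units.val_one]
    refine ⟨?_, ?_⟩
    · have h4 : ((γ⁻¹ : GL (Fin r) ℤ) : Matrix (Fin r) (Fin r) ℤ)ᵀ *
          (γ : Matrix (Fin r) (Fin r) ℤ)ᵀ = 1 := by
        rw [← Matrix.transpose_mul, h3, Matrix.transpose_one]
      calc _ = ((γ⁻¹ : GL (Fin r) ℤ) : Matrix (Fin r) (Fin r) ℤ)ᵀ *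
            ((γ : Matrix (Fin r) (Fin r) ℤ)ᵀ * ψ * (γ : Matrix (Fin r) (Fin r) ℤ)) *
            ((γ⁻¹ : GL (Fin r) ℤ) : Matrix (Fin r) (Fin r) ℤ) := by rw [h1]
        _ = (((γ⁻¹ : GL (Fin r) ℤ) : Matrix (Fin r) (Fin r) ℤ)ᵀ *
            (γ : Matrix (Fin r) (Fin r) ℤ)ᵀ) * ψ * ((γ : Matrix (Fin r) (Fin r) ℤ) *
            ((γ⁻¹ : GL (Fin r) ℤ) : Matrix (Fin r) (Fin r) ℤ)) := by
              simp only [Matrix.mul_assoc]
        _ = ψ := by rw [h3, h4, Matrix.one_mul, Matrix.mul_one]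
    · have h4 := reach_gact ((γ⁻¹ : GL (Fin r) ℤ) : Matrix (Fin r) (Fin r) ℤ) h2
      rw [gact_mul, h3, gact_base 1] at h4
      exact reach_symm (a := gact _ (base P Y)) hd h4

theorem mem_MG (hd : ∀ t ∈ U, MvPolynomial.aeval t S ≠ 0) (ha : (base P Y).IsAnalytic)
    {b c : Elem m (Ix Y)} (hb : Reach S (base P Y) b) (hc : Reach S (base P Y) c) (hne : b.U.Nonempty)
    (hU : b.U = c.U) (hw : ∀ t ∈ b.U, b.w t = c.w t) {γ : GL (Fin r) ℤ}
    (hγ : (γ : Matrix (Fin r) (Fin r) ℤ)ᵀ * ψ * (γ : Matrix (Fin r) (Fin r) ℤ) = ψ)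
    (hP : ∀ t ∈ b.U, pmat c t = pmat b t * (γ : Matrix (Fin r) (Fin r) ℤ).map (Int.cast : ℤ → ℂ) ∧
        ∀ k v i, c.f (Sum.inr ⟨k, v, i⟩) t =
          b.f (Sum.inr ⟨k, actZ (γ : Matrix (Fin r) (Fin r) ℤ) v, i⟩) t) :
    γ ∈ MG P Y S ψ hd := by
  refine ⟨hγ, ?_⟩
  have hb' := reach_analytic ha hb
  have hc' := reach_analytic ha hc
  have h2 := reach_gact (γ : Matrix (Fin r) (Fin r) ℤ) (reach_symm hd hb)
  obtain ⟨t, ht⟩ := hne
  have hgb : (gact (γ : Matrix (Fin r) (Fin r) ℤ) b).IsAnalytic := by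
    have h3 := reach_gact (γ : Matrix (Fin r) (Fin r) ℤ) hb
    have h4 : (gact (γ : Matrix (Fin r) (Fin r) ℤ) (base P Y)).IsAnalytic := by
      refine ⟨ha.1, ha.2.1, ha.2.2.1, fun i => ?_⟩
      rcases i with e | e
      · have h5 : (gact (γ : Matrix (Fin r) (Fin r) ℤ) (base P Y)).f (Sum.inl e) =
            fun t => ∑ l, (base P Y).f (Sum.inl (e.1, l)) t *
            ((γ : Matrix (Fin r) (Fin r) ℤ).map (Int.cast : ℤ → ℂ)) l e.2 := by
          funext t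
          change (pmat (base P Y) t *
            (γ : Matrix (Fin r) (Fin r) ℤ).map (Int.cast : ℤ → ℂ)) e.1 e.2 = _
          rw [Matrix.mul_apply]
          rfl
        rw [h5]
        exact Finset.analyticOnNhd_fun_sum _ fun l _ => (ha.2.2.2 _).mul analyticOnNhd_const
      · exact ha.2.2.2
          (Sum.inr ⟨e.1, (actZ (γ : Matrix (Fin r) (Fin r) ℤ) e.2.1, e.2.2)⟩)
    exact reach_analytic h4 h3
  have h1 : NextIn S c (gact (γ : Matrix (Fin r) (Fin r) ℤ) b) := by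
    refine ⟨⟨hc', hgb, b.U, hb'.1, ⟨t, ht⟩, hU.le, subset_rfl, fun s hs => ?_⟩,
      fun s hs => reach_dom hd hb s hs⟩
    refine ⟨(hw s hs).symm, fun i => ?_⟩
    obtain ⟨h3, h4⟩ := hP s hs
    rcases i with e | e
    · change pmat c s e.1 e.2 = (pmat b s *
        (γ : Matrix (Fin r) (Fin r) ℤ).map (Int.cast : ℤ → ℂ)) e.1 e.2
      rw [h3]
    · exact h4 e.1 e.2.1 e.2.2
  exact (hc.tail h1).trans h2

theorem mem_MonoL (hd : ∀ t ∈ U, MvPolynomial.aeval t S ≠ 0) {γ : GL (Fin r) ℤ}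
    (h : γ ∈ MG P Y S ψ hd) : (γ : Matrix (Fin r) (Fin r) ℤ) ∈ MonoL ψ P Y := by
  obtain ⟨h1, h2⟩ := h
  refine ⟨h1, ?_⟩
  have h4 : ∀ b, Reach S (base P Y) b → Relation.ReflTransGen Elem.Next (base P Y) b := by
    intro b hb
    induction hb with
    | refl => exact Relation.ReflTransGen.refl
    | tail _ h3 ih => exact Relation.ReflTransGen.tail ih h3.1
  have h5 := h4 _ h2
  rw [gact_base] at h5
  exact h5

theorem reach_of_mem (hd : ∀ t ∈ U, MvPolynomial.aeval t S ≠ 0) {γ : GL (Fin r) ℤ}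
    (h : γ ∈ MG P Y S ψ hd) {b : Elem m (Ix Y)} (hb : Reach S (base P Y) b) :
    Reach S (base P Y) (gact (γ : Matrix (Fin r) (Fin r) ℤ) b) := Relation.ReflTransGen.trans h.2 (reach_gact _ hb)

/-- Continuation to convex open sets. -/
theorem IsLocalSystem.reach_ext (h : IsLocalSystem S P Y lev j ψ) {b : Elem m (Ix Y)}
    (hb : Reach S (base P Y) b) {D : Set (Fin m → ℂ)} (hD : IsOpen D) (hD' : Convex ℝ D)
    (hDS : ∀ t ∈ D, MvPolynomial.aeval t S ≠ 0) {t : Fin m → ℂ} (ht : t ∈ b.U) (ht' : t ∈ D) :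
    ∃ c : Elem m (Ix Y), Reach S (base P Y) c ∧ c.U = D ∧
      ∀ᶠ s in nhds t, b.w s = c.w s ∧ ∀ i, b.f i s = c.f i s := by
  obtain ⟨c, hcU, hc, heq⟩ := h.ext b hb D hD hD' hDS t ⟨ht, ht'⟩
  subst hcU
  exact ⟨c, reach_of_eq h.dom h.analytic hb hc hDS ht ht' heq, rfl, heq⟩

end

end Pool.Agent.Helper79.FY
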