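import Pool.Agent.Helper79.FY.TwoPt
import Pool.Agent.Helper79.FY.Adic
import Pool.Agent.Helper79.HI.GalFin

/-!
# FY-13: the exact sequence of the fundamental groups

`M = MG P Y S ψ h.dom`, `K` from `exists_level_sub`. `t`, `t₀` are algebraic; `t = cv t'`, `t₀ = cv t₀'`, with `t' t₀' : Fin m → Qbar`. `w t`, `w t₀`, the `y_(v,i)` at `t`, `t₀` are algebraic (`HG.algebraic_point`). Let `L` be the field generated over `κ` by the coordinates of `t`, `t₀`, by `w t`, `w t₀` and by the `(Y K).y v i` at `t` and `t₀`: a finite extension of `ℚ`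
(finitely many algebraic generators), `G₁ = L.fixingSubgroup`: finite index (see `Pool/Agent/Helper79/HI/GalFin.lean`).
Let `σ ∈ G₁`, `g`, `g₀` with `IsGalElt`. `σ` fixes `κ`, so it is an element of `Qbar ≃ₐ[κ] Qbar`. For every `k` `ActsBy Y σ k t' π`, `π v = actP g v` (a permutation: `actP_mul`), and `ActsBy Y σ k t₀' π₀`, `π₀ v = actP g₀ v`.
1. `two_points`: for every `k` there is `γ ∈ M` with `actP g v = actP g₀ (actZ γ v)`: `InCl M (g₀⁻¹ * g)`.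
2. At level `K`: `σ` fixes the `y_v`, so `y_(g v) = y_v`, `actP g v = v` (`(Y K).inj`), and `actP g₀ v = v`: `toQl (g₀⁻¹ * g) ∈ zar` (`exists_level_sub`).
3. `σ⁻¹ ∈ G₁` acts by `g⁻¹` (if `z = y_v`, let `z'` be the element of `Qbar` with value `y_(g⁻¹ v)`; `σ z' = y_v = z`, so `σ⁻¹ z = z'`). `two_points` for `σ⁻¹`: for `γ ∈ M` and every `k` there is `γ' ∈ M` with `γ g⁻¹ = g⁻¹ γ'` on `(ℤ / ℓ^k)^r`: `InCl M (g * zl γ * g⁻¹)`. `conj_zar` for `g`. This is the second assertion, and for `a = toQl (g₀⁻¹ * g)`: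
   `toQl g * toQl (g₀⁻¹ * g) * (toQl g)⁻¹ = toQl (g * g₀⁻¹)`: the first assertion.
-/

namespace Pool.Agent.Helper79.FY

open Matrix Pool.Agent.Helper79.BB Pool.Agent.Helper79.HH Pool.Agent.Helper79.HG Pool.Agent.Helper64.Per
  Pool.Agent.Helper79.HI Pool.Agent.Helper79.FX

variable {κ : IntermediateField ℚ Qbar} [FiniteDimensional ℚ κ] {m r ℓ μ : ℕ} [Fact ℓ.Prime]
  {U : Set (Fin m → ℂ)}
  {w : (Fin m → ℂ) → ℂ} {S : MvPolynomial (Fin m) κ} {P : (Fin m → ℂ) → Matrix (Fin r) (Fin r) ℂ}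
  {Y : ∀ k : ℕ, CoverData κ (Fin r → ZMod (ℓ ^ k)) U w} {lev : Fin r → ℤ} {j : ℤ}
  {ψ : Matrix (Fin r) (Fin r) ℤ}

private theorem finiteIndex_fixing (K : IntermediateField ℚ Qbar) [FiniteDimensional ℚ K] :
    K.fixingSubgroup.FiniteIndex := by
  let φ : (Qbar ≃ₐ[ℚ] Qbar) → (K →ₐ[ℚ] Qbar) := fun σ => (σ : Qbar →ₐ[ℚ] Qbar).comp K.val
  have hφ : ∀ σ τ, φ σ = φ τ → σ⁻¹ * τ ∈ K.fixingSubgroup := by
    intro σ τ h
    have h1 : ∀ x : K, σ (x : Qbar) = τ (x : Qbar) := fun x => DFunLike.congr_fun h x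
    rw [IntermediateField.mem_fixingSubgroup_iff]
    intro x hx
    rw [AlgEquiv.mul_apply, ← h1 ⟨x, hx⟩]
    exact σ.symm_apply_apply _
  have : Finite (K →ₐ[ℚ] Qbar) := inferInstance
  have hinj : Function.Injective
      (fun c : (Qbar ≃ₐ[ℚ] Qbar) ⧸ K.fixingSubgroup => φ c.out) := by
    intro c d h
    have h1 := hφ _ _ h
    rw [← QuotientGroup.out_eq' c, ← QuotientGroup.out_eq' d]
    exact QuotientGroup.eq.2 h1
  have hfin : Finite ((Qbar ≃ₐ[ℚ] Qbar) ⧸ K.fixingSubgroup) := Finite.of_injective _ hinj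
  exact Subgroup.finiteIndex_of_finite_quotient

/-- The elements of `Qbar` whose values are in a finite set are fixed by a group of finite index. -/
private theorem exists_fix (κ : IntermediateField ℚ Qbar) [FiniteDimensional ℚ κ] {s : Set ℂ}
    (hs : s.Finite) :
    ∃ G₁ : Subgroup (Qbar ≃ₐ[ℚ] Qbar), G₁.FiniteIndex ∧ ∀ σ ∈ G₁,
      (∀ x ∈ κ, σ x = x) ∧ ∀ z : Qbar, (z : ℂ) ∈ s → σ z = z := by
  have hfin : Finite ({u : Qbar | (u : ℂ) ∈ s} : Set Qbar) := by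
    rw [Set.finite_coe_iff]
    exact hs.preimage (f := fun u : Qbar => (u : ℂ)) Subtype.val_injective.injOn
  have halg : Algebra.IsAlgebraic ℚ Qbar := (algebraicClosure.isAlgClosure ℚ ℂ).isAlgebraic
  have hint : ∀ u ∈ ({u : Qbar | (u : ℂ) ∈ s} : Set Qbar),
      IsIntegral ℚ u := fun u _ => (Algebra.IsAlgebraic.isAlgebraic (R := ℚ) u).isIntegral
  have h2 : FiniteDimensional ℚ (IntermediateField.adjoin ℚ {u : Qbar | (u : ℂ) ∈ s}) :=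
    IntermediateField.finiteDimensional_adjoin hint
  have h3 : FiniteDimensional ℚ
      (κ ⊔ IntermediateField.adjoin ℚ {u : Qbar | (u : ℂ) ∈ s} : IntermediateField ℚ Qbar) :=
    IntermediateField.finiteDimensional_sup _ _
  refine ⟨(κ ⊔ IntermediateField.adjoin ℚ {u : Qbar | (u : ℂ) ∈ s}).fixingSubgroup,
    finiteIndex_fixing _, fun σ hσ => ?_⟩
  rw [IntermediateField.mem_fixingSubgroup_iff] at hσ
  refine ⟨fun x hx => hσ x ((le_sup_left : κ ≤ _) hx), fun z hz => hσ z ?_⟩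
  exact (le_sup_right : _ ≤ κ ⊔ IntermediateField.adjoin ℚ {u : Qbar | (u : ℂ) ∈ s})
    (IntermediateField.subset_adjoin ℚ _ hz)

/-- The permutation given by `g`. -/
private noncomputable def permP (g : GL (Fin r) ℤ_[ℓ]) (k : ℕ) :
    Equiv.Perm (Fin r → ZMod (ℓ ^ k)) where
  toFun v := actP g v
  invFun v := actP g⁻¹ v
  left_inv v := by
    change actP g⁻¹ (actP g v) = v
    rw [← actP_mul, inv_mul_cancel, actP_one]
  right_inv v := by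
    change actP g (actP g⁻¹ v) = v
    rw [← actP_mul, mul_inv_cancel, actP_one]

private theorem actP_inv_actP (g : GL (Fin r) ℤ_[ℓ]) {k : ℕ} (v : Fin r → ZMod (ℓ ^ k)) :
    actP g⁻¹ (actP g v) = v := by
  rw [← actP_mul, inv_mul_cancel, actP_one]

private theorem actP_actP_inv (g : GL (Fin r) ℤ_[ℓ]) {k : ℕ} (v : Fin r → ZMod (ℓ ^ k)) :
    actP g (actP g⁻¹ v) = v := by
  rw [← actP_mul, mul_inv_cancel, actP_one]

theorem galois_clause (h : IsLocalSystem S P Y lev j ψ) (hw : IsEtaleBranch κ U μ w)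
    {Γ : Subgroup (GL (Fin r) ℤ)} (hΓ : Γ ≤ MG P Y S ψ h.dom)
    (hfin : Γ.relIndex (MG P Y S ψ h.dom) ≠ 0) (hdense : DenseG (qp Γ)) {t t₀ : Fin m → ℂ} (ht : t ∈ U)
    (ht₀ : t₀ ∈ U) (halg : ∀ i, IsAlgebraic ℚ (t i)) (halg₀ : ∀ i, IsAlgebraic ℚ (t₀ i)) :
    ∃ G₁ : Subgroup (Qbar ≃ₐ[ℚ] Qbar), G₁.FiniteIndex ∧ ∀ σ ∈ G₁, ∀ g g₀ : GL (Fin r) ℤ_[ℓ],
      IsGalElt σ (pts Y t) g → IsGalElt σ (pts Y t₀) g₀ →
        toQl (g * g₀⁻¹) ∈ zar ℚ_[ℓ] (qp Γ : Set (GL (Fin r) ℚ)) ∧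
        ∀ a ∈ zar ℚ_[ℓ] (qp Γ : Set (GL (Fin r) ℚ)),
          toQl g * a * (toQl g)⁻¹ ∈ zar ℚ_[ℓ] (qp Γ : Set (GL (Fin r) ℚ)) := by
  obtain ⟨K, hK⟩ := exists_level_sub ℓ hΓ hfin
  have hb : IsBranchM κ U μ w := by
    obtain ⟨f, hf⟩ := hw.eqn
    exact ⟨hw.analytic, f, fun t ht => (hf t ht).1⟩
  set t' : Fin m → Qbar := fun i => ⟨t i, mem_algebraicClosure_iff.2 (halg i)⟩ with ht'
  set t₀' : Fin m → Qbar := fun i => ⟨t₀ i, mem_algebraicClosure_iff.2 (halg₀ i)⟩ with ht₀'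
  have hcv : cv t' = t := rfl
  have hcv₀ : cv t₀' = t₀ := rfl
  have hfs : (Set.range t ∪ Set.range t₀ ∪ {w t, w t₀} ∪
      Set.range (fun p : (Fin r → ZMod (ℓ ^ K)) × Fin (Y K).N => (Y K).y p.1 p.2 t) ∪
      Set.range (fun p : (Fin r → ZMod (ℓ ^ K)) × Fin (Y K).N => (Y K).y p.1 p.2 t₀)).Finite :=
    ((((Set.finite_range t).union (Set.finite_range t₀)).union (Set.toFinite _)).union
      (Set.finite_range _)).union (Set.finite_range _)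
  obtain ⟨G₁, hG₁, hfix⟩ := exists_fix κ hfs
  refine ⟨G₁, hG₁, fun σ hσ g g₀ hg hg₀ => ?_⟩
  have hact : ∀ τ ∈ G₁, ∃ τ' : Qbar ≃ₐ[κ] Qbar, (∀ z, τ' z = τ z) ∧
      (∀ a : GL (Fin r) ℤ_[ℓ], IsGalElt τ (pts Y t) a → ∀ k, ActsBy Y τ' k t' (permP a k)) ∧
      ∀ a : GL (Fin r) ℤ_[ℓ], IsGalElt τ (pts Y t₀) a → ∀ k, ActsBy Y τ' k t₀' (permP a k) := by
    intro τ hτ
    obtain ⟨h1, h2⟩ := hfix τ hτ
    refine ⟨AlgEquiv.ofRingEquiv (f := ((τ : Qbar ≃ₐ[ℚ] Qbar) : Qbar ≃+* Qbar))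
      (fun x => h1 x x.2), fun z => rfl, fun a ha k => ⟨fun i => ?_, fun z hz => ?_, ?_⟩,
      fun a ha k => ⟨fun i => ?_, fun z hz => ?_, ?_⟩⟩
    · exact h2 (t' i) (Or.inl (Or.inl (Or.inl (Or.inl ⟨i, rfl⟩))))
    · exact h2 z (Or.inl (Or.inl (Or.inr (Or.inl hz))))
    · intro v i z hz
      exact ha k v i z hz
    · exact h2 (t₀' i) (Or.inl (Or.inl (Or.inl (Or.inr ⟨i, rfl⟩))))
    · exact h2 z (Or.inl (Or.inl (Or.inr (Or.inr hz))))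
    · intro v i z hz
      exact ha k v i z hz
  obtain ⟨σ', hσ', hσt, hσt₀⟩ := hact σ hσ
  -- 1
  have hcl : InCl (MG P Y S ψ h.dom) (g₀⁻¹ * g) := by
    intro k
    obtain ⟨⟨γ, hγ, hγ'⟩, -⟩ := two_points h hw σ' k (t := t') (t₀ := t₀') ht ht₀
      (hσt g hg k) (hσt₀ g₀ hg₀ k)
    refine ⟨γ, hγ, fun v => ?_⟩
    have h1 : actP g v = actP g₀ (actZ (γ : Matrix (Fin r) (Fin r) ℤ) v) := hγ' v
    rw [actP_mul, h1, actP_inv_actP]
  -- 2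
  have hlev : ∀ v : Fin r → ZMod (ℓ ^ K), actP g v = v := by
    intro v
    refine (Y K).inj t ht (funext fun i => ?_)
    change (Y K).y (actP g v) i t = (Y K).y v i t
    have h1 := (algebraic_point hb (Y K) ht halg).2 v i
    have h2 := hg K v i ⟨_, mem_algebraicClosure_iff.2 h1⟩ rfl
    rw [(hfix σ hσ).2 _ (Or.inl (Or.inr ⟨(v, i), rfl⟩))] at h2
    exact h2.symm
  have hlev₀ : ∀ v : Fin r → ZMod (ℓ ^ K), actP g₀ v = v := by
    intro v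
    refine (Y K).inj t₀ ht₀ (funext fun i => ?_)
    change (Y K).y (actP g₀ v) i t₀ = (Y K).y v i t₀
    have h1 := (algebraic_point hb (Y K) ht₀ halg₀).2 v i
    have h2 := hg₀ K v i ⟨_, mem_algebraicClosure_iff.2 h1⟩ rfl
    rw [(hfix σ hσ).2 _ (Or.inr ⟨(v, i), rfl⟩)] at h2
    exact h2.symm
  have hmem : toQl (g₀⁻¹ * g) ∈ zar ℚ_[ℓ] (qp Γ : Set (GL (Fin r) ℚ)) := by
    refine hK _ hcl fun v => ?_
    have h1 := actP_inv_actP g₀ v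
    rw [hlev₀] at h1
    rw [actP_mul, hlev, h1]
  -- 3
  have hinv : IsGalElt (σ⁻¹ : Qbar ≃ₐ[ℚ] Qbar) (pts Y t) g⁻¹ := by
    intro k v i z hz
    have h1 := (algebraic_point hb (Y k) ht halg).2 (actP g⁻¹ v) i
    have h2 := hg k (actP g⁻¹ v) i ⟨_, mem_algebraicClosure_iff.2 h1⟩ rfl
    rw [actP_actP_inv, ← hz] at h2
    have h3 : (σ⁻¹ : Qbar ≃ₐ[ℚ] Qbar) z = ⟨_, mem_algebraicClosure_iff.2 h1⟩ := by
      rw [← Subtype.ext h2]
      exact σ.symm_apply_apply _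
    rw [h3]
    rfl
  obtain ⟨τ', -, hτt, -⟩ := hact σ⁻¹ (inv_mem hσ)
  have hnorm : ∀ γ ∈ MG P Y S ψ h.dom, InCl (MG P Y S ψ h.dom) (g * zl γ * g⁻¹) := by
    intro γ hγ k
    obtain ⟨-, h1⟩ := two_points h hw τ' k (t := t') (t₀ := t') ht ht
      (hτt g⁻¹ hinv k) (hτt g⁻¹ hinv k)
    obtain ⟨γ', hγ', h2⟩ := h1 γ hγ
    refine ⟨γ', hγ', fun v => ?_⟩
    have h3 : actZ (γ : Matrix (Fin r) (Fin r) ℤ) (actP g⁻¹ v) =
        actP g⁻¹ (actZ (γ' : Matrix (Fin r) (Fin r) ℤ) v) := h2 v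
    rw [actP_mul, actP_mul, actP_zl, h3, actP_actP_inv]
  have hconj : ∀ a ∈ zar ℚ_[ℓ] (qp Γ : Set (GL (Fin r) ℚ)),
      toQl g * a * (toQl g)⁻¹ ∈ zar ℚ_[ℓ] (qp Γ : Set (GL (Fin r) ℚ)) :=
    fun a ha => conj_zar hΓ hdense hK hnorm ha
  refine ⟨?_, hconj⟩
  have h1 := hconj _ hmem
  have h2 : toQl g * toQl (g₀⁻¹ * g) * (toQl g)⁻¹ = toQl (g * g₀⁻¹) := by
    unfold toQl
    rw [map_mul, map_mul, map_inv]
    group
  rw [h2] at h1
  exact h1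

end Pool.Agent.Helper79.FY
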