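import Mathlib

/-!
# FY-07: division of a monic polynomial by a linear factor; separation of finite sets of points by polynomials

* `GG_mul`: `(W - w) * ∑_(n < l) W ^ n * w ^ (l - 1 - n) = W ^ l - w ^ l` (`Commute.geom_sum₂_mul`, `mul_geom_sum₂`), and exchange the sums.
* `GG_self`: `∑_n w ^ n * w ^ (l - 1 - n) = l * w ^ (l - 1)`.
* `eq_of_sums`: the identity holds for monomials `e`, so for all polynomials over `ℂ`. Let `x₀` be a point of the support of `X` (or `X'`), `e = ∏_(x ≠ x₀) (linear polynomial with value 1 at x₀ and 0 at x)`, over the other points of `X ∪ X'`: the sum over `X` is `1` if `x₀ ∈ X` and `0` otherwise.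
-/

namespace Pool.Agent.Helper79.FY

section

variable {R : Type} [CommRing R] {μ : ℕ}

/-- The coefficients of `(F(W) - F(w)) / (W - w)`, `F(W) = W ^ μ - ∑ f_l W ^ l`. -/
def GG (f : Fin μ → R) (w : R) (n : Fin μ) : R :=
  w ^ (μ - 1 - (n : ℕ)) - ∑ l : Fin μ, if n < l then f l * w ^ ((l : ℕ) - 1 - (n : ℕ)) else 0

private theorem lag_fin (g : ℕ → R) (l : Fin μ) :
    ∑ n : Fin μ, (if n < l then g n else 0) = ∑ i ∈ Finset.range (l : ℕ), g i := by
  have h1 : ∑ n : Fin μ, (if n < l then g n else 0) =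
      ∑ n : Fin μ, (fun i : ℕ => if i < (l : ℕ) then g i else 0) n := by
    apply Finset.sum_congr rfl
    intro n _
    simp only [Fin.lt_def]
  rw [h1, Fin.sum_univ_eq_sum_range (fun i : ℕ => if i < (l : ℕ) then g i else 0) μ,
    ← Finset.sum_filter]
  apply Finset.sum_congr _ fun _ _ => rfl
  ext i
  rw [Finset.mem_filter, Finset.mem_range, Finset.mem_range]
  exact ⟨fun h => h.2, fun h => ⟨h.trans l.2, h⟩⟩

private theorem lag_sum (f : Fin μ → R) (w W : R) : ∑ n, GG f w n * W ^ (n : ℕ) =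
    ∑ i ∈ Finset.range μ, W ^ i * w ^ (μ - 1 - i) -
      ∑ l : Fin μ, f l * ∑ i ∈ Finset.range (l : ℕ), W ^ i * w ^ ((l : ℕ) - 1 - i) := by
  unfold GG
  simp only [sub_mul, Finset.sum_sub_distrib]
  congr 1
  · rw [Finset.sum_range]
    apply Finset.sum_congr rfl
    intro n _
    ring
  · simp only [Finset.sum_mul]
    rw [Finset.sum_comm]
    apply Finset.sum_congr rfl
    intro l _
    rw [← lag_fin (fun i => W ^ i * w ^ ((l : ℕ) - 1 - i)) l, Finset.mul_sum]
    apply Finset.sum_congr rfl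
    intro n _
    by_cases h : n < l
    · rw [if_pos h, if_pos h]
      ring
    · rw [if_neg h, if_neg h, zero_mul, mul_zero]

theorem GG_mul (f : Fin μ → R) (w W : R) : (W - w) * ∑ n, GG f w n * W ^ (n : ℕ) =
    (W ^ μ - ∑ l, f l * W ^ (l : ℕ)) - (w ^ μ - ∑ l, f l * w ^ (l : ℕ)) := by
  have h1 : ∀ k : ℕ, (W - w) * ∑ i ∈ Finset.range k, W ^ i * w ^ (k - 1 - i) = W ^ k - w ^ k := by
    intro k
    rw [mul_comm, geom_sum₂_mul]
  rw [lag_sum, mul_sub, h1, Finset.mul_sum]
  have h2 : ∑ l : Fin μ, (W - w) * (f l * ∑ i ∈ Finset.range (l : ℕ), W ^ i * w ^ ((l : ℕ) - 1 - i)) =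
      ∑ l : Fin μ, (f l * W ^ (l : ℕ) - f l * w ^ (l : ℕ)) := by
    apply Finset.sum_congr rfl
    intro l _
    rw [mul_left_comm, h1, mul_sub]
  rw [h2, Finset.sum_sub_distrib]
  ring

theorem GG_self (f : Fin μ → R) (w : R) : ∑ n, GG f w n * w ^ (n : ℕ) =
    (μ : R) * w ^ (μ - 1) - ∑ l : Fin μ, ((l : ℕ) : R) * f l * w ^ ((l : ℕ) - 1) := by
  rw [lag_sum, geom_sum₂_self]
  congr 1
  apply Finset.sum_congr rfl
  intro l _
  rw [geom_sum₂_self]
  ring

theorem map_GG {R' : Type} [CommRing R'] (φ : R →+* R') (f : Fin μ → R) (w : R) (n : Fin μ) :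
    φ (GG f w n) = GG (fun l => φ (f l)) (φ w) n := by
  unfold GG
  rw [map_sub, map_pow, map_sum]
  congr 1
  apply Finset.sum_congr rfl
  intro l _
  by_cases h : n < l
  · rw [if_pos h, if_pos h, map_mul, map_pow]
  · rw [if_neg h, if_neg h, map_zero]

end

theorem eq_of_sums {I X : Type} [Fintype X] {p : I → X → ℂ} (hp : Function.Injective p)
    {A B : Finset I} (h : ∀ e : MvPolynomial X ℚ,
      ∑ i ∈ A, MvPolynomial.aeval (p i) e = ∑ i ∈ B, MvPolynomial.aeval (p i) e) : A = B := by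
  classical
  have h1 : ∀ E : MvPolynomial X ℂ,
      ∑ i ∈ A, MvPolynomial.eval (p i) E = ∑ i ∈ B, MvPolynomial.eval (p i) E := by
    intro E
    induction E using MvPolynomial.induction_on' with
    | monomial u a =>
      have e1 : ∀ i : I, MvPolynomial.eval (p i) (MvPolynomial.monomial u a) =
          a * MvPolynomial.aeval (p i) (MvPolynomial.monomial u (1 : ℚ)) := by
        intro i
        rw [MvPolynomial.eval_monomial, MvPolynomial.aeval_monomial, map_one, one_mul]
      simp only [e1]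
      rw [← Finset.mul_sum, ← Finset.mul_sum, h]
    | add q r hq hr =>
      simp only [map_add, Finset.sum_add_distrib]
      rw [hq, hr]
  have h2 : ∀ i0 : I, ∃ E : MvPolynomial X ℂ, MvPolynomial.eval (p i0) E = 1 ∧
      ∀ i ∈ A ∪ B, i ≠ i0 → MvPolynomial.eval (p i) E = 0 := by
    intro i0
    have h3 : ∀ i : I, i ≠ i0 → ∃ L : MvPolynomial X ℂ, MvPolynomial.eval (p i0) L = 1 ∧
        MvPolynomial.eval (p i) L = 0 := by
      intro i hi
      have hne : p i ≠ p i0 := fun h => hi (hp h)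
      obtain ⟨x, hx⟩ := Function.ne_iff.1 hne
      refine ⟨MvPolynomial.C (p i0 x - p i x)⁻¹ * (MvPolynomial.X x - MvPolynomial.C (p i x)),
        ?_, ?_⟩
      · rw [map_mul, map_sub, MvPolynomial.eval_C, MvPolynomial.eval_X, MvPolynomial.eval_C]
        exact inv_mul_cancel₀ (sub_ne_zero.2 (Ne.symm hx))
      · rw [map_mul, map_sub, MvPolynomial.eval_C, MvPolynomial.eval_X, MvPolynomial.eval_C,
          sub_self, mul_zero]
    choose! L hL using h3
    refine ⟨∏ i ∈ (A ∪ B).erase i0, L i, ?_, ?_⟩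
    · rw [map_prod]
      apply Finset.prod_eq_one
      intro i hi
      exact (hL i (Finset.ne_of_mem_erase hi)).1
    · intro i hi hne
      rw [map_prod]
      exact Finset.prod_eq_zero (Finset.mem_erase.2 ⟨hne, hi⟩) (hL i hne).2
  have h4 : ∀ (E : MvPolynomial X ℂ) (i0 : I) (T : Finset I), T ⊆ A ∪ B →
      MvPolynomial.eval (p i0) E = 1 →
      (∀ i ∈ A ∪ B, i ≠ i0 → MvPolynomial.eval (p i) E = 0) →
      ∑ i ∈ T, MvPolynomial.eval (p i) E = if i0 ∈ T then 1 else 0 := by
    intro E i0 T hT hE hE'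
    by_cases h0 : i0 ∈ T
    · rw [if_pos h0, Finset.sum_eq_single_of_mem i0 h0 fun i hi hne => hE' i (hT hi) hne, hE]
    · rw [if_neg h0]
      apply Finset.sum_eq_zero
      intro i hi
      exact hE' i (hT hi) (fun he => h0 (he ▸ hi))
  ext i0
  obtain ⟨E, hE, hE'⟩ := h2 i0
  have h5 := h1 E
  rw [h4 E i0 A Finset.subset_union_left hE hE', h4 E i0 B Finset.subset_union_right hE hE'] at h5
  by_cases hA : i0 ∈ A
  · by_cases hB : i0 ∈ B
    · exact ⟨fun _ => hB, fun _ => hA⟩
    · rw [if_pos hA, if_neg hB] at h5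
      exact absurd h5 one_ne_zero
  · by_cases hB : i0 ∈ B
    · rw [if_neg hA, if_pos hB] at h5
      exact absurd h5.symm one_ne_zero
    · exact ⟨fun h => absurd h hA, fun h => absurd h hB⟩

end Pool.Agent.Helper79.FY
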