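import Pool.Agent.Helper79.FY.Trace
import Pool.Agent.Helper79.FY.Lag
import Pool.Agent.Helper79.HG.Sep

/-!
# FY-08: Galois conjugates of the values of the branches

`t'' = σ⁻¹ t`.
* `exists_msQ`: the elements of `ms` are values of reached elements (`exists_of_mem_ms`), algebraic (`reach_algebraic`).
* `conj_S`: `aeval (cv t) S = (aeval t S : Qbar)`, and `σ (aeval t S) = aeval (σ t) S` (`S` is over `κ`).
* `conj_eqn`: `eqn_w` at `t''` for the reached element with value `p`; apply `σ`.
* `conj_perm`: `p` comes from a reached `b` (`exists_of_mem_ms`). `eqn_reach` at `t''` for `X`, `z` in `Qbar`; apply `σ`: `Φ(t, w₀, X, z) = q(t, w₀) ∏_v (z - ∑_i X_i σ (y_(v,i)))`. Compare with `(Y k).eqn` at `cv t ∈ U`, `q(t, w₀) ≠ 0` (`q_ne`): the two products are equal for all `X`, `z` in `Qbar`. For `X_i = x ^ i` as in `HG.exists_perm`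
  (`Pool/Agent/Helper79/HG/Sep.lean`; the proof there works for two different families: for each `v` there is `v'` with `σ (y_v) = y_(v')(t)`, as `x` takes infinitely many values). `v ↦ v'` is injective as `σ` is and the `y_v` of `b` are different at `t''` (`cover`), so a permutation.
* `conj_set`: a ball `D` about `cv t''`, `G` as in `exists_reps`, `ms_eq`. `I` = the `i` with `σ ((G i).w) = w₀` at `t''`, `π_i` from `conj_perm`. `i ↦ π_i` is injective on `I`: if `π_i = π_i'` then `val k (G i) = val k (G i')` at `t''`. The common value of `w` there, `σ⁻¹ w₀`, is a simple root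
  (`hsimple` at `t`, apply `σ⁻¹`), so `(G i).w = (G i').w` near `t''` (both are roots; `GG_mul`, `GG_self` and continuity: `(W - w) * (something which is not zero near t'') = 0`), and on `D` (identity theorem). `int`: the `y` of `G i'` are those of `G i` permuted by `actZ γ`; at `t''` the values are equal,
  so `actZ γ v = v` (`cover`), so `val k (G i) = val k (G i')` on `D`, `i = i'`. `X` = the image of `I`. The multiset identity: both sides are the image of `I`.
-/

namespace Pool.Agent.Helper79.FY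

open Matrix Pool.Agent.Helper79.BB Pool.Agent.Helper79.HH Pool.Agent.Helper79.HG Pool.Agent.Helper64.Per

/-- The complex values of algebraic coordinates. -/
def cv {X : Type} (p : X → Qbar) : X → ℂ := fun x => ((p x : Qbar) : ℂ)

section

variable {κ : IntermediateField ℚ Qbar} {m r ℓ μ : ℕ} [Fact ℓ.Prime] {U : Set (Fin m → ℂ)}
  {w : (Fin m → ℂ) → ℂ} {S : MvPolynomial (Fin m) κ} {P : (Fin m → ℂ) → Matrix (Fin r) (Fin r) ℂ}
  {Y : ∀ k : ℕ, CoverData κ (Fin r → ZMod (ℓ ^ k)) U w} {lev : Fin r → ℤ} {j : ℤ}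
  {ψ : Matrix (Fin r) (Fin r) ℤ}

theorem aeval_cv {X : Type} (p : MvPolynomial X κ) (x : X → Qbar) :
    MvPolynomial.aeval (cv x) p = ((MvPolynomial.aeval x p : Qbar) : ℂ) := by
  exact MvPolynomial.aeval_algebraMap_apply (A := Qbar) (B := ℂ) x p

theorem conj_aeval {X : Type} (σ : Qbar ≃ₐ[κ] Qbar) (p : MvPolynomial X κ) (x : X → Qbar) :
    σ (MvPolynomial.aeval x p) = MvPolynomial.aeval (fun i => σ (x i)) p := by
  have h := MvPolynomial.comp_aeval_apply (f := x) (σ : Qbar →ₐ[κ] Qbar) p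
  exact h

theorem conj_S (σ : Qbar ≃ₐ[κ] Qbar) (t : Fin m → Qbar) :
    MvPolynomial.aeval (cv fun i => σ (t i)) S ≠ 0 ↔ MvPolynomial.aeval (cv t) S ≠ 0 := by
  rw [aeval_cv, aeval_cv, ← conj_aeval]
  constructor
  · intro h h'
    apply h
    have h1 : MvPolynomial.aeval t S = 0 := Subtype.ext h'
    rw [h1, map_zero]
    rfl
  · intro h h'
    apply h
    have h1 : σ (MvPolynomial.aeval t S) = 0 := Subtype.ext h'
    have h2 : MvPolynomial.aeval t S = 0 := (map_eq_zero_iff σ σ.injective).1 h1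
    rw [h2]
    rfl

private theorem cv_injective {X : Type} : Function.Injective (cv : (X → Qbar) → X → ℂ) := by
  intro p q h
  funext x
  exact Subtype.ext (congrFun h x)

theorem exists_msQ (h : IsLocalSystem S P Y lev j ψ) (hne : U.Nonempty) (hw : IsBranchM κ U μ w) (k : ℕ)
    {t : Fin m → Qbar} (ht : MvPolynomial.aeval (cv t) S ≠ 0) :
    ∃ M : Multiset (Vx Y k → Qbar), ms S P Y k (cv t) = M.map cv := by
  have key : ∀ p ∈ ms S P Y k (cv t), ∃ q : Vx Y k → Qbar, cv q = p := by
    intro p hp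
    obtain ⟨b, hb, hbt, hpb⟩ := exists_of_mem_ms h hne hw ht hp
    have hal : ∀ x, IsAlgebraic ℚ (p x) := by
      intro x
      rw [hpb]
      exact reach_algebraic h hne hw hb hbt (fun i => mem_algebraicClosure_iff.1 (t i).2) k x
    exact ⟨fun x => ⟨p x, mem_algebraicClosure_iff.2 (hal x)⟩, rfl⟩
  classical
  let g : (Vx Y k → ℂ) → (Vx Y k → Qbar) := fun p => if hp : ∃ q, cv q = p then hp.choose else 0
  refine ⟨(ms S P Y k (cv t)).map g, ?_⟩
  rw [Multiset.map_map]
  conv_lhs => rw [← Multiset.map_id (ms S P Y k (cv t))]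
  refine Multiset.map_congr rfl fun p hp => ?_
  have hp' := key p hp
  simp only [id, Function.comp, g]
  rw [dif_pos hp']
  exact hp'.choose_spec.symm

private theorem symm_S (σ : Qbar ≃ₐ[κ] Qbar) {t : Fin m → Qbar}
    (ht : MvPolynomial.aeval (cv t) S ≠ 0) :
    MvPolynomial.aeval (cv fun i => σ.symm (t i)) S ≠ 0 :=
  (conj_S σ.symm t).2 ht

private theorem apply_symm (σ : Qbar ≃ₐ[κ] Qbar) (t : Fin m → Qbar) :
    (fun i => σ (σ.symm (t i))) = t := by
  funext i
  exact σ.apply_symm_apply _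

theorem conj_eqn (h : IsLocalSystem S P Y lev j ψ) (hne : U.Nonempty) (hw : IsBranchM κ U μ w)
    {f : Fin μ → MvPolynomial (Fin m) κ}
    (hf : ∀ t ∈ U, w t ^ μ = ∑ l : Fin μ, MvPolynomial.aeval t (f l) * w t ^ (l : ℕ))
    (σ : Qbar ≃ₐ[κ] Qbar) {k : ℕ} {t : Fin m → Qbar} (ht : MvPolynomial.aeval (cv t) S ≠ 0)
    {M : Multiset (Vx Y k → Qbar)} (hM : ms S P Y k (cv fun i => σ.symm (t i)) = M.map cv) :
    ∀ p ∈ M, σ (p (Sum.inl ())) ^ μ =
      ∑ l : Fin μ, MvPolynomial.aeval t (f l) * σ (p (Sum.inl ())) ^ (l : ℕ) := by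
  intro p hp
  have hmem : cv p ∈ ms S P Y k (cv fun i => σ.symm (t i)) := by
    rw [hM]
    exact Multiset.mem_map_of_mem _ hp
  obtain ⟨b, hb, hbt, hpb⟩ := exists_of_mem_ms h hne hw (symm_S σ ht) hmem
  have h1 := eqn_w hw hf hb _ hbt
  have h2 : b.w (cv fun i => σ.symm (t i)) = ((p (Sum.inl ()) : Qbar) : ℂ) :=
    (congrFun hpb (Sum.inl ())).symm
  have h3 : p (Sum.inl ()) ^ μ =
      ∑ l : Fin μ, MvPolynomial.aeval (fun i => σ.symm (t i)) (f l) * p (Sum.inl ()) ^ (l : ℕ) := by
    apply Subtype.ext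
    rw [h2] at h1
    push_cast
    rw [h1]
    refine Finset.sum_congr rfl fun l _ => ?_
    rw [aeval_cv]
  have h4 := congrArg σ h3
  rw [map_pow, map_sum] at h4
  rw [h4]
  refine Finset.sum_congr rfl fun l _ => ?_
  rw [map_mul, map_pow, conj_aeval, apply_symm]

private theorem elim_cv {X X' : Type} (a : X → Qbar) (b : X' → Qbar) :
    Sum.elim (cv a) (cv b) = cv (Sum.elim a b) := by
  funext x
  cases x <;> rfl

private theorem sum_fin_coeff {R : Type} [CommRing R] {N : ℕ} (z : Fin N → R) (i : Fin N) :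
    (∑ j : Fin N, Polynomial.C (z j) * Polynomial.X ^ (j : ℕ)).coeff (i : ℕ) = z i := by
  rw [Polynomial.finsetSum_coeff, Finset.sum_eq_single i]
  · rw [Polynomial.coeff_C_mul_X_pow, if_pos rfl]
  · intro j _ hj
    rw [Polynomial.coeff_C_mul_X_pow, if_neg]
    intro h
    exact hj (Fin.ext h.symm)
  · intro h
    exact absurd (Finset.mem_univ i) h

private theorem sum_fin_eval {R : Type} [CommRing R] {N : ℕ} (z : Fin N → R) (x : R) :
    (∑ j : Fin N, Polynomial.C (z j) * Polynomial.X ^ (j : ℕ)).eval x =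
      ∑ j : Fin N, x ^ (j : ℕ) * z j := by
  rw [Polynomial.eval_finsetSum]
  refine Finset.sum_congr rfl fun j _ => ?_
  rw [Polynomial.eval_mul, Polynomial.eval_C, Polynomial.eval_pow, Polynomial.eval_X, mul_comm]

/-- Two families of points with the same forms at the points `(1, x, x ^ 2, …)`. -/
private theorem exists_index {A : Type} [Fintype A] {N : ℕ} (u v : A → Fin N → ℂ)
    (h : ∀ (x : ℕ) (a : A),
      ∏ b, ((∑ i : Fin N, (x : ℂ) ^ (i : ℕ) * u a i) - ∑ i : Fin N, (x : ℂ) ^ (i : ℕ) * v b i) = 0)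
    (a : A) : ∃ b, ∀ i, u a i = v b i := by
  classical
  let q : A → Polynomial ℂ := fun b =>
    ∑ j : Fin N, Polynomial.C (u a j - v b j) * Polynomial.X ^ (j : ℕ)
  have hprod : ∏ b, q b = 0 := by
    apply Polynomial.eq_zero_of_infinite_isRoot
    refine Set.infinite_of_injective_forall_mem (f := fun x : ℕ => (x : ℂ)) Nat.cast_injective ?_
    intro x
    change (∏ b, q b).eval (x : ℂ) = 0
    rw [Polynomial.eval_prod, ← h x a]
    refine Finset.prod_congr rfl fun b _ => ?_
    change (∑ j : Fin N, Polynomial.C (u a j - v b j) * Polynomial.X ^ (j : ℕ)).eval (x : ℂ) = _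
    rw [sum_fin_eval, ← Finset.sum_sub_distrib]
    refine Finset.sum_congr rfl fun j _ => ?_
    ring
  obtain ⟨b, _, hb⟩ := Finset.prod_eq_zero_iff.1 hprod
  refine ⟨b, fun i => ?_⟩
  have h1 := sum_fin_coeff (fun j => u a j - v b j) i
  have h2 : (∑ j : Fin N, Polynomial.C (u a j - v b j) * Polynomial.X ^ (j : ℕ)) = 0 := hb
  rw [h2, Polynomial.coeff_zero] at h1
  exact (sub_eq_zero.1 h1.symm)

theorem conj_perm (h : IsLocalSystem S P Y lev j ψ) (hne : U.Nonempty) (hw : IsBranchM κ U μ w)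
    (σ : Qbar ≃ₐ[κ] Qbar) {k : ℕ} {t : Fin m → Qbar} (ht : cv t ∈ U) {w₀ : Qbar}
    (hw₀ : (w₀ : ℂ) = w (cv t)) {M : Multiset (Vx Y k → Qbar)}
    (hM : ms S P Y k (cv fun i => σ.symm (t i)) = M.map cv) :
    ∀ p ∈ M, σ (p (Sum.inl ())) = w₀ → ∃ π : Equiv.Perm (Fin r → ZMod (ℓ ^ k)),
      ∀ v i, ((σ (p (Sum.inr (v, i))) : Qbar) : ℂ) = (Y k).y (π v) i (cv t) := by
  intro p hp hpw
  have hS : MvPolynomial.aeval (cv t) S ≠ 0 := h.dom _ ht
  have hmem : cv p ∈ ms S P Y k (cv fun i => σ.symm (t i)) := by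
    rw [hM]
    exact Multiset.mem_map_of_mem _ hp
  obtain ⟨b, hb, hbt, hpb⟩ := exists_of_mem_ms h hne hw (symm_S σ hS) hmem
  have hbw : b.w (cv fun i => σ.symm (t i)) = ((p (Sum.inl ()) : Qbar) : ℂ) :=
    (congrFun hpb (Sum.inl ())).symm
  have hby : ∀ v i, b.f (Sum.inr ⟨k, v, i⟩) (cv fun i => σ.symm (t i)) =
      ((p (Sum.inr (v, i)) : Qbar) : ℂ) := fun v i => (congrFun hpb (Sum.inr (v, i))).symm
  have h1 : ∀ (X : Fin (Y k).N → Qbar) (z : Qbar),
      MvPolynomial.aeval (Sum.elim (Sum.elim (fun i => σ.symm (t i)) fun _ => p (Sum.inl ()))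
        (Sum.elim X fun _ => z)) (Y k).Φ =
      MvPolynomial.aeval (Sum.elim (fun i => σ.symm (t i)) fun _ => p (Sum.inl ())) (Y k).q *
        ∏ v, (z - ∑ i, X i * p (Sum.inr (v, i))) := by
    intro X z
    have h2 := eqn_reach hb k _ hbt (cv X) (z : ℂ)
    have e0 : (fun _ : Unit => b.w (cv fun i => σ.symm (t i))) = cv fun _ => p (Sum.inl ()) := by
      funext _
      exact hbw
    have e1 : (fun _ : Unit => (z : ℂ)) = cv fun _ => z := rfl
    rw [e0, e1, elim_cv, elim_cv, elim_cv, aeval_cv, aeval_cv] at h2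
    apply Subtype.ext
    rw [h2]
    push_cast
    congr 1
    refine Finset.prod_congr rfl fun v _ => ?_
    congr 1
    refine Finset.sum_congr rfl fun i _ => ?_
    rw [hby]
    rfl
  have h2 : ∀ (X : Fin (Y k).N → Qbar) (z : Qbar),
      MvPolynomial.aeval (Sum.elim (Sum.elim t fun _ => w₀) (Sum.elim X fun _ => z)) (Y k).Φ =
      MvPolynomial.aeval (Sum.elim t fun _ => w₀) (Y k).q *
        ∏ v, (z - ∑ i, X i * σ (p (Sum.inr (v, i)))) := by
    intro X z
    have h3 := congrArg σ (h1 (fun i => σ.symm (X i)) (σ.symm z))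
    rw [map_mul, map_prod, conj_aeval, conj_aeval] at h3
    have e1 : (fun i => σ (Sum.elim (Sum.elim (fun i => σ.symm (t i)) fun _ : Unit => p (Sum.inl ()))
        (Sum.elim (fun i => σ.symm (X i)) fun _ : Unit => σ.symm z) i)) =
        Sum.elim (Sum.elim t fun _ => w₀) (Sum.elim X fun _ => z) := by
      funext x
      rcases x with (x | x) | (x | x)
      · exact σ.apply_symm_apply _
      · exact hpw
      · exact σ.apply_symm_apply _
      · exact σ.apply_symm_apply _
    have e2 : (fun i => σ (Sum.elim (fun i => σ.symm (t i)) (fun _ : Unit => p (Sum.inl ())) i)) =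
        Sum.elim t fun _ => w₀ := by
      funext x
      rcases x with x | x
      · exact σ.apply_symm_apply _
      · exact hpw
    rw [e1, e2] at h3
    rw [h3]
    congr 1
    refine Finset.prod_congr rfl fun v _ => ?_
    rw [map_sub, map_sum, σ.apply_symm_apply]
    congr 1
    refine Finset.sum_congr rfl fun i _ => ?_
    rw [map_mul, σ.apply_symm_apply]
  have h3 : ∀ (X : Fin (Y k).N → Qbar) (z : Qbar),
      ∏ v, ((z : ℂ) - ∑ i, (X i : ℂ) * ((σ (p (Sum.inr (v, i))) : Qbar) : ℂ)) =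
        ∏ v, ((z : ℂ) - ∑ i, (X i : ℂ) * (Y k).y v i (cv t)) := by
    intro X z
    have h4 := (Y k).eqn (cv t) ht (cv X) (z : ℂ)
    have h5 := (Y k).q_ne (cv t) ht
    have e0 : (fun _ : Unit => w (cv t)) = cv fun _ => w₀ := by
      funext _
      exact hw₀.symm
    have e1 : (fun _ : Unit => (z : ℂ)) = cv fun _ => z := rfl
    rw [e0, elim_cv, aeval_cv] at h5
    rw [e0, e1, elim_cv, elim_cv, elim_cv, aeval_cv, aeval_cv, h2] at h4
    push_cast at h4
    exact mul_left_cancel₀ h5 h4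
  have h4 := exists_index (fun v i => ((σ (p (Sum.inr (v, i))) : Qbar) : ℂ))
    (fun v i => (Y k).y v i (cv t)) (by
      intro x a
      have h5 := h3 (fun i => (x : Qbar) ^ (i : ℕ))
        (∑ i : Fin (Y k).N, (x : Qbar) ^ (i : ℕ) * σ (p (Sum.inr (a, i))))
      rw [Finset.prod_eq_zero (Finset.mem_univ a) (by push_cast; rw [sub_self])] at h5
      rw [h5]
      refine Finset.prod_congr rfl fun v _ => ?_
      push_cast
      rfl)
  choose g hg using h4
  have hinj : Function.Injective g := by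
    intro a a' haa
    have h5 : ∀ i, p (Sum.inr (a, i)) = p (Sum.inr (a', i)) := by
      intro i
      apply σ.injective
      apply Subtype.ext
      rw [hg a i, hg a' i, haa]
    apply (h.cover b hb _ hbt k).2
    funext i
    change b.f (Sum.inr ⟨k, a, i⟩) _ = b.f (Sum.inr ⟨k, a', i⟩) _
    rw [hby, hby, h5]
  exact ⟨Equiv.ofBijective g (Finite.injective_iff_bijective.1 hinj), fun v i => hg v i⟩

private theorem continuous_aeval' {X : Type} (p : MvPolynomial X κ) :
    Continuous fun s : X → ℂ => MvPolynomial.aeval s p := by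
  have h1 : (fun s : X → ℂ => MvPolynomial.aeval s p) =
      fun s => MvPolynomial.eval s (p.map (algebraMap κ ℂ)) := by
    funext s
    rw [MvPolynomial.eval_map]
    rfl
  rw [h1]
  exact MvPolynomial.continuous_eval _

private theorem exists_ball {t : Fin m → ℂ} (ht : MvPolynomial.aeval t S ≠ 0) :
    ∃ D : Set (Fin m → ℂ), IsOpen D ∧ Convex ℝ D ∧ t ∈ D ∧ ∀ s ∈ D, MvPolynomial.aeval s S ≠ 0 := by
  have hopen : IsOpen {s : Fin m → ℂ | MvPolynomial.aeval s S ≠ 0} :=
    isOpen_ne_fun (continuous_aeval' S) continuous_const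
  obtain ⟨ε, hε, hsub⟩ := Metric.isOpen_iff.1 hopen t ht
  exact ⟨Metric.ball t ε, Metric.isOpen_ball, convex_ball t ε, Metric.mem_ball_self hε, fun s hs => hsub hs⟩

theorem conj_set (h : IsLocalSystem S P Y lev j ψ) (hne : U.Nonempty) (hw : IsBranchM κ U μ w)
    {f : Fin μ → MvPolynomial (Fin m) κ}
    (hf : ∀ t ∈ U, w t ^ μ = ∑ l : Fin μ, MvPolynomial.aeval t (f l) * w t ^ (l : ℕ) ∧
      (μ : ℂ) * w t ^ (μ - 1) ≠
        ∑ l : Fin μ, (l : ℕ) * MvPolynomial.aeval t (f l) * w t ^ ((l : ℕ) - 1))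
    (σ : Qbar ≃ₐ[κ] Qbar) {k : ℕ} {t : Fin m → Qbar} (ht : cv t ∈ U) {w₀ : Qbar}
    (hw₀ : (w₀ : ℂ) = w (cv t)) {M : Multiset (Vx Y k → Qbar)}
    (hM : ms S P Y k (cv fun i => σ.symm (t i)) = M.map cv) :
    ∃ X : Finset (Equiv.Perm (Fin r → ZMod (ℓ ^ k))),
      (M.filter fun p => σ (p (Sum.inl ())) = w₀).map
        (fun p (e : (Fin r → ZMod (ℓ ^ k)) × Fin (Y k).N) => ((σ (p (Sum.inr e)) : Qbar) : ℂ)) =
      X.val.map fun π e => (Y k).y (π e.1) e.2 (cv t) := by
  classical
  have hS : MvPolynomial.aeval (cv t) S ≠ 0 := h.dom _ ht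
  have hS'' : MvPolynomial.aeval (cv fun i => σ.symm (t i)) S ≠ 0 := symm_S σ hS
  obtain ⟨D, hDo, hDc, htD, hDS⟩ := exists_ball hS''
  obtain ⟨n, G, hG⟩ := exists_reps h hne hw k hDo hDc hDS ⟨_, htD⟩
  have hms := ms_eq h hDo hDc hDS hG htD
  have hq : ∀ i, ∃ q : Vx Y k → Qbar, cv q = val k (G i) (cv fun i => σ.symm (t i)) := by
    intro i
    have h1 : val k (G i) (cv fun i => σ.symm (t i)) ∈ M.map cv := by
      rw [← hM, hms]
      exact Multiset.mem_map_of_mem _ (Finset.mem_univ i)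
    obtain ⟨q, -, hq⟩ := Multiset.mem_map.1 h1
    exact ⟨q, hq⟩
  choose q hq using hq
  have hMq : M = Finset.univ.val.map q := by
    apply Multiset.map_injective cv_injective
    rw [← hM, hms, Multiset.map_map]
    exact Multiset.map_congr rfl fun i _ => (hq i).symm
  have hπ : ∀ i, σ (q i (Sum.inl ())) = w₀ → ∃ π : Equiv.Perm (Fin r → ZMod (ℓ ^ k)),
      ∀ v j, ((σ (q i (Sum.inr (v, j))) : Qbar) : ℂ) = (Y k).y (π v) j (cv t) := by
    intro i hi
    refine conj_perm h hne hw σ ht hw₀ hM (q i) ?_ hi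
    rw [hMq]
    exact Multiset.mem_map_of_mem _ (Finset.mem_univ i)
  choose! π hπ using hπ
  have hinj : ∀ i i', σ (q i (Sum.inl ())) = w₀ → σ (q i' (Sum.inl ())) = w₀ → π i = π i' → i = i' := by
    intro i i' hi hi' hii
    have hqq : q i = q i' := by
      funext x
      apply σ.injective
      rcases x with ⟨⟩ | ⟨v, j⟩
      · exact hi.trans hi'.symm
      · apply Subtype.ext
        rw [hπ i hi v j, hπ i' hi' v j, hii]
    obtain ⟨hr, hU⟩ := hG.1 i
    obtain ⟨hr', hU'⟩ := hG.1 i'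
    have ha := reach_analytic h.analytic hr
    have ha' := reach_analytic h.analytic hr'
    have hval : val k (G i) (cv fun i => σ.symm (t i)) = val k (G i') (cv fun i => σ.symm (t i)) := by
      rw [← hq i, ← hq i', hqq]
    have hwT : (G i).w (cv fun i => σ.symm (t i)) = ((q i (Sum.inl ()) : Qbar) : ℂ) :=
      (congrFun (hq i) (Sum.inl ())).symm
    have hwT' : (G i').w (cv fun i => σ.symm (t i)) = ((q i (Sum.inl ()) : Qbar) : ℂ) := by
      rw [hqq]
      exact (congrFun (hq i') (Sum.inl ())).symm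
    have he := eqn_w hw (fun t ht => (hf t ht).1) hr
    have he' := eqn_w hw (fun t ht => (hf t ht).1) hr'
    -- the root is simple
    have hsimple : (μ : ℂ) * ((q i (Sum.inl ()) : Qbar) : ℂ) ^ (μ - 1) ≠
        ∑ l : Fin μ, (l : ℕ) * MvPolynomial.aeval (cv fun i => σ.symm (t i)) (f l) *
          ((q i (Sum.inl ()) : Qbar) : ℂ) ^ ((l : ℕ) - 1) := by
      intro heq
      have h1 : (μ : Qbar) * q i (Sum.inl ()) ^ (μ - 1) =
          ∑ l : Fin μ, ((l : ℕ) : Qbar) * MvPolynomial.aeval (fun i => σ.symm (t i)) (f l) *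
            q i (Sum.inl ()) ^ ((l : ℕ) - 1) := by
        apply Subtype.ext
        push_cast
        rw [heq]
        refine Finset.sum_congr rfl fun l _ => ?_
        rw [aeval_cv]
      have h2 := congrArg σ h1
      rw [map_mul, map_pow, map_sum, hi, map_natCast] at h2
      have h3 : ∀ l : Fin μ, σ (((l : ℕ) : Qbar) * MvPolynomial.aeval (fun i => σ.symm (t i)) (f l) *
            q i (Sum.inl ()) ^ ((l : ℕ) - 1)) =
          ((l : ℕ) : Qbar) * MvPolynomial.aeval t (f l) * w₀ ^ ((l : ℕ) - 1) := by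
        intro l
        rw [map_mul, map_mul, map_pow, hi, map_natCast, conj_aeval, apply_symm]
      simp only [h3] at h2
      apply (hf (cv t) ht).2
      rw [← hw₀]
      have h4 := congrArg (fun z : Qbar => (z : ℂ)) h2
      push_cast at h4
      rw [h4]
      refine Finset.sum_congr rfl fun l _ => ?_
      rw [aeval_cv]
    -- the branches are equal near the point
    have hev : (G i').w =ᶠ[nhds (cv fun i => σ.symm (t i))] (G i).w := by
      let H : (Fin m → ℂ) → ℂ := fun s =>
        ∑ n, GG (fun l => MvPolynomial.aeval s (f l)) ((G i).w s) n * (G i').w s ^ (n : ℕ)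
      have hc : ContinuousAt (G i).w (cv fun i => σ.symm (t i)) :=
        (ha.2.2.1 _ (by rw [hU]; exact htD)).continuousAt
      have hc' : ContinuousAt (G i').w (cv fun i => σ.symm (t i)) :=
        (ha'.2.2.1 _ (by rw [hU']; exact htD)).continuousAt
      have hH : ContinuousAt H (cv fun i => σ.symm (t i)) := by
        refine tendsto_finsetSum _ fun n _ => ?_
        refine Filter.Tendsto.mul ?_ (hc'.pow _)
        refine Filter.Tendsto.sub (hc.pow _) ?_
        refine tendsto_finsetSum _ fun l _ => ?_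
        split_ifs
        · exact Filter.Tendsto.mul (continuous_aeval' (f l)).continuousAt (hc.pow _)
        · exact tendsto_const_nhds
      have hH0 : H (cv fun i => σ.symm (t i)) ≠ 0 := by
        change ∑ n, GG (fun l => MvPolynomial.aeval (cv fun i => σ.symm (t i)) (f l))
          ((G i).w (cv fun i => σ.symm (t i))) n * (G i').w (cv fun i => σ.symm (t i)) ^ (n : ℕ) ≠ 0
        rw [hwT, hwT', GG_self]
        exact sub_ne_zero.2 hsimple
      filter_upwards [hH.eventually_ne hH0, hDo.mem_nhds htD] with s hs hsD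
      have h1 := GG_mul (fun l => MvPolynomial.aeval s (f l)) ((G i).w s) ((G i').w s)
      rw [← he s (by rw [hU]; exact hsD), ← he' s (by rw [hU']; exact hsD), sub_self, sub_self,
        sub_self] at h1
      exact sub_eq_zero.1 ((mul_eq_zero.1 h1).resolve_right hs)
    have hDconn : IsPreconnected D := hDc.isPreconnected
    have hww : ∀ s ∈ D, (G i).w s = (G i').w s := by
      intro s hs
      have h1 : AnalyticOnNhd ℂ (G i).w D := by
        rw [← hU]
        exact ha.2.2.1
      have h2 : AnalyticOnNhd ℂ (G i').w D := by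
        rw [← hU']
        exact ha'.2.2.1
      exact (h2.eqOn_of_preconnected_of_eventuallyEq h1 hDconn htD hev hs).symm
    obtain ⟨γ, -, hγ⟩ := h.int (G i) (G i') hr hr' (hU.trans hU'.symm) (by rw [hU]; exact hww)
    have hact : ∀ v : Fin r → ZMod (ℓ ^ k), actZ (γ : Matrix (Fin r) (Fin r) ℤ) v = v := by
      intro v
      apply (h.cover (G i) hr _ (by rw [hU]; exact htD) k).2
      funext j
      have h1 := (hγ (cv fun i => σ.symm (t i)) (by rw [hU]; exact htD)).2 k v j
      have h2 := congrFun hval (Sum.inr (v, j))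
      exact h1.symm.trans h2.symm
    have h3 : ∀ s ∈ D, val k (G i) s = val k (G i') s := by
      intro s hs
      funext x
      rcases x with ⟨⟩ | ⟨v, j⟩
      · exact hww s hs
      · have h1 := (hγ s (by rw [hU]; exact hs)).2 k v j
        rw [hact] at h1
        exact h1.symm
    obtain ⟨i₀, -, hi₀⟩ := hG.2 (G i) hr hU
    exact (hi₀ i fun s _ => rfl).trans (hi₀ i' h3).symm
  refine ⟨(Finset.univ.filter fun i => σ (q i (Sum.inl ())) = w₀).image π, ?_⟩
  rw [Finset.image_val_of_injOn (by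
    intro i hi i' hi' hii
    exact hinj i i' (Finset.mem_filter.1 hi).2 (Finset.mem_filter.1 hi').2 hii), Multiset.map_map, hMq,
    Multiset.filter_map, Multiset.map_map, Finset.filter_val]
  refine Multiset.map_congr ?_ fun i hi => ?_
  · congr
  · funext e
    have hi2 : σ (q i (Sum.inl ())) = w₀ := (Multiset.mem_filter.1 hi).2
    exact hπ i hi2 e.1 e.2

end

end Pool.Agent.Helper79.FY
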