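import Pool.Agent.Helper79.HI.Defs

/-!
# FY: local systems of a family and their étale covers: definitions
-/

namespace Pool.Agent.Helper79.FY

open Matrix Pool.Agent.Helper79.BB Pool.Agent.Helper79.HH Pool.Agent.Helper79.HG Pool.Agent.Helper64.Per

/-- `t ↦ (t, w t)`, `t ∈ U`, is an analytic branch of a hypersurface of degree `μ` over the affine space, which is étale
over the affine space at these points. -/
structure IsEtaleBranch (k : Type) [Field k] [Algebra k ℂ] {m : ℕ} (U : Set (Fin m → ℂ)) (μ : ℕ)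
    (w : (Fin m → ℂ) → ℂ) : Prop where
  analytic : AnalyticOnNhd ℂ w U
  eqn : ∃ f : Fin μ → MvPolynomial (Fin m) k,
    ∀ t ∈ U, w t ^ μ = ∑ l : Fin μ, MvPolynomial.aeval t (f l) * w t ^ (l : ℕ) ∧
      (μ : ℂ) * w t ^ (μ - 1) ≠
        ∑ l : Fin μ, (l : ℕ) * MvPolynomial.aeval t (f l) * w t ^ ((l : ℕ) - 1)

section

variable {κ : Type} [Field κ] [Algebra κ ℂ] {m : ℕ} {α : Type}

/-- The function element `b` is an immediate analytic continuation of `a`, and its domain does not meet the
hypersurface `S = 0`. -/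
def NextIn (S : MvPolynomial (Fin m) κ) (a b : Elem m α) : Prop :=
  a.Next b ∧ ∀ t ∈ b.U, MvPolynomial.aeval t S ≠ 0

/-- The function element `b` is obtained from `a` by analytic continuation in the complement of the
hypersurface `S = 0`. -/
def Reach (S : MvPolynomial (Fin m) κ) (a b : Elem m α) : Prop :=
  Relation.ReflTransGen (NextIn S) a b

end

section

variable {κ : Type} [Field κ] [Algebra κ ℂ] {m r ℓ : ℕ} [Fact ℓ.Prime] {U : Set (Fin m → ℂ)}
  {w : (Fin m → ℂ) → ℂ}

/-- The function element given by the branch `w`, the period matrix `P` and the points of the covers `Y k`. -/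
noncomputable def base (P : (Fin m → ℂ) → Matrix (Fin r) (Fin r) ℂ)
    (Y : ∀ k : ℕ, CoverData κ (Fin r → ZMod (ℓ ^ k)) U w) :
    Elem m ((Fin r × Fin r) ⊕ (Σ k : ℕ, (Fin r → ZMod (ℓ ^ k)) × Fin (Y k).N)) :=
  ⟨U, w, fns P Y 1⟩

/-- The period matrix of a function element. -/
def pmat {β : Type} (b : Elem m ((Fin r × Fin r) ⊕ β)) (t : Fin m → ℂ) : Matrix (Fin r) (Fin r) ℂ :=
  Matrix.of fun x y => b.f (Sum.inl (x, y)) t

/-- `S₀` is the variety over `κ`, finite étale over the complement of the hypersurface `S = 0` in the affine space, one of whose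
branches is `t ↦ (t, w t)`, `t ∈ U`. The local system `ℤ^r` on `S₀` carries a variation of Hodge structure of weight `j`
polarised by `ψ`, with period matrix `P` with respect to a basis of the Hodge bundle adapted to the Hodge filtration (with elements of
levels `lev x`), and `Y k` is the finite étale cover of `S₀` given by the local system `(ℤ / ℓ^k)^r`.

* `ext`: all continuations `b` of `(w, P, y)` can be continued to all convex open sets in the complement of `S = 0` which meet the
  domain of `b`;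
* `int`: two continuations with the same domain and the same branch `w` differ by an integral isometry `γ` of `ψ`, which
  acts on the periods and the points of the covers;
* `cover`: the covers `Y k` are étale over `S₀`: the denominators do not vanish, the points are different;
* `det`, `pol`: at all points the continued period matrix is invertible and gives a Hodge structure polarised by `ψ`;
* `trans`: the derivatives lower the Hodge filtration by at most one (Griffiths). -/
structure IsLocalSystem (S : MvPolynomial (Fin m) κ) (P : (Fin m → ℂ) → Matrix (Fin r) (Fin r) ℂ)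
    (Y : ∀ k : ℕ, CoverData κ (Fin r → ZMod (ℓ ^ k)) U w) (lev : Fin r → ℤ) (j : ℤ)
    (ψ : Matrix (Fin r) (Fin r) ℤ) : Prop where
  ne : S ≠ 0
  analytic : (base P Y).IsAnalytic
  dom : ∀ t ∈ U, MvPolynomial.aeval t S ≠ 0
  ext : ∀ b, Reach S (base P Y) b → ∀ D : Set (Fin m → ℂ), IsOpen D → Convex ℝ D →
    (∀ t ∈ D, MvPolynomial.aeval t S ≠ 0) → ∀ t ∈ b.U ∩ D,
      ∃ c : Elem m ((Fin r × Fin r) ⊕ (Σ k : ℕ, (Fin r → ZMod (ℓ ^ k)) × Fin (Y k).N)),
        c.U = D ∧ c.IsAnalytic ∧ ∀ᶠ s in nhds t, b.w s = c.w s ∧ ∀ i, b.f i s = c.f i s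
  int : ∀ b c, Reach S (base P Y) b → Reach S (base P Y) c → b.U = c.U →
    (∀ t ∈ b.U, b.w t = c.w t) → ∃ γ : GL (Fin r) ℤ,
      (γ : Matrix (Fin r) (Fin r) ℤ)ᵀ * ψ * (γ : Matrix (Fin r) (Fin r) ℤ) = ψ ∧
      ∀ t ∈ b.U, pmat c t = pmat b t * (γ : Matrix (Fin r) (Fin r) ℤ).map (Int.cast : ℤ → ℂ) ∧
        ∀ k v i, c.f (Sum.inr ⟨k, v, i⟩) t =
          b.f (Sum.inr ⟨k, actZ (γ : Matrix (Fin r) (Fin r) ℤ) v, i⟩) t
  cover : ∀ b, Reach S (base P Y) b → ∀ t ∈ b.U, ∀ k,
    MvPolynomial.aeval (Sum.elim t fun _ => b.w t) (Y k).q ≠ 0 ∧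
      Function.Injective fun v i => b.f (Sum.inr ⟨k, v, i⟩) t
  det : ∀ b, Reach S (base P Y) b → ∀ t ∈ b.U, IsUnit (pmat b t).det
  pol : ∀ b, Reach S (base P Y) b → ∀ t ∈ b.U,
    IsPolarized lev j (ψ.map (Int.cast : ℤ → ℚ)) (pmat b t)
  trans : ∀ b, Reach S (base P Y) b → ∀ t ∈ b.U, ∀ (i : Fin m) (x y : Fin r), lev y + 1 < lev x →
    ((Matrix.of fun x y => pd i (fun s => pmat b s x y) t) * (pmat b t)⁻¹) x y = 0

end

end Pool.Agent.Helper79.FY
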