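import Pool.Agent.Helper79.FX.Dense
import Pool.Agent.Helper79.HG.Conn

/-!
# FY-12: the Zariski closure of a group all of whose subgroups of finite index are dense is connected

`R = GLPoly r ℚ ⧸ vanGL ℚ Γ` is not zero (`1 ∈ Γ`: the evaluation at `1`) and noetherian. The spectrum of `R` is connected if `0` and `1` are the only idempotents (`PrimeSpectrum` and idempotents: `PrimeSpectrum.isIdempotentElemEquivClopens`, or as in `eq_of_isConn` in `Pool/Agent/Helper79/HG/Conn.lean`, where the converse is used).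
Let `f` be a polynomial whose class is idempotent: `evGL γ f ∈ {0, 1}` for all `γ ∈ Γ`. Let `Γ' = {γ ∈ Γ | evGL (x * γ) f = evGL x f for all x ∈ Γ}`, a subgroup. It has finite index: the polynomial `x ↦ evGL (x * γ) f` (`HI.exists_right`, `HI/Trans.lean`) has for each `γ ∈ Γ` an idempotent class in `R`, and a noetherian ring has finitely
many idempotents (its spectrum is a noetherian space: finitely many irreducible components, and a clopen set is a union of irreducible components: `TopologicalSpace.NoetherianSpace.finite_irreducibleComponents`; or: `R` is reduced noetherian with finitely many minimal primes `minimalPrimes.finite_of_isNoetherianRing`, and an idempotent is determined by the minimal primes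
which contain it); the classes of `γ` and `γ'` are equal iff `γ Γ' = γ' Γ'` or so. On `Γ'`: `evGL γ f = evGL 1 f`, so `f - C (evGL 1 f)` vanishes on `Γ'`, so on `Γ` (`DenseG`), and the class of `f` is the constant `evGL 1 f ∈ {0, 1}`.
-/

namespace Pool.Agent.Helper79.FY

open Matrix Pool.Agent.Helper79.HG Pool.Agent.Helper79.HI Pool.Agent.Helper79.FX Pool.Agent.Helper88.MT

private theorem finite_idem (R : Type) [CommRing R] [IsNoetherianRing R] :
    {e : R | IsIdempotentElem e}.Finite := by
  classical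
  have hfin : (minimalPrimes R).Finite := minimalPrimes.finite_of_isNoetherianRing R
  have hzero : ∀ e e' : R, IsIdempotentElem e → IsIdempotentElem e' →
      (∀ p ∈ minimalPrimes R, e ∈ p ↔ e' ∈ p) → e * (1 - e') = 0 := by
    intro e e' he he' hp
    have h1 : e * (1 - e') ∈ sInf (minimalPrimes R) := by
      rw [Ideal.mem_sInf]
      intro p hpm
      have hpp : p.IsPrime := hpm.1.1
      by_cases h2 : e ∈ p
      · exact p.mul_mem_right _ h2
      · have h3 : e' ∉ p := fun h => h2 ((hp p hpm).2 h)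
        have h4 : e' * (1 - e') ∈ p := by
          have h5 : e' * (1 - e') = 0 := by
            rw [mul_sub, mul_one, he'.eq, sub_self]
          rw [h5]
          exact p.zero_mem
        rcases hpp.mem_or_mem h4 with h5 | h5
        · exact absurd h5 h3
        · exact p.mul_mem_left _ h5
    have h2 : sInf (minimalPrimes R) = nilradical R := by
      rw [minimalPrimes, Ideal.sInf_minimalPrimes, nilradical]
      rfl
    rw [h2, mem_nilradical] at h1
    have h3 : IsIdempotentElem (e * (1 - e')) := he.mul he'.one_sub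
    obtain ⟨n, hn⟩ := h1
    have h4 : (e * (1 - e')) ^ (n + 1) = e * (1 - e') := h3.pow_succ_eq n
    rw [← h4, pow_succ, hn, zero_mul]
  have hinj : Set.InjOn (fun e : R => {p ∈ minimalPrimes R | e ∈ p}) {e : R | IsIdempotentElem e} := by
    intro e he e' he' h
    have hiff : ∀ p ∈ minimalPrimes R, e ∈ p ↔ e' ∈ p := by
      intro p hp
      have h1 : p ∈ {p ∈ minimalPrimes R | e ∈ p} ↔ p ∈ {p ∈ minimalPrimes R | e' ∈ p} := by
        have h2 : {p ∈ minimalPrimes R | e ∈ p} = {p ∈ minimalPrimes R | e' ∈ p} := h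
        rw [h2]
      constructor
      · intro h2
        exact (h1.1 ⟨hp, h2⟩).2
      · intro h2
        exact (h1.2 ⟨hp, h2⟩).2
    have h1 := hzero e e' he he' hiff
    have h2 := hzero e' e he' he fun p hp => (hiff p hp).symm
    rw [mul_sub, mul_one, sub_eq_zero] at h1 h2
    rw [mul_comm e' e] at h2
    exact h1.trans h2.symm
  refine Set.Finite.of_finite_image (Set.Finite.subset hfin.finite_subsets ?_) hinj
  rintro _ ⟨e, _, rfl⟩
  exact fun p hp => hp.1

theorem isConn_of_dense {r : ℕ} {Γ : Subgroup (GL (Fin r) ℚ)} (h : DenseG Γ) :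
    IsConn (Γ : Set (GL (Fin r) ℚ)) := by
  classical
  unfold IsConn
  obtain ⟨I, hI⟩ : ∃ I, I = vanGL ℚ (Γ : Set (GL (Fin r) ℚ)) := ⟨_, rfl⟩
  have hmem : ∀ f, f ∈ I ↔ ∀ g ∈ Γ, evGL g f = 0 := by
    intro f
    rw [hI]
    exact Iff.rfl
  have heq : ∀ f f' : GLPoly r ℚ, Ideal.Quotient.mk I f = Ideal.Quotient.mk I f' ↔
      ∀ g ∈ Γ, evGL g f = evGL g f' := by
    intro f f'
    rw [Ideal.Quotient.eq, hmem]
    refine forall₂_congr fun g _ => ?_
    rw [map_sub, sub_eq_zero]
  rw [← hI]
  have hC : ∀ (g : GL (Fin r) ℚ) (c : ℚ), evGL g (MvPolynomial.C c : GLPoly r ℚ) = c := by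
    intro g c
    rw [evGL, MvPolynomial.aeval_C]
    rfl
  have hnt : Nontrivial (GLPoly r ℚ ⧸ I) := by
    refine Ideal.Quotient.nontrivial_iff.2 ?_
    intro h1
    have h2 : (1 : GLPoly r ℚ) ∈ I := by
      rw [h1]
      exact Submodule.mem_top
    have h3 := (hmem 1).1 h2 1 Γ.one_mem
    rw [map_one] at h3
    exact one_ne_zero h3
  have hfinI : {e : GLPoly r ℚ ⧸ I | IsIdempotentElem e}.Finite := finite_idem _
  have key : ∀ e : GLPoly r ℚ ⧸ I, IsIdempotentElem e → e = 0 ∨ e = 1 := by
    intro e he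
    obtain ⟨f, rfl⟩ := Ideal.Quotient.mk_surjective e
    have hf2 : ∀ g ∈ Γ, evGL g f * evGL g f = evGL g f := by
      have h1 : Ideal.Quotient.mk I (f * f) = Ideal.Quotient.mk I f := by
        rw [map_mul]
        exact he.eq
      intro g hg
      have h2 := (heq _ _).1 h1 g hg
      rw [map_mul] at h2
      exact h2
    have hex : ∀ γ : GL (Fin r) ℚ, ∃ f' : GLPoly r ℚ, ∀ x : GL (Fin r) ℚ,
        evGL x f' = evGL (x * γ) f := by
      intro γ
      obtain ⟨f', hf'⟩ := exists_right γ f
      refine ⟨f', fun x => ?_⟩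
      rw [hf' x]
      congr 2
    choose F hF using hex
    obtain ⟨Γ', hΓ'⟩ : ∃ Γ' : Subgroup (GL (Fin r) ℚ), ∀ γ, γ ∈ Γ' ↔
        γ ∈ Γ ∧ ∀ x ∈ Γ, evGL (x * γ) f = evGL x f := by
      refine ⟨{ carrier := {γ | γ ∈ Γ ∧ ∀ x ∈ Γ, evGL (x * γ) f = evGL x f}
                one_mem' := ⟨Γ.one_mem, fun x _ => by rw [mul_one]⟩
                mul_mem' := ?_
                inv_mem' := ?_ }, fun γ => Iff.rfl⟩
      · rintro a b ⟨ha, ha'⟩ ⟨hb, hb'⟩
        refine ⟨Γ.mul_mem ha hb, fun x hx => ?_⟩
        rw [← mul_assoc, hb' _ (Γ.mul_mem hx ha), ha' x hx]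
      · rintro a ⟨ha, ha'⟩
        refine ⟨Γ.inv_mem ha, fun x hx => ?_⟩
        have h1 := ha' (x * a⁻¹) (Γ.mul_mem hx (Γ.inv_mem ha))
        rw [inv_mul_cancel_right] at h1
        exact h1.symm
    have hfin : Γ'.relIndex Γ ≠ 0 := by
      have hfinS : Finite {e : GLPoly r ℚ ⧸ I | IsIdempotentElem e} := hfinI
      have hidem : ∀ γ ∈ Γ, IsIdempotentElem (Ideal.Quotient.mk I (F γ)) := by
        intro γ hγ
        unfold IsIdempotentElem
        rw [← map_mul, heq]
        intro g hg
        rw [map_mul, hF]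
        exact hf2 _ (Γ.mul_mem hg hγ)
      have hfq : Finite (Γ ⧸ Γ'.subgroupOf Γ) := by
        refine Finite.of_injective (β := {e : GLPoly r ℚ ⧸ I | IsIdempotentElem e})
          (fun q => ⟨Ideal.Quotient.mk I (F (q.out : Γ)), hidem _ (q.out : Γ).2⟩) ?_
        intro q q' hq
        have h1 : Ideal.Quotient.mk I (F (q.out : Γ)) = Ideal.Quotient.mk I (F (q'.out : Γ)) :=
          congrArg Subtype.val hq
        rw [heq] at h1
        rw [← QuotientGroup.out_eq' q, ← QuotientGroup.out_eq' q', QuotientGroup.eq]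
        rw [Subgroup.mem_subgroupOf, hΓ']
        refine ⟨((q.out)⁻¹ * q'.out : Γ).2, fun x hx => ?_⟩
        have h2 := h1 (x * ((q.out : Γ) : GL (Fin r) ℚ)⁻¹) (Γ.mul_mem hx (Γ.inv_mem (q.out : Γ).2))
        rw [hF, hF, inv_mul_cancel_right] at h2
        rw [h2]
        congr 2
        rw [Subgroup.coe_mul, Subgroup.coe_inv, mul_assoc]
      rw [Subgroup.relIndex, Subgroup.index]
      exact Nat.card_pos.ne'
    have hconst : ∀ g ∈ Γ, evGL g f = evGL 1 f := by
      intro g hg
      have h1 := h Γ' hfin (f - MvPolynomial.C (evGL 1 f)) (fun a ha _ => by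
        rw [map_sub, hC, sub_eq_zero]
        have h2 := ((hΓ' a).1 ha).2 1 Γ.one_mem
        rw [one_mul] at h2
        exact h2) g hg
      rw [map_sub, hC, sub_eq_zero] at h1
      exact h1
    have h01 : evGL (1 : GL (Fin r) ℚ) f = 0 ∨ evGL (1 : GL (Fin r) ℚ) f = 1 := by
      have h1 := hf2 1 Γ.one_mem
      have h2 : evGL (1 : GL (Fin r) ℚ) f * (evGL 1 f - 1) = 0 := by
        rw [mul_sub, mul_one, h1, sub_self]
      rcases mul_eq_zero.1 h2 with h3 | h3
      · exact Or.inl h3
      · exact Or.inr (sub_eq_zero.1 h3)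
    rcases h01 with h1 | h1
    · left
      rw [← map_zero (Ideal.Quotient.mk I), heq]
      intro g hg
      rw [hconst g hg, h1, map_zero]
    · right
      rw [← map_one (Ideal.Quotient.mk I), heq]
      intro g hg
      rw [hconst g hg, h1, map_one]
  have hpre : PreconnectedSpace (PrimeSpectrum (GLPoly r ℚ ⧸ I)) := by
    rw [preconnectedSpace_iff_clopen]
    intro s hs
    obtain ⟨e, he, rfl⟩ := PrimeSpectrum.isClopen_iff.1 hs
    rcases key e he with rfl | rfl
    · left
      rw [PrimeSpectrum.basicOpen_zero]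
      rfl
    · right
      rw [PrimeSpectrum.basicOpen_one]
      rfl
  exact { hpre with toNonempty := inferInstance }

end Pool.Agent.Helper79.FY
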