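import Pool.Agent.Helper79.FY.Lift
import Pool.Agent.Helper79.FX.FinW

/-!
# FY-04: the finite set of the branches of `(w, y)` over a convex open set

`val k b t` = the value at `t` of `b.w` and of the coordinates of the points of the cover `Y k`.
* `exists_reps`: the functions `b.w` on `D` for the reached `b` over `D` are finitely many (`FX.finite_w`, for the elements `⟨b.U, b.w, pmat b⟩`: forgetting the `y` gives `FX.Reach`). If `b.w = c.w` on `D` then by `int` the `y` of `c` are those of `b`, permuted by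
  `actZ γ`, a map of the finite set `Fin r → ZMod (ℓ ^ k)` to itself. So the set of the functions `val k b` restricted to `D`, `b` reached over `D`, is finite; choose one `b` for each of them (`Finite.equivFin`).
* `multiset_eq`: for `i` there is (`reach_ext` at `t` from `G i` to `D'`) `c` reached over `D'` which agrees with `G i` near `t`, so there is a unique `i'` with `val k c = val k (G' i')` on `D'`. The map `i ↦ i'` is injective: if `i₁, i₂ ↦ i'` then `val k (G i₁) = val k (G i₂)` near `t`, so on `D`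
  (identity theorem), `i₁ = i₂` (uniqueness). It is surjective: the same from `D'` to `D` (if `i'` is given, `reach_ext` from `G' i'` to `D` gives `i`; the image of `i` is `i'`, again by the identity theorem). `val k (G i) t = val k (G' i') t`.
* `ms_eq`: unfold `ms`; the condition holds; `multiset_eq`.
* `exists_ball`: `IsLocalSystem.exists_over`-type argument is not needed: `ms` is used at all points `t` with `S ≠ 0`: a ball about `t`, `exists_reps`.
-/

namespace Pool.Agent.Helper79.FY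

open Matrix Pool.Agent.Helper79.BB Pool.Agent.Helper79.HH Pool.Agent.Helper79.HG Pool.Agent.Helper64.Per

variable {κ : Type} [Field κ] [Algebra κ ℂ] {m r ℓ μ : ℕ} [Fact ℓ.Prime] {U : Set (Fin m → ℂ)}
  {w : (Fin m → ℂ) → ℂ} {S : MvPolynomial (Fin m) κ} {P : (Fin m → ℂ) → Matrix (Fin r) (Fin r) ℂ}
  {Y : ∀ k : ℕ, CoverData κ (Fin r → ZMod (ℓ ^ k)) U w} {lev : Fin r → ℤ} {j : ℤ}
  {ψ : Matrix (Fin r) (Fin r) ℤ}

/-- The coordinates of level `k`. -/
abbrev Vx (Y : ∀ k : ℕ, CoverData κ (Fin r → ZMod (ℓ ^ k)) U w) (k : ℕ) : Type :=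
  Unit ⊕ ((Fin r → ZMod (ℓ ^ k)) × Fin (Y k).N)

/-- The values of the functions of level `k`. -/
def val (k : ℕ) (b : Elem m (Ix Y)) (t : Fin m → ℂ) : Vx Y k → ℂ :=
  Sum.elim (fun _ => b.w t) fun e => b.f (Sum.inr ⟨k, e⟩) t

/-- Representatives of the branches of level `k` over `D`. -/
def IsReps (S : MvPolynomial (Fin m) κ) (P : (Fin m → ℂ) → Matrix (Fin r) (Fin r) ℂ)
    (Y : ∀ k : ℕ, CoverData κ (Fin r → ZMod (ℓ ^ k)) U w) (k : ℕ) (D : Set (Fin m → ℂ)) {n : ℕ}
    (G : Fin n → Elem m (Ix Y)) : Prop :=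
  (∀ i, Reach S (base P Y) (G i) ∧ (G i).U = D) ∧
    ∀ b, Reach S (base P Y) b → b.U = D → ∃! i, ∀ t ∈ D, val k b t = val k (G i) t

/-- The element with the period matrix only. -/
private def h45_fg (b : Elem m (Ix Y)) : Element m (Fin r) := ⟨b.U, b.w, pmat b⟩

private theorem h45_fg_analytic {b : Elem m (Ix Y)} (hb : b.IsAnalytic) : (h45_fg b).IsAnalytic :=
  ⟨hb.1, hb.2.1, hb.2.2.1, fun _ _ => hb.2.2.2 _⟩

private theorem h45_fg_reach {a b : Elem m (Ix Y)} (h : Reach S a b) :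
    FX.Reach (S.map (algebraMap κ ℂ)) (h45_fg a) (h45_fg b) := by
  induction h with
  | refl => exact Relation.ReflTransGen.refl
  | @tail b c _ h2 ih =>
    obtain ⟨⟨hb, hc, O, hO, hO1, hOa, hOb, ht⟩, hS⟩ := h2
    refine Relation.ReflTransGen.tail ih ⟨⟨h45_fg_analytic hb, h45_fg_analytic hc, O, hO, hO1,
      hOa, hOb, fun t htO => ⟨(ht t htO).1, ?_⟩⟩, fun t ht => ?_⟩
    · ext x y
      exact (ht t htO).2 _
    · rw [MvPolynomial.eval_map, ← MvPolynomial.aeval_def]
      exact hS t ht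

private theorem h45_fg_base (P : (Fin m → ℂ) → Matrix (Fin r) (Fin r) ℂ)
    (Y : ∀ k : ℕ, CoverData κ (Fin r → ZMod (ℓ ^ k)) U w) :
    h45_fg (base P Y) = ⟨U, w, P⟩ := by
  unfold h45_fg
  rw [pmat_base]
  rfl

/-- The coordinates of `val` are analytic. -/
private theorem h45_val_analytic {b : Elem m (Ix Y)} (hb : b.IsAnalytic) (k : ℕ) (e : Vx Y k) :
    AnalyticOnNhd ℂ (fun s => val k b s e) b.U := by
  rcases e with e | e
  · exact hb.2.2.1
  · exact hb.2.2.2 _

/-- Representatives with the same germ of `val` are equal. -/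
private theorem h45_uniq (h : IsLocalSystem S P Y lev j ψ) {k : ℕ} {D : Set (Fin m → ℂ)}
    (hDc : IsPreconnected D) {n : ℕ} {G : Fin n → Elem m (Ix Y)} (hG : IsReps S P Y k D G)
    {t : Fin m → ℂ} (ht : t ∈ D) {i i' : Fin n}
    (he : ∀ᶠ s in nhds t, val k (G i) s = val k (G i') s) : i = i' := by
  obtain ⟨h1, h2⟩ := hG.1 i
  obtain ⟨h3, h4⟩ := hG.1 i'
  have ha := reach_analytic h.analytic h1
  have ha' := reach_analytic h.analytic h3
  have hE : ∀ e, Set.EqOn (fun s => val k (G i) s e) (fun s => val k (G i') s e) D := by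
    intro e
    have h5 := h45_val_analytic ha k e
    have h6 := h45_val_analytic ha' k e
    rw [h2] at h5
    rw [h4] at h6
    exact h5.eqOn_of_preconnected_of_eventuallyEq h6 hDc ht (he.mono fun s hs => congrFun hs e)
  exact (hG.2 (G i) h1 h2).unique (fun s _ => rfl) (fun s hs => funext fun e => hE e hs)

/-- Every representative over `D` has the germ of a representative over `D'`. -/
private theorem h45_match (h : IsLocalSystem S P Y lev j ψ) {k : ℕ} {D D' : Set (Fin m → ℂ)}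
    (hD' : IsOpen D') (hDc' : Convex ℝ D') (hDS' : ∀ t ∈ D', MvPolynomial.aeval t S ≠ 0)
    {n n' : ℕ} {G : Fin n → Elem m (Ix Y)} {G' : Fin n' → Elem m (Ix Y)}
    (hG : IsReps S P Y k D G) (hG' : IsReps S P Y k D' G') {t : Fin m → ℂ} (ht : t ∈ D)
    (ht' : t ∈ D') (i : Fin n) :
    ∃ i', ∀ᶠ s in nhds t, val k (G i) s = val k (G' i') s := by
  obtain ⟨h1, h2⟩ := hG.1 i
  obtain ⟨c, hc, hcD, hcs⟩ := h.reach_ext h1 hD' hDc' hDS' (t := t) (by rw [h2]; exact ht) ht'
  obtain ⟨i', hi', _⟩ := hG'.2 c hc hcD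
  refine ⟨i', ?_⟩
  filter_upwards [hcs, hD'.mem_nhds ht'] with s h3 h4
  rw [← hi' s h4]
  funext e
  rcases e with e | e
  · exact h3.1
  · exact h3.2 _

theorem exists_reps (h : IsLocalSystem S P Y lev j ψ) (hne : U.Nonempty) (hw : IsBranchM κ U μ w)
    (k : ℕ) {D : Set (Fin m → ℂ)} (hD : IsOpen D) (hD' : Convex ℝ D)
    (hDS : ∀ t ∈ D, MvPolynomial.aeval t S ≠ 0) (hDne : D.Nonempty) :
    ∃ (n : ℕ) (G : Fin n → Elem m (Ix Y)), IsReps S P Y k D G := by
  classical
  have hfw := FX.finite_w (S := S.map (algebraMap κ ℂ)) (a := (⟨U, w, P⟩ : Element m (Fin r)))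
    (k := κ) (μ := μ) hne (by
      rw [← h45_fg_base P Y]
      exact h45_fg_analytic h.analytic) hw hDne
  obtain ⟨n, f, hf⟩ := hfw
  let R : Type := {b : Elem m (Ix Y) // Reach S (base P Y) b ∧ b.U = D}
  let Φ : R → D → Vx Y k → ℂ := fun b t => val k b.1 t.1
  let I : Type := {i : Fin n // ∃ b : R, ∀ t ∈ D, b.1.w t = f i t}
  let B : I → R := fun i => i.2.choose
  have hB : ∀ (i : I), ∀ t ∈ D, (B i).1.w t = f i.1 t := fun i => i.2.choose_spec
  let Ψ : I × ((Fin r → ZMod (ℓ ^ k)) → (Fin r → ZMod (ℓ ^ k))) → D → Vx Y k → ℂ :=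
    fun p t => Sum.elim (fun _ => (B p.1).1.w t.1)
      fun e => (B p.1).1.f (Sum.inr ⟨k, (p.2 e.1, e.2)⟩) t.1
  have hsub : Set.range Φ ⊆ Set.range Ψ := by
    rintro _ ⟨b, rfl⟩
    have h1 : FX.Reach (S.map (algebraMap κ ℂ)) ⟨U, w, P⟩ (h45_fg b.1) := by
      rw [← h45_fg_base P Y]
      exact h45_fg_reach b.2.1
    obtain ⟨i, hi⟩ := hf _ h1 b.2.2
    have hi' : ∀ t ∈ D, b.1.w t = f i t := hi
    let i' : I := ⟨i, b, hi'⟩
    obtain ⟨γ, _, hγ⟩ := h.int (B i').1 b.1 (B i').2.1 b.2.1 (by rw [(B i').2.2, b.2.2]) (by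
      intro t ht
      rw [(B i').2.2] at ht
      rw [hB i' t ht, hi' t ht])
    refine ⟨(i', actZ (γ : Matrix (Fin r) (Fin r) ℤ)), ?_⟩
    funext t
    funext e
    rcases e with e | e
    · change (B i').1.w t.1 = b.1.w t.1
      rw [hB i' t.1 t.2, hi' t.1 t.2]
    · change (B i').1.f (Sum.inr ⟨k, (actZ (γ : Matrix (Fin r) (Fin r) ℤ) e.1, e.2)⟩) t.1 =
        b.1.f (Sum.inr ⟨k, e⟩) t.1
      have h2 := (hγ t.1 (by rw [(B i').2.2]; exact t.2)).2 k e.1 e.2
      exact h2.symm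
  have hI : Finite I := Subtype.finite
  have hfin : (Set.range Φ).Finite := (Set.finite_range Ψ).subset hsub
  have hfin' : Finite (Set.range Φ) := hfin
  obtain ⟨N, ⟨e⟩⟩ := Finite.exists_equiv_fin (Set.range Φ)
  let g : Fin N → R := fun i => (e.symm i).2.choose
  have hg : ∀ i, Φ (g i) = (e.symm i).1 := fun i => (e.symm i).2.choose_spec
  refine ⟨N, fun i => (g i).1, fun i => (g i).2, fun b hb hbD => ?_⟩
  let b' : R := ⟨b, hb, hbD⟩
  refine ⟨e ⟨Φ b', b', rfl⟩, fun t ht => ?_, fun i hi => ?_⟩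
  · have h1 := hg (e ⟨Φ b', b', rfl⟩)
    rw [Equiv.symm_apply_apply] at h1
    exact (congrFun h1 ⟨t, ht⟩).symm
  · have h1 : Φ b' = Φ (g i) := by
      funext t
      exact hi t.1 t.2
    rw [hg i] at h1
    have h2 : (⟨Φ b', b', rfl⟩ : Set.range Φ) = e.symm i := Subtype.ext h1
    rw [h2, Equiv.apply_symm_apply]

theorem IsReps.multiset_eq (h : IsLocalSystem S P Y lev j ψ) {k : ℕ} {D D' : Set (Fin m → ℂ)}
    (hD : IsOpen D) (hDc : Convex ℝ D) (hDS : ∀ t ∈ D, MvPolynomial.aeval t S ≠ 0)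
    (hD' : IsOpen D') (hDc' : Convex ℝ D') (hDS' : ∀ t ∈ D', MvPolynomial.aeval t S ≠ 0) {n n' : ℕ}
    {G : Fin n → Elem m (Ix Y)} {G' : Fin n' → Elem m (Ix Y)} (hG : IsReps S P Y k D G)
    (hG' : IsReps S P Y k D' G') {t : Fin m → ℂ} (ht : t ∈ D) (ht' : t ∈ D') :
    Finset.univ.val.map (fun i => val k (G i) t) = Finset.univ.val.map fun i => val k (G' i) t := by
  classical
  choose σ hσ using h45_match h hD' hDc' hDS' hG hG' ht ht'
  choose τ hτ using h45_match h hD hDc hDS hG' hG ht' ht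
  have hinj : Function.Injective σ := by
    intro i i' hii
    refine h45_uniq h hDc.isPreconnected hG ht ?_
    filter_upwards [hσ i, hσ i'] with s h1 h2
    rw [h1, h2, hii]
  have hsurj : Function.Surjective σ := by
    intro i'
    refine ⟨τ i', ?_⟩
    refine h45_uniq h hDc'.isPreconnected hG' ht' ?_
    filter_upwards [hσ (τ i'), hτ i'] with s h1 h2
    rw [← h1, ← h2]
  let E : Fin n ≃ Fin n' := Equiv.ofBijective σ ⟨hinj, hsurj⟩
  have h1 : (Finset.univ : Finset (Fin n')) = Finset.univ.map E.toEmbedding :=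
    (Finset.map_univ_equiv E).symm
  rw [h1, Finset.map_val, Multiset.map_map]
  refine Multiset.map_congr rfl fun i _ => ?_
  exact (hσ i).self_of_nhds

open Classical in
/-- The values at `t` of all branches of level `k`, with multiplicities. -/
noncomputable def ms (S : MvPolynomial (Fin m) κ) (P : (Fin m → ℂ) → Matrix (Fin r) (Fin r) ℂ)
    (Y : ∀ k : ℕ, CoverData κ (Fin r → ZMod (ℓ ^ k)) U w) (k : ℕ) (t : Fin m → ℂ) :
    Multiset (Vx Y k → ℂ) :=
  if h : ∃ M : Multiset (Vx Y k → ℂ), ∃ (D : Set (Fin m → ℂ)) (n : ℕ) (G : Fin n → Elem m (Ix Y)),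
      IsOpen D ∧ Convex ℝ D ∧ t ∈ D ∧ (∀ t ∈ D, MvPolynomial.aeval t S ≠ 0) ∧ IsReps S P Y k D G ∧
        M = Finset.univ.val.map fun i => val k (G i) t
  then h.choose else 0

theorem ms_eq (h : IsLocalSystem S P Y lev j ψ) {k : ℕ} {D : Set (Fin m → ℂ)} (hD : IsOpen D)
    (hDc : Convex ℝ D) (hDS : ∀ t ∈ D, MvPolynomial.aeval t S ≠ 0) {n : ℕ} {G : Fin n → Elem m (Ix Y)}
    (hG : IsReps S P Y k D G) {t : Fin m → ℂ} (ht : t ∈ D) :
    ms S P Y k t = Finset.univ.val.map fun i => val k (G i) t := by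
  have hex : ∃ M : Multiset (Vx Y k → ℂ), ∃ (D : Set (Fin m → ℂ)) (n : ℕ)
      (G : Fin n → Elem m (Ix Y)), IsOpen D ∧ Convex ℝ D ∧ t ∈ D ∧
        (∀ t ∈ D, MvPolynomial.aeval t S ≠ 0) ∧ IsReps S P Y k D G ∧
        M = Finset.univ.val.map fun i => val k (G i) t :=
    ⟨_, D, n, G, hD, hDc, ht, hDS, hG, rfl⟩
  unfold ms
  rw [dif_pos hex]
  obtain ⟨D', n', G', hD', hDc', ht', hDS', hG', hM⟩ := hex.choose_spec
  rw [hM]
  exact IsReps.multiset_eq h hD' hDc' hDS' hD hDc hDS hG' hG ht' ht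

/-- Every value comes from a reached element over a ball. -/
theorem exists_of_mem_ms (h : IsLocalSystem S P Y lev j ψ) (hne : U.Nonempty) (hw : IsBranchM κ U μ w)
    {k : ℕ} {t : Fin m → ℂ} (ht : MvPolynomial.aeval t S ≠ 0) {p : Vx Y k → ℂ} (hp : p ∈ ms S P Y k t) :
    ∃ b, Reach S (base P Y) b ∧ t ∈ b.U ∧ p = val k b t := by
  unfold ms at hp
  split_ifs at hp with hex
  · obtain ⟨D, n, G, hD, hDc, htD, hDS, hG, hM⟩ := hex.choose_spec
    rw [hM, Multiset.mem_map] at hp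
    obtain ⟨i, _, hi⟩ := hp
    refine ⟨G i, (hG.1 i).1, ?_, hi.symm⟩
    rw [(hG.1 i).2]
    exact htD
  · exact absurd hp (Multiset.notMem_zero p)

end Pool.Agent.Helper79.FY
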