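import Pool.Agent.Helper79.FY.Germs

/-!
# FY-05: the branches have moderate growth

* `norm_aeval_le`: a polynomial at a point of a normed space `X → ℂ`: `‖aeval x p‖ ≤ C (1 + ‖x‖) ^ n` (induction on `p`; see `exists_poly_bound` in `Pool/Agent/Helper79/HG/CountW.lean`).
* `bound_w`: the equation of `IsBranchM` holds for all reached `b` (`reach_rel`), so `‖b.w t‖ ≤ max 1 (∑_l ‖f_l t‖)` (if `‖w‖ ≥ 1` divide by `w ^ (μ - 1)`; `μ = 0` is impossible as `U` is not empty).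
* `bound_q`: the first two.
* `eqn_reach`: the identity `Y.eqn` for all reached `b` (`reach_rel`).
* `bound_y`: put `X = e_i` in `eqn_reach`: `Φ(t, w, e_i, z) = q(t, w) ∏_v (z - y_(v,i))` for all `z`. The left side is a polynomial in `z` with coefficients `φ_l(t, w)`, polynomials in `t, w` (`MvPolynomial.aeval` of `Φ` at `Polynomial.C`, `Polynomial.X`), of degree `d = card`, with leading coefficient `q` (compare as polynomials in `z`,
  `Polynomial.funext`). At `z = y = y_(v,i)`: `q y ^ d = - ∑_(l < d) φ_l y ^ l`. If `‖y‖ ≥ 1` divide by `y ^ (d - 1)`: `‖q y‖ ≤ ∑_l ‖φ_l‖`; if `‖y‖ ≤ 1` then `‖q y‖ ≤ ‖q‖`.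
* `reach_algebraic`: at an algebraic point `t` `b.w t` and `b.y` are algebraic: `b.w t` is a root of a monic polynomial with algebraic coefficients; `y_(v,i)` is a root of `Φ(t, w, e_i, z)`, which is not zero since `q ≠ 0` (`cover`). (As `algebraic_point` in `Pool/Agent/Helper79/HG/RelG.lean`.)
-/

namespace Pool.Agent.Helper79.FY

open Matrix Pool.Agent.Helper79.BB Pool.Agent.Helper79.HH Pool.Agent.Helper79.HG Pool.Agent.Helper64.Per

/-- `F` is bounded by a polynomial in `s`. -/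
private def PB {Z : Type} (s F : Z → ℝ) : Prop := ∃ (C : ℝ) (n : ℕ), 0 ≤ C ∧ ∀ z, F z ≤ C * s z ^ n

private theorem PB.mono {Z : Type} {s F G : Z → ℝ} (h : ∀ z, F z ≤ G z) (hG : PB s G) : PB s F := by
  obtain ⟨C, n, hC, hn⟩ := hG
  exact ⟨C, n, hC, fun z => (h z).trans (hn z)⟩

private theorem PB.add {Z : Type} {s F G : Z → ℝ} (hs : ∀ z, 1 ≤ s z) (hF : PB s F) (hG : PB s G) :
    PB s fun z => F z + G z := by
  obtain ⟨C, n, hC, hn⟩ := hF
  obtain ⟨C', n', hC', hn'⟩ := hG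
  refine ⟨C + C', n + n', by linarith, fun z => ?_⟩
  have h1 : s z ^ n ≤ s z ^ (n + n') := pow_le_pow_right₀ (hs z) (by omega)
  have h2 : s z ^ n' ≤ s z ^ (n + n') := pow_le_pow_right₀ (hs z) (by omega)
  have h3 := mul_le_mul_of_nonneg_left h1 hC
  have h4 := mul_le_mul_of_nonneg_left h2 hC'
  have h5 := hn z
  have h6 := hn' z
  rw [add_mul]
  linarith

private theorem PB.sum {Z ι : Type} {s : Z → ℝ} {F : ι → Z → ℝ} (hs : ∀ z, 1 ≤ s z) (u : Finset ι)
    (h : ∀ i ∈ u, PB s (F i)) : PB s fun z => ∑ i ∈ u, F i z := by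
  classical
  induction u using Finset.induction_on with
  | empty => exact ⟨0, 0, le_rfl, fun z => by simp⟩
  | insert a u ha ih =>
    have h1 := PB.add hs (h a (Finset.mem_insert_self a u))
      (ih fun i hi => h i (Finset.mem_insert_of_mem hi))
    refine PB.mono (fun z => ?_) h1
    rw [Finset.sum_insert ha]

private theorem PB.const {Z : Type} {s : Z → ℝ} {c : ℝ} (hc : 0 ≤ c) : PB s fun _ => c :=
  ⟨c, 0, hc, fun z => by rw [pow_zero, mul_one]⟩

theorem norm_aeval_le {κ : Type} [Field κ] [Algebra κ ℂ] {X : Type} [Fintype X] (p : MvPolynomial X κ) :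
    ∃ (C : ℝ) (n : ℕ), 0 ≤ C ∧ ∀ x : X → ℂ, ‖MvPolynomial.aeval x p‖ ≤ C * (1 + ‖x‖) ^ n := by
  have hs : ∀ x : X → ℂ, 1 ≤ 1 + ‖x‖ := fun x => by linarith [norm_nonneg x]
  change PB (fun x : X → ℂ => 1 + ‖x‖) fun x => ‖MvPolynomial.aeval x p‖
  induction p using MvPolynomial.induction_on with
  | C c =>
    refine PB.mono (fun x => ?_) (PB.const (norm_nonneg (algebraMap κ ℂ c)))
    rw [MvPolynomial.aeval_C]
  | add p q hp hq =>
    refine PB.mono (fun x => ?_) (PB.add hs hp hq)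
    rw [map_add]
    exact norm_add_le _ _
  | mul_X p i hp =>
    obtain ⟨C, n, hC, h⟩ := hp
    refine ⟨C, n + 1, hC, fun x => ?_⟩
    change ‖MvPolynomial.aeval x (p * MvPolynomial.X i)‖ ≤ C * (1 + ‖x‖) ^ (n + 1)
    rw [map_mul, MvPolynomial.aeval_X, norm_mul, pow_succ, ← mul_assoc]
    have h1 := norm_le_pi_norm x i
    have h2 := norm_nonneg x
    refine mul_le_mul (h x) (by linarith) (norm_nonneg _) (by positivity)

/-- The values of a polynomial at analytic functions are analytic. -/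
private theorem analytic_mv {κ : Type} [Field κ] [Algebra κ ℂ] {m : ℕ} {X : Type}
    {D : Set (Fin m → ℂ)} (Q : MvPolynomial X κ) (τ : (Fin m → ℂ) → X → ℂ)
    (hτ : ∀ i, AnalyticOnNhd ℂ (fun t => τ t i) D) :
    AnalyticOnNhd ℂ (fun t => MvPolynomial.aeval (τ t) Q) D := by
  induction Q using MvPolynomial.induction_on with
  | C k =>
    simp only [MvPolynomial.aeval_C]
    exact analyticOnNhd_const
  | add p q hp hq =>
    simp only [map_add]
    exact hp.add hq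
  | mul_X p i hp =>
    simp only [map_mul, MvPolynomial.aeval_X]
    exact hp.mul (hτ i)

private theorem analytic_proj {m : ℕ} {D : Set (Fin m → ℂ)} (i : Fin m) :
    AnalyticOnNhd ℂ (fun t : Fin m → ℂ => t i) D :=
  fun y _ => (ContinuousLinearMap.proj (R := ℂ) (φ := fun _ : Fin m => ℂ) i).analyticAt y

/-- The bound for a root. -/
private theorem root_bound {d : ℕ} (q z : ℂ) (a : Fin d → ℂ) (hd : 0 < d)
    (h : ‖q * z ^ d‖ = ‖∑ l : Fin d, a l * z ^ (l : ℕ)‖) : ‖q * z‖ ≤ ‖q‖ + ∑ l : Fin d, ‖a l‖ := by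
  have h0 : 0 ≤ ∑ l : Fin d, ‖a l‖ := Finset.sum_nonneg fun _ _ => norm_nonneg _
  rcases le_total ‖z‖ 1 with h1 | h1
  · rw [norm_mul]
    nlinarith [norm_nonneg q, norm_nonneg z, mul_le_mul_of_nonneg_left h1 (norm_nonneg q)]
  · obtain ⟨e, rfl⟩ : ∃ e, d = e + 1 := ⟨d - 1, by omega⟩
    have hz : 0 < ‖z‖ := by linarith
    have h2 : ‖q * z‖ * ‖z‖ ^ e ≤ (∑ l : Fin (e + 1), ‖a l‖) * ‖z‖ ^ e := by
      calc ‖q * z‖ * ‖z‖ ^ e = ‖q * z ^ (e + 1)‖ := by
            rw [norm_mul, norm_mul, norm_pow, pow_succ]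
            ring
        _ = ‖∑ l : Fin (e + 1), a l * z ^ (l : ℕ)‖ := h
        _ ≤ ∑ l : Fin (e + 1), ‖a l * z ^ (l : ℕ)‖ := norm_sum_le _ _
        _ ≤ ∑ l : Fin (e + 1), ‖a l‖ * ‖z‖ ^ e := by
            refine Finset.sum_le_sum fun l _ => ?_
            rw [norm_mul, norm_pow]
            exact mul_le_mul_of_nonneg_left (pow_le_pow_right₀ h1 (by have := l.isLt; omega))
              (norm_nonneg _)
        _ = _ := by rw [Finset.sum_mul]
    have h3 := le_of_mul_le_mul_right h2 (pow_pos hz e)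
    linarith [norm_nonneg q]

/-- The form of the cover at the basis vector `e_i`, as a polynomial in the last variable. -/
private noncomputable def phiAt {κ : Type} [Field κ] {m N : ℕ}
    (Φ : MvPolynomial ((Fin m ⊕ Unit) ⊕ (Fin N ⊕ Unit)) κ) (i : Fin N) :
    Polynomial (MvPolynomial (Fin m ⊕ Unit) κ) :=
  MvPolynomial.eval₂ (Polynomial.C.comp MvPolynomial.C)
    (Sum.elim (fun e => Polynomial.C (MvPolynomial.X e))
      (Sum.elim (fun j => if j = i then 1 else 0) fun _ => Polynomial.X)) Φ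

private theorem phiAt_eval {κ : Type} [Field κ] {K : Type} [Field K] [Algebra κ K] {m N : ℕ}
    (Φ : MvPolynomial ((Fin m ⊕ Unit) ⊕ (Fin N ⊕ Unit)) κ) (i : Fin N) (x : Fin m ⊕ Unit → K) (z : K) :
    ((phiAt Φ i).map
      ((MvPolynomial.aeval x : MvPolynomial (Fin m ⊕ Unit) κ →ₐ[κ] K) : _ →+* K)).eval z =
      MvPolynomial.aeval (Sum.elim x (Sum.elim (fun j => if j = i then (1 : K) else 0) fun _ => z)) Φ := by
  rw [Polynomial.eval_map]
  have h1 : ∀ p : Polynomial (MvPolynomial (Fin m ⊕ Unit) κ),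
      p.eval₂ ((MvPolynomial.aeval x : MvPolynomial (Fin m ⊕ Unit) κ →ₐ[κ] K) : _ →+* K) z =
      Polynomial.eval₂RingHom
        ((MvPolynomial.aeval x : MvPolynomial (Fin m ⊕ Unit) κ →ₐ[κ] K) : _ →+* K) z p := fun _ => rfl
  rw [h1, phiAt, MvPolynomial.hom_eval₂, MvPolynomial.aeval_def]
  congr 1
  · refine RingHom.ext fun c => ?_
    change Polynomial.eval₂ _ z (Polynomial.C (MvPolynomial.C c)) = algebraMap κ K c
    rw [Polynomial.eval₂_C]
    change MvPolynomial.aeval x (MvPolynomial.C c) = _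
    rw [MvPolynomial.aeval_C]
  · funext e
    rcases e with e | (e | e)
    · change Polynomial.eval₂ _ z (Polynomial.C (MvPolynomial.X e)) = x e
      rw [Polynomial.eval₂_C]
      change MvPolynomial.aeval x (MvPolynomial.X e) = _
      rw [MvPolynomial.aeval_X]
    · change Polynomial.eval₂ _ z (if e = i then 1 else 0) = if e = i then (1 : K) else 0
      split_ifs
      · exact Polynomial.eval₂_one _ _
      · exact Polynomial.eval₂_zero _ _
    · change Polynomial.eval₂ _ z Polynomial.X = z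
      rw [Polynomial.eval₂_X]

section

variable {κ : Type} [Field κ] [Algebra κ ℂ] {m r ℓ μ : ℕ} [Fact ℓ.Prime] {U : Set (Fin m → ℂ)}
  {w : (Fin m → ℂ) → ℂ} {S : MvPolynomial (Fin m) κ} {P : (Fin m → ℂ) → Matrix (Fin r) (Fin r) ℂ}
  {Y : ∀ k : ℕ, CoverData κ (Fin r → ZMod (ℓ ^ k)) U w} {lev : Fin r → ℤ} {j : ℤ}
  {ψ : Matrix (Fin r) (Fin r) ℤ}

theorem eqn_w (hw : IsBranchM κ U μ w) {f : Fin μ → MvPolynomial (Fin m) κ}
    (hf : ∀ t ∈ U, w t ^ μ = ∑ l : Fin μ, MvPolynomial.aeval t (f l) * w t ^ (l : ℕ))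
    {b : Elem m (Ix Y)} (hb : Reach S (base P Y) b) :
    ∀ t ∈ b.U, b.w t ^ μ = ∑ l : Fin μ, MvPolynomial.aeval t (f l) * b.w t ^ (l : ℕ) := by
  intro t ht
  refine sub_eq_zero.1 (reach_rel (a := base P Y)
    (G := fun t y _ => y ^ μ - ∑ l : Fin μ, MvPolynomial.aeval t (f l) * y ^ (l : ℕ)) ?_ hb ?_ t ht)
  · intro c hc
    refine (hc.2.2.1.pow μ).sub (Finset.analyticOnNhd_fun_sum _ fun l _ => ?_)
    exact (analytic_mv (f l) (fun t => t) analytic_proj).mul (hc.2.2.1.pow _)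
  · intro s hs
    exact sub_eq_zero.2 (hf s hs)

theorem eqn_reach {b : Elem m (Ix Y)} (hb : Reach S (base P Y) b) (k : ℕ) :
    ∀ t ∈ b.U, ∀ (X : Fin (Y k).N → ℂ) (z : ℂ),
      MvPolynomial.aeval (Sum.elim (Sum.elim t fun _ => b.w t) (Sum.elim X fun _ => z)) (Y k).Φ =
        MvPolynomial.aeval (Sum.elim t fun _ => b.w t) (Y k).q *
          ∏ v, (z - ∑ i, X i * b.f (Sum.inr ⟨k, v, i⟩) t) := by
  intro t ht X z
  refine sub_eq_zero.1 (reach_rel (a := base P Y)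
    (G := fun t y g => MvPolynomial.aeval (Sum.elim (Sum.elim t fun _ => y) (Sum.elim X fun _ => z)) (Y k).Φ -
        MvPolynomial.aeval (Sum.elim t fun _ => y) (Y k).q *
          ∏ v, (z - ∑ i, X i * g (Sum.inr ⟨k, v, i⟩))) ?_ hb ?_ t ht)
  · intro c hc
    refine AnalyticOnNhd.sub ?_ (AnalyticOnNhd.mul ?_ ?_)
    · refine analytic_mv (Y k).Φ
        (fun t => Sum.elim (Sum.elim t fun _ => c.w t) (Sum.elim X fun _ => z)) fun e => ?_
      rcases e with (e | e) | (e | e)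
      · exact analytic_proj e
      · exact hc.2.2.1
      · exact analyticOnNhd_const
      · exact analyticOnNhd_const
    · refine analytic_mv (Y k).q (fun t => Sum.elim t fun _ => c.w t) fun e => ?_
      rcases e with e | e
      · exact analytic_proj e
      · exact hc.2.2.1
    · refine Finset.analyticOnNhd_fun_prod _ fun v _ => ?_
      refine analyticOnNhd_const.sub (Finset.analyticOnNhd_fun_sum _ fun i _ => ?_)
      exact analyticOnNhd_const.mul (hc.2.2.2 _)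
  · intro s hs
    refine sub_eq_zero.2 ?_
    have h1 := (Y k).eqn s hs X z
    simp only [base_inr]
    exact h1

theorem bound_w (h : IsLocalSystem S P Y lev j ψ) (hne : U.Nonempty) (hw : IsBranchM κ U μ w) :
    ∃ (C : ℝ) (n : ℕ), 0 ≤ C ∧ ∀ b, Reach S (base P Y) b → ∀ t ∈ b.U, ‖b.w t‖ ≤ C * (1 + ‖t‖) ^ n := by
  obtain ⟨f, hf⟩ := hw.eqn
  have hμ : 0 < μ := by
    rcases Nat.eq_zero_or_pos μ with h0 | h0
    · subst h0
      obtain ⟨t, ht⟩ := hne
      have h1 := hf t ht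
      rw [pow_zero, Finset.univ_eq_empty, Finset.sum_empty] at h1
      exact absurd h1 one_ne_zero
    · exact h0
  have hs : ∀ x : Fin m → ℂ, 1 ≤ 1 + ‖x‖ := fun x => by linarith [norm_nonneg x]
  have h1 : PB (fun x : Fin m → ℂ => 1 + ‖x‖)
      (fun x => 1 + ∑ l : Fin μ, ‖MvPolynomial.aeval x (f l)‖) :=
    PB.add hs (PB.const zero_le_one) (PB.sum hs _ fun l _ => norm_aeval_le (f l))
  obtain ⟨C, n, hC, hn⟩ := h1
  refine ⟨C, n, hC, fun b hb t ht => ?_⟩
  refine le_trans ?_ (hn t)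
  have h2 := root_bound 1 (b.w t) (fun l => MvPolynomial.aeval t (f l)) hμ (by
    rw [one_mul, eqn_w hw hf hb t ht])
  rwa [one_mul, norm_one] at h2

theorem bound_q (h : IsLocalSystem S P Y lev j ψ) (hne : U.Nonempty) (hw : IsBranchM κ U μ w)
    (p : MvPolynomial (Fin m ⊕ Unit) κ) :
    ∃ (C : ℝ) (n : ℕ), 0 ≤ C ∧ ∀ b, Reach S (base P Y) b → ∀ t ∈ b.U,
      ‖MvPolynomial.aeval (Sum.elim t fun _ => b.w t) p‖ ≤ C * (1 + ‖t‖) ^ n := by
  obtain ⟨C, n, hC, hn⟩ := norm_aeval_le p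
  obtain ⟨C', n', hC', hn'⟩ := bound_w h hne hw
  refine ⟨C * (1 + C') ^ n, (n' + 1) * n, by positivity, fun b hb t ht => ?_⟩
  have h0 : 1 ≤ 1 + ‖t‖ := by linarith [norm_nonneg t]
  have h1 : ‖(Sum.elim t fun _ => b.w t : Fin m ⊕ Unit → ℂ)‖ ≤ ‖t‖ + ‖b.w t‖ := by
    refine (pi_norm_le_iff_of_nonneg (by positivity)).2 fun e => ?_
    rcases e with e | e
    · have h2 := norm_le_pi_norm t e
      change ‖t e‖ ≤ _
      linarith [norm_nonneg (b.w t)]
    · change ‖b.w t‖ ≤ _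
      linarith [norm_nonneg t]
  have h2 : 1 + ‖(Sum.elim t fun _ => b.w t : Fin m ⊕ Unit → ℂ)‖ ≤
      (1 + C') * (1 + ‖t‖) ^ (n' + 1) := by
    have h3 := hn' b hb t ht
    have h4 : (1 + ‖t‖) ^ n' ≤ (1 + ‖t‖) ^ (n' + 1) := pow_le_pow_right₀ h0 (by omega)
    have h5 : 1 + ‖t‖ ≤ (1 + ‖t‖) ^ (n' + 1) := by
      calc 1 + ‖t‖ = (1 + ‖t‖) ^ 1 := (pow_one _).symm
        _ ≤ _ := pow_le_pow_right₀ h0 (by omega)
    have h6 := mul_le_mul_of_nonneg_left h4 hC'
    rw [add_mul, one_mul]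
    linarith
  refine (hn _).trans ?_
  rw [mul_assoc]
  refine mul_le_mul_of_nonneg_left ?_ hC
  rw [pow_mul, ← mul_pow]
  exact pow_le_pow_left₀ (by positivity) h2 n

theorem bound_y (h : IsLocalSystem S P Y lev j ψ) (hne : U.Nonempty) (hw : IsBranchM κ U μ w) (k : ℕ) :
    ∃ (C : ℝ) (n : ℕ), 0 ≤ C ∧ ∀ b, Reach S (base P Y) b → ∀ t ∈ b.U, ∀ v i,
      ‖MvPolynomial.aeval (Sum.elim t fun _ => b.w t) (Y k).q * b.f (Sum.inr ⟨k, v, i⟩) t‖ ≤
        C * (1 + ‖t‖) ^ n := by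
  let Z : Type := {e : Elem m (Ix Y) × (Fin m → ℂ) // Reach S (base P Y) e.1 ∧ e.2 ∈ e.1.U}
  let s : Z → ℝ := fun z => 1 + ‖z.1.2‖
  have hs : ∀ z, 1 ≤ s z := fun z => by
    change 1 ≤ 1 + ‖z.1.2‖
    linarith [norm_nonneg z.1.2]
  let x : Z → Fin m ⊕ Unit → ℂ := fun z => Sum.elim z.1.2 fun _ => z.1.1.w z.1.2
  have hp : ∀ p : MvPolynomial (Fin m ⊕ Unit) κ, PB s fun z => ‖MvPolynomial.aeval (x z) p‖ := by
    intro p
    obtain ⟨C, n, hC, hn⟩ := bound_q h hne hw p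
    exact ⟨C, n, hC, fun z => hn z.1.1 z.2.1 z.1.2 z.2.2⟩
  let d : ℕ := Fintype.card (Fin r → ZMod (ℓ ^ k))
  have hd : 0 < d := Fintype.card_pos
  have hB : PB s fun z => ∑ i : Fin (Y k).N, (‖MvPolynomial.aeval (x z) (Y k).q‖ +
      ∑ l : Fin d, ‖MvPolynomial.aeval (x z) ((phiAt (Y k).Φ i).coeff (l : ℕ))‖) :=
    PB.sum hs _ fun i _ => PB.add hs (hp _) (PB.sum hs _ fun l _ => hp _)
  obtain ⟨C, n, hC, hn⟩ := hB
  refine ⟨C, n, hC, fun b hb t ht v i => ?_⟩
  let z₀ : Z := ⟨(b, t), hb, ht⟩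
  refine le_trans ?_ (hn z₀)
  have hone : ‖MvPolynomial.aeval (x z₀) (Y k).q‖ +
      ∑ l : Fin d, ‖MvPolynomial.aeval (x z₀) ((phiAt (Y k).Φ i).coeff (l : ℕ))‖ ≤
      ∑ i : Fin (Y k).N, (‖MvPolynomial.aeval (x z₀) (Y k).q‖ +
      ∑ l : Fin d, ‖MvPolynomial.aeval (x z₀) ((phiAt (Y k).Φ i).coeff (l : ℕ))‖) := by
    refine Finset.single_le_sum (f := fun i => ‖MvPolynomial.aeval (x z₀) (Y k).q‖ +
      ∑ l : Fin d, ‖MvPolynomial.aeval (x z₀) ((phiAt (Y k).Φ i).coeff (l : ℕ))‖)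
      (fun j _ => ?_) (Finset.mem_univ i)
    exact add_nonneg (norm_nonneg _) (Finset.sum_nonneg fun _ _ => norm_nonneg _)
  refine le_trans ?_ hone
  set qv : ℂ := MvPolynomial.aeval (x z₀) (Y k).q with hqv
  set y : (Fin r → ZMod (ℓ ^ k)) → ℂ := fun v => b.f (Sum.inr ⟨k, v, i⟩) t with hy
  let φ : MvPolynomial (Fin m ⊕ Unit) κ →+* ℂ :=
    ((MvPolynomial.aeval (x z₀) : MvPolynomial (Fin m ⊕ Unit) κ →ₐ[κ] ℂ) : _ →+* ℂ)
  have heq : (phiAt (Y k).Φ i).map φ = Polynomial.C qv * ∏ v, (Polynomial.X - Polynomial.C (y v)) := by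
    refine Polynomial.funext fun z => ?_
    rw [phiAt_eval (Y k).Φ i (x z₀) z]
    have h1 := eqn_reach hb k t ht (fun j => if j = i then (1 : ℂ) else 0) z
    have h2 : ∀ v, ∑ j, (if j = i then (1 : ℂ) else 0) * b.f (Sum.inr ⟨k, v, j⟩) t = y v := by
      intro v
      simp only [ite_mul, one_mul, zero_mul, Finset.sum_ite_eq', Finset.mem_univ, if_true, hy]
    simp only [h2] at h1
    rw [Polynomial.eval_mul, Polynomial.eval_C, Polynomial.eval_prod]
    simp only [Polynomial.eval_sub, Polynomial.eval_X, Polynomial.eval_C]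
    exact h1
  have hmon : (∏ v, (Polynomial.X - Polynomial.C (y v))).Monic := Polynomial.monic_prod_X_sub_C _ _
  have hdeg : (∏ v, (Polynomial.X - Polynomial.C (y v))).natDegree = d := by
    rw [Polynomial.natDegree_finsetProd_X_sub_C_eq_card]
    rfl
  have hroot : ((phiAt (Y k).Φ i).map φ).eval (y v) = 0 := by
    rw [heq, Polynomial.eval_mul, Polynomial.eval_prod,
      Finset.prod_eq_zero (Finset.mem_univ v) (by simp), mul_zero]
  have hlt : ((phiAt (Y k).Φ i).map φ).natDegree < d + 1 := by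
    rw [heq]
    refine lt_of_le_of_lt (Polynomial.natDegree_C_mul_le _ _) ?_
    rw [hdeg]
    exact Nat.lt_succ_self d
  have hlead : ((phiAt (Y k).Φ i).map φ).coeff d = qv := by
    rw [heq, Polynomial.coeff_C_mul, ← hdeg, hmon.coeff_natDegree, mul_one]
  rw [Polynomial.eval_eq_sum_range' hlt, Finset.sum_range_succ, hlead, Finset.sum_range] at hroot
  have hfin : qv * y v ^ d = -∑ l : Fin d, ((phiAt (Y k).Φ i).map φ).coeff (l : ℕ) * y v ^ (l : ℕ) :=
    eq_neg_of_add_eq_zero_right hroot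
  have h3 := root_bound qv (y v) (fun l => ((phiAt (Y k).Φ i).map φ).coeff (l : ℕ)) hd (by
    rw [hfin, norm_neg])
  simp only [Polynomial.coeff_map] at h3
  exact h3

end

section

private noncomputable def toQ (z : ℂ) (hz : IsAlgebraic ℚ z) : Qbar := ⟨z, mem_algebraicClosure_iff.2 hz⟩

private theorem alg_of_root (p : Polynomial Qbar) (hp : p ≠ 0) (z : ℂ) (h : Polynomial.aeval z p = 0) :
    IsAlgebraic ℚ z := by
  have h0 : Algebra.IsAlgebraic ℚ Qbar := (algebraicClosure.isAlgClosure ℚ ℂ).isAlgebraic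
  have h1 : IsAlgebraic Qbar z := ⟨p, hp, h⟩
  exact h1.restrictScalars ℚ

private theorem aeval_coe {ι : Type} {κ : IntermediateField ℚ Qbar} (τ : ι → Qbar)
    (f : MvPolynomial ι κ) :
    MvPolynomial.aeval (fun i => ((τ i : Qbar) : ℂ)) f = ((MvPolynomial.aeval τ f : Qbar) : ℂ) :=
  MvPolynomial.aeval_algebraMap_apply ℂ τ f

private theorem alg_w {κ : IntermediateField ℚ Qbar} {m μ : ℕ} (f : Fin μ → MvPolynomial (Fin m) κ)
    {t : Fin m → ℂ} (ht : ∀ i, IsAlgebraic ℚ (t i)) {z : ℂ}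
    (hz : z ^ μ = ∑ l : Fin μ, MvPolynomial.aeval t (f l) * z ^ (l : ℕ)) : IsAlgebraic ℚ z := by
  let τ : Fin m → Qbar := fun i => toQ (t i) (ht i)
  let c : Fin μ → Qbar := fun l => MvPolynomial.aeval τ (f l)
  have hc : ∀ l, ((c l : Qbar) : ℂ) = MvPolynomial.aeval t (f l) := fun l =>
    (aeval_coe τ (f l)).symm
  refine alg_of_root (Polynomial.X ^ μ - ∑ l : Fin μ, Polynomial.C (c l) * Polynomial.X ^ (l : ℕ))
    ?_ z ?_
  · intro h0
    have h1 : (Polynomial.X ^ μ - ∑ l : Fin μ, Polynomial.C (c l) * Polynomial.X ^ (l : ℕ)).coeff μ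
        = 1 := by
      rw [Polynomial.coeff_sub, Polynomial.coeff_X_pow, if_pos rfl, Polynomial.finsetSum_coeff,
        Finset.sum_eq_zero, sub_zero]
      intro l _
      rw [Polynomial.coeff_C_mul_X_pow, if_neg]
      exact ne_of_gt l.isLt
    rw [h0, Polynomial.coeff_zero] at h1
    exact zero_ne_one h1
  · rw [map_sub, map_pow, Polynomial.aeval_X, map_sum, hz, sub_eq_zero]
    refine Finset.sum_congr rfl fun l _ => ?_
    rw [map_mul, map_pow, Polynomial.aeval_X, Polynomial.aeval_C, ← hc]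
    rfl

private theorem alg_y {κ : IntermediateField ℚ Qbar} {m N : ℕ}
    (Φ : MvPolynomial ((Fin m ⊕ Unit) ⊕ (Fin N ⊕ Unit)) κ) (i : Fin N) (x : Fin m ⊕ Unit → ℂ)
    (hx : ∀ e, IsAlgebraic ℚ (x e)) {A : Type} [Fintype A] (qv : ℂ) (hq : qv ≠ 0) (y : A → ℂ)
    (hΦ : ∀ z : ℂ, MvPolynomial.aeval
      (Sum.elim x (Sum.elim (fun j => if j = i then (1 : ℂ) else 0) fun _ => z)) Φ =
        qv * ∏ a, (z - y a)) (a : A) : IsAlgebraic ℚ (y a) := by
  classical
  let τ : Fin m ⊕ Unit → Qbar := fun e => toQ (x e) (hx e)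
  let p : Polynomial Qbar := (phiAt Φ i).map
    (MvPolynomial.aeval τ : MvPolynomial (Fin m ⊕ Unit) κ →ₐ[κ] Qbar).toRingHom
  have hp : ∀ z : ℂ, Polynomial.aeval z p = qv * ∏ a, (z - y a) := by
    intro z
    rw [← hΦ z, ← phiAt_eval Φ i x z]
    have h1 : ((MvPolynomial.aeval x : MvPolynomial (Fin m ⊕ Unit) κ →ₐ[κ] ℂ) : _ →+* ℂ) =
        (algebraMap Qbar ℂ).comp
          (MvPolynomial.aeval τ : MvPolynomial (Fin m ⊕ Unit) κ →ₐ[κ] Qbar).toRingHom := by
      refine RingHom.ext fun f => ?_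
      exact aeval_coe τ f
    rw [h1, ← Polynomial.map_map, Polynomial.eval_map, Polynomial.aeval_def]
  refine alg_of_root p ?_ (y a) ?_
  · intro h0
    obtain ⟨z, hz⟩ : ∃ z : ℂ, ∀ b, z ≠ y b := by
      obtain ⟨z, hz⟩ := Infinite.exists_notMem_finset (Finset.univ.image y)
      exact ⟨z, fun b hb => hz (hb ▸ Finset.mem_image_of_mem _ (Finset.mem_univ b))⟩
    have h1 := hp z
    rw [h0, map_zero] at h1
    exact mul_ne_zero hq (Finset.prod_ne_zero_iff.2 fun b _ => sub_ne_zero.2 (hz b)) h1.symm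
  · rw [hp, Finset.prod_eq_zero (Finset.mem_univ a) (sub_self _), mul_zero]

variable {κ : IntermediateField ℚ Qbar} {m r ℓ μ : ℕ} [Fact ℓ.Prime] {U : Set (Fin m → ℂ)}
  {w : (Fin m → ℂ) → ℂ} {S : MvPolynomial (Fin m) κ} {P : (Fin m → ℂ) → Matrix (Fin r) (Fin r) ℂ}
  {Y : ∀ k : ℕ, CoverData κ (Fin r → ZMod (ℓ ^ k)) U w} {lev : Fin r → ℤ} {j : ℤ}
  {ψ : Matrix (Fin r) (Fin r) ℤ}

theorem reach_algebraic (h : IsLocalSystem S P Y lev j ψ) (hne : U.Nonempty) (hw : IsBranchM κ U μ w)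
    {b : Elem m (Ix Y)} (hb : Reach S (base P Y) b) {t : Fin m → ℂ} (ht : t ∈ b.U)
    (halg : ∀ i, IsAlgebraic ℚ (t i)) (k : ℕ) (x : Vx Y k) : IsAlgebraic ℚ (val k b t x) := by
  obtain ⟨f, hf⟩ := hw.eqn
  have hwt : IsAlgebraic ℚ (b.w t) := alg_w f halg (eqn_w hw hf hb t ht)
  rcases x with x | ⟨v, i⟩
  · exact hwt
  · refine alg_y (Y k).Φ i (Sum.elim t fun _ => b.w t) ?_
      (MvPolynomial.aeval (Sum.elim t fun _ => b.w t) (Y k).q) (h.cover b hb t ht k).1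
      (fun v => b.f (Sum.inr ⟨k, v, i⟩) t) (fun z => ?_) v
    · intro e
      rcases e with e | e
      · exact halg e
      · exact hwt
    · have h1 := eqn_reach hb k t ht (fun j => if j = i then (1 : ℂ) else 0) z
      simp only [ite_mul, one_mul, zero_mul, Finset.sum_ite_eq', Finset.mem_univ, if_true] at h1
      exact h1

end

end Pool.Agent.Helper79.FY
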