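import Pool.Agent.Helper79.FY.Chain
import Pool.Agent.Helper79.FX.Chain

/-!
# FY-03: continuations of the period matrix are continuations of the whole local system

* `lift`: induction on the chain of `FX.Reach`. First element: a ball in `U` (`restrict`). Step `b → b'` with `O`, and `b'.U` connected: let `W` be the set of the points `t ∈ b'.U` for which the conclusion holds (for `b'`). It is open
  (the same `D`, `c` for the points of `D`). It is not empty: a point `t ∈ O`, the induction hypothesis for `b` at `t`, `restrict` to a ball in `D ∩ O`. It is closed in `b'.U`: let `t ∈ b'.U` be a limit of points of `W`, `D ⊆ b'.U` a ball about `t`, `t₂ ∈ W ∩ D` with `D₂`, `c₂`: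
  `reach_ext` from `c₂` at `t₂` to `D` gives `c`, and `c.w = b'.w`, `pmat c = b'.P` near `t₂`, so on `D` (identity theorem, `b'` is analytic). So `W = b'.U` (`IsPreconnected.subset_of_closure_inter_subset` or `isPreconnected_iff_subset_of_disjoint`).
* `vhs`: `S₁ = S.map (algebraMap κ ℂ)`, `MvPolynomial.eval t S₁ = MvPolynomial.aeval t S`. `ext`: `lift` at `t`, `reach_ext` to `D`, take `c.w` and `pmat c`. `int`: a point `t` of `b.U` (if `b.U` is empty take `γ = 1`), `lift` for `b` and `c` at `t`, `restrict` both to a ball in the intersection of the two sets,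
  `int`; the identities hold on the ball, so on `b.U` by the identity theorem. `det`, `pol`, `trans`: `lift` (the derivative `pd` only depends on the function near `t`).
* `mem_MG_of_MM`: `γ ∈ FX.MM`, so `FX.Reach S₁ a (rmul a (zc γ))`, `a = ⟨U, w, P⟩`; `lift` at a point `t ∈ U`: `c` reached over `D ∋ t`, `D ⊆ U`, `c.w = w`, `pmat c = P γ` on `D`. `int` for `c` and the restriction of the base to `D`:
  `γ' ∈ MG` (`mem_MG`) with `P γ = pmat c = P γ'`, so `γ = γ'` (`P t` is invertible, `GL` over `ℤ` embeds in the matrices over `ℂ`).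
* `mem_MM_of_MG`: forget the `y` (`Relation.ReflTransGen.lift`, as `mono_of_monoL` in `Pool/Agent/Helper79/HG/Mon.lean`); `pmat (gact γ b) = pmat b * γ`.
-/

namespace Pool.Agent.Helper79.FY

open Matrix Pool.Agent.Helper79.BB Pool.Agent.Helper79.HH Pool.Agent.Helper79.HG Pool.Agent.Helper64.Per

variable {κ : Type} [Field κ] [Algebra κ ℂ] {m r ℓ : ℕ} [Fact ℓ.Prime] {U : Set (Fin m → ℂ)}
  {w : (Fin m → ℂ) → ℂ} {S : MvPolynomial (Fin m) κ} {P : (Fin m → ℂ) → Matrix (Fin r) (Fin r) ℂ}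
  {Y : ∀ k : ℕ, CoverData κ (Fin r → ZMod (ℓ ^ k)) U w} {lev : Fin r → ℤ} {j : ℤ}
  {ψ : Matrix (Fin r) (Fin r) ℤ}

omit [Fact ℓ.Prime] in
private theorem h45_eval (S : MvPolynomial (Fin m) κ) (t : Fin m → ℂ) :
    MvPolynomial.eval t (S.map (algebraMap κ ℂ)) = MvPolynomial.aeval t S := by
  rw [MvPolynomial.eval_map, MvPolynomial.aeval_def]

/-- The identity theorem for an element with the functions of a local system and one with a period matrix. -/
private theorem h45_ident {c : Elem m (Ix Y)} {b : Element m (Fin r)} {D : Set (Fin m → ℂ)}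
    (hD : IsPreconnected D) (hc1 : AnalyticOnNhd ℂ c.w D) (hc2 : ∀ i, AnalyticOnNhd ℂ (c.f i) D)
    (hb1 : AnalyticOnNhd ℂ b.w D) (hb2 : ∀ i k, AnalyticOnNhd ℂ (fun t => b.P t i k) D)
    {t : Fin m → ℂ} (ht : t ∈ D) (h : ∀ᶠ s in nhds t, c.w s = b.w s ∧ pmat c s = b.P s) :
    ∀ s ∈ D, c.w s = b.w s ∧ pmat c s = b.P s := by
  have h1 : Set.EqOn c.w b.w D :=
    hc1.eqOn_of_preconnected_of_eventuallyEq hb1 hD ht (h.mono fun s hs => hs.1)
  have h2 : ∀ x y, Set.EqOn (c.f (Sum.inl (x, y))) (fun t => b.P t x y) D := fun x y =>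
    (hc2 _).eqOn_of_preconnected_of_eventuallyEq (hb2 x y) hD ht
      (h.mono fun s hs => congrFun (congrFun hs.2 x) y)
  exact fun s hs => ⟨h1 hs, by
    ext x y
    exact h2 x y hs⟩

/-- The element with the period matrix only. -/
private def h45_fg (b : Elem m (Ix Y)) : Element m (Fin r) := ⟨b.U, b.w, pmat b⟩

private theorem h45_fg_analytic {b : Elem m (Ix Y)} (hb : b.IsAnalytic) : (h45_fg b).IsAnalytic :=
  ⟨hb.1, hb.2.1, hb.2.2.1, fun _ _ => hb.2.2.2 _⟩

private theorem h45_fg_reach {a b : Elem m (Ix Y)} (h : Reach S a b) :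
    FX.Reach (S.map (algebraMap κ ℂ)) (h45_fg a) (h45_fg b) := by
  induction h with
  | refl => exact Relation.ReflTransGen.refl
  | @tail b c _ h2 ih =>
    obtain ⟨⟨hb, hc, O, hO, hO1, hOa, hOb, ht⟩, hS⟩ := h2
    refine Relation.ReflTransGen.tail ih ⟨⟨h45_fg_analytic hb, h45_fg_analytic hc, O, hO, hO1,
      hOa, hOb, fun t htO => ⟨(ht t htO).1, ?_⟩⟩, fun t ht => ?_⟩
    · ext x y
      exact (ht t htO).2 _
    · rw [h45_eval]
      exact hS t ht

private theorem h45_fg_base (P : (Fin m → ℂ) → Matrix (Fin r) (Fin r) ℂ)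
    (Y : ∀ k : ℕ, CoverData κ (Fin r → ZMod (ℓ ^ k)) U w) :
    h45_fg (base P Y) = ⟨U, w, P⟩ := by
  unfold h45_fg
  rw [pmat_base]
  rfl

theorem lift (h : IsLocalSystem S P Y lev j ψ) {b : Element m (Fin r)}
    (hb : FX.Reach (S.map (algebraMap κ ℂ)) ⟨U, w, P⟩ b) {t : Fin m → ℂ} (ht : t ∈ b.U) :
    ∃ D : Set (Fin m → ℂ), IsOpen D ∧ Convex ℝ D ∧ t ∈ D ∧ D ⊆ b.U ∧
      ∃ c : Elem m (Ix Y), Reach S (base P Y) c ∧ c.U = D ∧ ∀ s ∈ D, c.w s = b.w s ∧ pmat c s = b.P s := by
  induction hb generalizing t with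
  | refl =>
    obtain ⟨ε, hε, hball⟩ := Metric.isOpen_iff.1 h.analytic.1 t ht
    refine ⟨Metric.ball t ε, Metric.isOpen_ball, convex_ball _ _, Metric.mem_ball_self hε, hball,
      ⟨Metric.ball t ε, (base P Y).w, (base P Y).f⟩, ?_, rfl, fun s _ => ⟨rfl, ?_⟩⟩
    · exact restrict h.dom h.analytic Relation.ReflTransGen.refl Metric.isOpen_ball
        (convex_ball t ε).isPreconnected ⟨t, Metric.mem_ball_self hε⟩ hball
    · exact congrFun (pmat_base (P := P) (Y := Y)) s
  | @tail b b' _ hbb' ih =>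
    obtain ⟨⟨hb, hb', O, hO, ⟨x, hx⟩, hOb, hOb', heq⟩, hS⟩ := hbb'
    let W : Set (Fin m → ℂ) := {t | ∃ D : Set (Fin m → ℂ), IsOpen D ∧ Convex ℝ D ∧ t ∈ D ∧
      D ⊆ b'.U ∧ ∃ c : Elem m (Ix Y), Reach S (base P Y) c ∧ c.U = D ∧
        ∀ s ∈ D, c.w s = b'.w s ∧ pmat c s = b'.P s}
    have hWo : IsOpen W := by
      rw [isOpen_iff_mem_nhds]
      rintro t ⟨D, hD, hDc, htD, hDb, c, hc, hcD, hcs⟩
      filter_upwards [hD.mem_nhds htD] with t' ht'
      exact ⟨D, hD, hDc, ht', hDb, c, hc, hcD, hcs⟩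
    have hWne : (b'.U ∩ W).Nonempty := by
      refine ⟨x, hOb' hx, ?_⟩
      obtain ⟨D, hD, hDc, htD, hDb, c, hc, hcD, hcs⟩ := ih (hOb hx)
      obtain ⟨ε, hε, hball⟩ := Metric.isOpen_iff.1 (hD.inter hO) x ⟨htD, hx⟩
      have hcan := reach_analytic h.analytic hc
      refine ⟨Metric.ball x ε, Metric.isOpen_ball, convex_ball _ _, Metric.mem_ball_self hε,
        fun s hs => hOb' (hball hs).2, ⟨Metric.ball x ε, c.w, c.f⟩, ?_, rfl, fun s hs => ?_⟩
      · refine restrict h.dom h.analytic hc Metric.isOpen_ball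
          (convex_ball x ε).isPreconnected ⟨x, Metric.mem_ball_self hε⟩ ?_
        rw [hcD]
        exact fun s hs => (hball hs).1
      · obtain ⟨h1, h2⟩ := hcs s (hball hs).1
        obtain ⟨h3, h4⟩ := heq s (hball hs).2
        exact ⟨h1.trans h3, h2.trans h4⟩
    have hWc : closure W ∩ b'.U ⊆ W := by
      rintro t ⟨htW, htU⟩
      obtain ⟨ε, hε, hball⟩ := Metric.isOpen_iff.1 hb'.1 t htU
      obtain ⟨t₂, ht₂, D₂, hD₂, hD₂c, ht₂D, hD₂b, c₂, hc₂, hc₂D, hc₂s⟩ :=
        mem_closure_iff.1 htW _ Metric.isOpen_ball (Metric.mem_ball_self hε)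
      have hDS : ∀ s ∈ Metric.ball t ε, MvPolynomial.aeval s S ≠ 0 := by
        intro s hs
        rw [← h45_eval]
        exact hS s (hball hs)
      obtain ⟨c, hc, hcD, hcs⟩ := h.reach_ext hc₂ (D := Metric.ball t ε) Metric.isOpen_ball
        (convex_ball _ _) hDS (t := t₂) (by rw [hc₂D]; exact ht₂D) ht₂
      have hcan := reach_analytic h.analytic hc
      refine ⟨Metric.ball t ε, Metric.isOpen_ball, convex_ball _ _, Metric.mem_ball_self hε,
        hball, c, hc, hcD, ?_⟩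
      refine h45_ident (convex_ball t ε).isPreconnected ?_ ?_ (hb'.2.2.1.mono hball)
        (fun i k => (hb'.2.2.2 i k).mono hball) ht₂ ?_
      · rw [← hcD]
        exact hcan.2.2.1
      · rw [← hcD]
        exact hcan.2.2.2
      · filter_upwards [hcs, hD₂.mem_nhds ht₂D] with s h1 h2
        obtain ⟨h3, h4⟩ := hc₂s s h2
        refine ⟨h1.1.symm.trans h3, ?_⟩
        rw [← h4]
        ext x y
        exact (h1.2 _).symm
    exact hb'.2.1.subset_of_closure_inter_subset hWo hWne hWc ht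

theorem IsLocalSystem.vhs (h : IsLocalSystem S P Y lev j ψ) :
    FX.IsVHS (S.map (algebraMap κ ℂ)) ⟨U, w, P⟩ lev j (ψ.map (Int.cast : ℤ → ℚ)) := by
  have hinj : Function.Injective (MvPolynomial.map (σ := Fin m) (algebraMap κ ℂ)) :=
    MvPolynomial.map_injective _ (algebraMap κ ℂ).injective
  refine ⟨?_, ?_, ?_, ?_, ?_, ?_, ?_, ?_⟩
  · intro h0
    exact h.ne (hinj (by rw [h0, map_zero]))
  · rw [← h45_fg_base P Y]
    exact h45_fg_analytic h.analytic
  · intro t ht
    rw [h45_eval]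
    exact h.dom t ht
  · intro b hb D hD hDc hDS t ht
    obtain ⟨D₁, hD₁, hD₁c, htD₁, hD₁b, c₁, hc₁, hc₁D, hc₁s⟩ := lift h hb ht.1
    have hDS' : ∀ s ∈ D, MvPolynomial.aeval s S ≠ 0 := by
      intro s hs
      rw [← h45_eval]
      exact hDS s hs
    obtain ⟨c, hc, hcD, hcs⟩ := h.reach_ext hc₁ hD hDc hDS' (t := t) (by rw [hc₁D]; exact htD₁) ht.2
    have hcan := reach_analytic h.analytic hc
    refine ⟨c.w, pmat c, ?_, ?_⟩
    · have h1 := h45_fg_analytic hcan
      unfold h45_fg at h1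
      rw [hcD] at h1
      exact h1
    · filter_upwards [hcs, hD₁.mem_nhds htD₁] with s h1 h2
      obtain ⟨h3, h4⟩ := hc₁s s h2
      refine ⟨h3.symm.trans h1.1, ?_⟩
      rw [← h4]
      ext x y
      exact h1.2 _
  · intro b c hb hc hU hw
    have hcast : ∀ γ : Matrix (Fin r) (Fin r) ℤ, γᵀ * ψ * γ = ψ →
        (γ.map (Int.cast : ℤ → ℚ))ᵀ * ψ.map (Int.cast : ℤ → ℚ) * γ.map (Int.cast : ℤ → ℚ) =
          ψ.map (Int.cast : ℤ → ℚ) := by
      intro γ hγ
      have h1 : ∀ A B : Matrix (Fin r) (Fin r) ℤ, (A * B).map (Int.cast : ℤ → ℚ) =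
          A.map (Int.cast : ℤ → ℚ) * B.map (Int.cast : ℤ → ℚ) := fun A B =>
        Matrix.map_mul (f := Int.castRingHom ℚ)
      conv_rhs => rw [← hγ]
      rw [h1, h1, Matrix.transpose_map]
    rcases b.U.eq_empty_or_nonempty with hemp | ⟨t, ht⟩
    · refine ⟨1, ?_, fun t ht => ?_⟩
      · rw [Units.val_one]
        exact hcast 1 (by rw [Matrix.transpose_one, Matrix.one_mul, Matrix.mul_one])
      · rw [hemp] at ht
        exact absurd ht (Set.notMem_empty t)
    · obtain ⟨D₁, hD₁, hD₁c, htD₁, hD₁b, c₁, hc₁, hc₁D, hc₁s⟩ := lift h hb ht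
      obtain ⟨D₂, hD₂, hD₂c, htD₂, hD₂b, c₂, hc₂, hc₂D, hc₂s⟩ := lift h hc (hU ▸ ht)
      obtain ⟨ε, hε, hball⟩ := Metric.isOpen_iff.1 (hD₁.inter hD₂) t ⟨htD₁, htD₂⟩
      have hr₁ : Reach S (base P Y) ⟨Metric.ball t ε, c₁.w, c₁.f⟩ := by
        refine restrict h.dom h.analytic hc₁ Metric.isOpen_ball
          (convex_ball t ε).isPreconnected ⟨t, Metric.mem_ball_self hε⟩ ?_
        rw [hc₁D]
        exact fun s hs => (hball hs).1
      have hr₂ : Reach S (base P Y) ⟨Metric.ball t ε, c₂.w, c₂.f⟩ := by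
        refine restrict h.dom h.analytic hc₂ Metric.isOpen_ball
          (convex_ball t ε).isPreconnected ⟨t, Metric.mem_ball_self hε⟩ ?_
        rw [hc₂D]
        exact fun s hs => (hball hs).2
      obtain ⟨γ, hγ, hγs⟩ := h.int _ _ hr₁ hr₂ rfl (by
        intro s hs
        change c₁.w s = c₂.w s
        rw [(hc₁s s (hball hs).1).1, (hc₂s s (hball hs).2).1]
        exact hw s (hD₁b (hball hs).1))
      refine ⟨γ, hcast _ hγ, ?_⟩
      have hban : b.IsAnalytic := by
        rcases Relation.ReflTransGen.cases_tail hb with h1 | ⟨c, -, h1⟩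
        · rw [h1, ← h45_fg_base P Y]
          exact h45_fg_analytic h.analytic
        · exact h1.1.2.1
      have hcan : c.IsAnalytic := by
        rcases Relation.ReflTransGen.cases_tail hc with h1 | ⟨c, -, h1⟩
        · rw [h1, ← h45_fg_base P Y]
          exact h45_fg_analytic h.analytic
        · exact h1.1.2.1
      have hent : ∀ x y, Set.EqOn (fun s => c.P s x y)
          (fun s => (b.P s * (γ : Matrix (Fin r) (Fin r) ℤ).map (Int.cast : ℤ → ℂ)) x y) b.U := by
        intro x y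
        have han1 : AnalyticOnNhd ℂ (fun s => c.P s x y) b.U := by
          rw [hU]
          exact hcan.2.2.2 x y
        have han2 : AnalyticOnNhd ℂ
            (fun s => (b.P s * (γ : Matrix (Fin r) (Fin r) ℤ).map (Int.cast : ℤ → ℂ)) x y) b.U := by
          have h5 : (fun s => (b.P s *
              (γ : Matrix (Fin r) (Fin r) ℤ).map (Int.cast : ℤ → ℂ)) x y) =
              fun s => ∑ l, b.P s x l *
                ((γ : Matrix (Fin r) (Fin r) ℤ).map (Int.cast : ℤ → ℂ)) l y := by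
            funext s
            rw [Matrix.mul_apply]
          rw [h5]
          exact Finset.analyticOnNhd_fun_sum _ fun l _ => (hban.2.2.2 x l).mul analyticOnNhd_const
        refine han1.eqOn_of_preconnected_of_eventuallyEq han2 hban.2.1 ht ?_
        filter_upwards [Metric.ball_mem_nhds t hε] with s hs
        have h6 := (hγs s hs).1
        have h7 : pmat (⟨Metric.ball t ε, c₂.w, c₂.f⟩ : Elem m (Ix Y)) s = c.P s :=
          (hc₂s s (hball hs).2).2
        have h8 : pmat (⟨Metric.ball t ε, c₁.w, c₁.f⟩ : Elem m (Ix Y)) s = b.P s :=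
          (hc₁s s (hball hs).1).2
        rw [h7, h8] at h6
        rw [h6]
      intro s hs
      ext x y
      exact hent x y hs
  · intro b hb t ht
    obtain ⟨D, hD, hDc, htD, hDb, c, hc, hcD, hcs⟩ := lift h hb ht
    rw [← (hcs t htD).2]
    exact h.det c hc t (by rw [hcD]; exact htD)
  · intro b hb t ht
    obtain ⟨D, hD, hDc, htD, hDb, c, hc, hcD, hcs⟩ := lift h hb ht
    rw [← (hcs t htD).2]
    exact h.pol c hc t (by rw [hcD]; exact htD)
  · intro b hb t ht i x y hxy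
    obtain ⟨D, hD, hDc, htD, hDb, c, hc, hcD, hcs⟩ := lift h hb ht
    have h1 := h.trans c hc t (by rw [hcD]; exact htD) i x y hxy
    have h2 : ∀ x y, pd i (fun s => pmat c s x y) t = pd i (fun s => b.P s x y) t := by
      intro x y
      unfold pd
      have h3 : (fun s => pmat c s x y) =ᶠ[nhds t] fun s => b.P s x y := by
        filter_upwards [hD.mem_nhds htD] with s hs
        rw [(hcs s hs).2]
      rw [h3.fderiv_eq]
    rw [(hcs t htD).2] at h1
    simp only [h2] at h1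
    exact h1

theorem mem_MG_of_MM (h : IsLocalSystem S P Y lev j ψ) (hne : U.Nonempty) {γ : GL (Fin r) ℤ}
    (hγ : γ ∈ FX.MM (S.map (algebraMap κ ℂ)) ⟨U, w, P⟩ (ψ.map (Int.cast : ℤ → ℚ)) h.vhs.dom) :
    γ ∈ MG P Y S ψ h.dom := by
  obtain ⟨hγ1, hγ2⟩ := hγ
  obtain ⟨t, ht⟩ := hne
  obtain ⟨D, hD, hDc, htD, hDb, c, hc, hcD, hcs⟩ := lift h hγ2 (t := t) ht
  have hDU : D ⊆ U := hDb
  have hr : Reach S (base P Y) ⟨D, (base P Y).w, (base P Y).f⟩ :=
    restrict h.dom h.analytic Relation.ReflTransGen.refl hD hDc.isPreconnected ⟨t, htD⟩ hDU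
  have hwD : ∀ s ∈ D, (base P Y).w s = c.w s := by
    intro s hs
    rw [(hcs s hs).1]
    rfl
  obtain ⟨γ', hγ', hγ's⟩ := h.int _ _ hr hc hcD.symm hwD
  have h1 := mem_MG h.dom h.analytic hr hc ⟨t, htD⟩ hcD.symm hwD hγ' hγ's
  have h2 : γ = γ' := by
    have h3 := (hγ's t htD).1
    have h4 : pmat (⟨D, (base P Y).w, (base P Y).f⟩ : Elem m (Ix Y)) t = P t :=
      congrFun (pmat_base (P := P) (Y := Y)) t
    have h5 : pmat c t = P t * zc (γ : Matrix (Fin r) (Fin r) ℤ) := (hcs t htD).2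
    rw [h4, h5] at h3
    have h6 : IsUnit (P t).det := by
      have := h.det (base P Y) Relation.ReflTransGen.refl t ht
      rwa [pmat_base] at this
    have h7 := congrArg (fun A => (P t)⁻¹ * A) h3
    simp only [Matrix.nonsing_inv_mul_cancel_left _ _ h6] at h7
    apply Units.ext
    ext x y
    have h8 := congrFun (congrFun h7 x) y
    change (((γ : Matrix (Fin r) (Fin r) ℤ) x y : ℤ) : ℂ) =
      (((γ' : Matrix (Fin r) (Fin r) ℤ) x y : ℤ) : ℂ) at h8
    exact_mod_cast h8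
  rw [h2]
  exact h1

theorem mem_MM_of_MG (h : IsLocalSystem S P Y lev j ψ) {γ : GL (Fin r) ℤ} (hγ : γ ∈ MG P Y S ψ h.dom) :
    γ ∈ FX.MM (S.map (algebraMap κ ℂ)) ⟨U, w, P⟩ (ψ.map (Int.cast : ℤ → ℚ)) h.vhs.dom := by
  obtain ⟨h1, h2⟩ := hγ
  refine ⟨?_, ?_⟩
  · have h3 : qc (ψ.map (Int.cast : ℤ → ℚ)) = ψ.map (Int.cast : ℤ → ℂ) := by
      ext x y
      simp [qc]
    have h4 : ∀ A B : Matrix (Fin r) (Fin r) ℤ, (A * B).map (Int.cast : ℤ → ℂ) =
        A.map (Int.cast : ℤ → ℂ) * B.map (Int.cast : ℤ → ℂ) := fun A B =>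
      Matrix.map_mul (f := Int.castRingHom ℂ)
    rw [h3]
    conv_rhs => rw [← h1]
    rw [h4, h4, Matrix.transpose_map]
  · have h3 := h45_fg_reach h2
    rw [h45_fg_base P Y] at h3
    have h4 : h45_fg (gact (γ : Matrix (Fin r) (Fin r) ℤ) (base P Y)) =
        FX.rmul ⟨U, w, P⟩ (zc (γ : Matrix (Fin r) (Fin r) ℤ)) := by
      unfold h45_fg FX.rmul
      congr 1
      funext t
      ext x y
      change (pmat (base P Y) t *
        (γ : Matrix (Fin r) (Fin r) ℤ).map (Int.cast : ℤ → ℂ)) x y = _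
      rw [pmat_base]
    rw [h4] at h3
    exact h3

end Pool.Agent.Helper79.FY
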