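import Pool.Agent.Helper79.FY.Clause
import Pool.Agent.Helper79.FY.DenseConn
import Pool.Agent.Helper79.FX.Main
import Pool.Agent.Helper79.HI.Main

/-!
# FY: the Mumford-Tate conjecture for `H^2` spreads from one fibre, with no further hypothesis

(helper79)
-/

set_option linter.unusedSectionVars false

namespace Pool.Agent.Helper79.FY

open Matrix Module Pool.Agent.Helper79.BB Pool.Agent.Helper79.HH Pool.Agent.Helper79.HG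
  Pool.Agent.Helper79.HI Pool.Agent.Helper64.Per Pool.Agent.Helper88.MT Pool.Agent.Helper79.DD
  Pool.Agent.Helper46.GG Pool.Agent.Helper79.FX

section

variable {κ : IntermediateField ℚ Qbar} [FiniteDimensional ℚ κ] {m r ℓ μ : ℕ} [Fact ℓ.Prime]
  {U : Set (Fin m → ℂ)}
  {w : (Fin m → ℂ) → ℂ} {S : MvPolynomial (Fin m) κ} {P : (Fin m → ℂ) → Matrix (Fin r) (Fin r) ℂ}
  {Y : ∀ k : ℕ, CoverData κ (Fin r → ZMod (ℓ ^ k)) U w} {lev : Fin r → ℤ} {j : ℤ}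
  {ψ : Matrix (Fin r) (Fin r) ℤ}

theorem IsEtaleBranch.branch (hw : IsEtaleBranch κ U μ w) : IsBranchM κ U μ w := by
  obtain ⟨h1, f, hf⟩ := hw
  exact ⟨h1, f, fun t ht => (hf t ht).1⟩

/-- The elements of the circle group of the Hodge structure of weight zero. -/
theorem hodgeElt_iff {ψ : Matrix (Fin r) (Fin r) ℚ} {P : Matrix (Fin r) (Fin r) ℂ}
    (hpol : IsPolarized lev 2 ψ P) (hP : IsUnit P.det) {u v : ℂ} (hu : ‖v‖ = 1) (huv : v ^ 2 = u)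
    {a : GL (Fin r) ℂ} (ha : IsHodgeElt lev P u a) :
    (a : Matrix (Fin r) (Fin r) ℂ) = Em lev 2 ψ v P := by
  refine (circle_iff hpol hP hu a).1 ⟨hu, fun p x hx => ?_⟩
  rw [ha.2 p x hx]
  congr 1
  have h0 : v ≠ 0 := by
    intro h
    rw [h, norm_zero] at hu
    exact zero_ne_one hu
  have h1 : u = v ^ (2 : ℤ) := by rw [← huv]; exact (zpow_ofNat v 2).symm
  rw [h1, ← _root_.zpow_mul]
  congr 1
  ring

theorem exists_sqrt {u : ℂ} (hu : ‖u‖ = 1) : ∃ v : ℂ, ‖v‖ = 1 ∧ v ^ 2 = u := by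
  obtain ⟨v, hv⟩ := IsAlgClosed.exists_pow_nat_eq u (n := 2) (by norm_num)
  refine ⟨v, ?_, hv⟩
  have h1 : ‖v‖ ^ 2 = 1 := by rw [← norm_pow, hv, hu]
  nlinarith [norm_nonneg v]

/-- A family has the structure needed for the theorem of `HI`. -/
theorem IsLocalSystem.isConnMono_of (h : IsLocalSystem S P Y lev 2 ψ) (hw : IsEtaleBranch κ U μ w)
    {Γ : Subgroup (GL (Fin r) ℤ)}
    (hΓ : Γ ≤ MM (S.map (algebraMap κ ℂ)) ⟨U, w, P⟩ (ψ.map (Int.cast : ℤ → ℚ)) h.vhs.dom)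
    (hfin : Γ.relIndex (MM (S.map (algebraMap κ ℂ)) ⟨U, w, P⟩ (ψ.map (Int.cast : ℤ → ℚ)) h.vhs.dom) ≠ 0)
    (hdense : DenseG (qp Γ)) (hdet1 : ∀ γ ∈ qp Γ, (γ : Matrix (Fin r) (Fin r) ℚ).det = 1)
    (hperf : ∀ L : Submodule ℚ (Matrix (Fin r) (Fin r) ℚ),
        (∀ x ∈ lieS (qp Γ), ∀ y ∈ lieS (qp Γ), x * y - y * x ∈ L) → lieS (qp Γ) ≤ L)
    {V : Set (Fin m → ℂ)} (hV : V ⊆ U) {t₀ : Fin m → ℂ} (ht₀ : t₀ ∈ V)
    (halg : ∀ i, IsAlgebraic ℚ (t₀ i)) : IsConnMono Y lev ψ P V t₀ Γ := by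
  have hv := h.vhs
  have ht₀U : t₀ ∈ U := hV ht₀
  have hne : U.Nonempty := ⟨t₀, ht₀U⟩
  have hMG : Γ ≤ MG P Y S ψ h.dom := fun γ hγ => mem_MG_of_MM h hne (hΓ hγ)
  have hMM : MG P Y S ψ h.dom = MM (S.map (algebraMap κ ℂ)) ⟨U, w, P⟩ (ψ.map (Int.cast : ℤ → ℚ))
      h.vhs.dom :=
    le_antisymm (fun γ hγ => mem_MM_of_MG h hγ) fun γ hγ => mem_MG_of_MM h hne hγ
  have hfin' : Γ.relIndex (MG P Y S ψ h.dom) ≠ 0 := by
    rw [hMM]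
    exact hfin
  refine ⟨?_, isConn_of_dense hdense, ?_, ?_, ?_⟩
  · intro γ hγ
    exact mem_MonoL h.dom (hMG hγ)
  · intro L hL x hx
    have h1 : ∀ x, x ∈ lieGL (qp Γ : Set (GL (Fin r) ℚ)) ↔ x ∈ lieS (qp Γ) := fun x =>
      mem_lieGL_iff hdet1
    refine hperf L ?_ ((h1 x).1 hx)
    intro x hx y hy
    exact hL x ((h1 x).2 hx) y ((h1 y).2 hy)
  · intro t ht u a a₀ ha ha₀
    obtain ⟨v, hv1, hv2⟩ := exists_sqrt ha.1
    have hv0 : v ≠ 0 := by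
      intro h
      rw [h, norm_zero] at hv1
      exact zero_ne_one hv1
    have hpol : ∀ t ∈ U, IsPolarized lev 2 (ψ.map (Int.cast : ℤ → ℚ)) (P t) := fun t ht =>
      hv.pol ⟨U, w, P⟩ Relation.ReflTransGen.refl t ht
    have hdet : ∀ t ∈ U, IsUnit (P t).det := fun t ht => hv.det ⟨U, w, P⟩ Relation.ReflTransGen.refl t ht
    have key : ∀ t ∈ U, ∀ b : GL (Fin r) ℂ, IsHodgeElt lev (P t) u b →
        ((b⁻¹ : GL (Fin r) ℂ) : Matrix (Fin r) (Fin r) ℂ) =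
          Em lev 2 (ψ.map (Int.cast : ℤ → ℚ)) v⁻¹ (P t) := by
      intro t ht b hb
      have h1 := hodgeElt_iff (hpol t ht) (hdet t ht) hv1 hv2 hb
      have h2 := Em_mul (hpol t ht) (hdet t ht) hv0 (inv_ne_zero hv0)
      rw [mul_inv_cancel₀ hv0, Em_one (hpol t ht) (hdet t ht), ← h1] at h2
      have h4 : (b : Matrix (Fin r) (Fin r) ℂ) * ((b⁻¹ : GL (Fin r) ℂ) : Matrix (Fin r) (Fin r) ℂ) = 1 :=
        b.mul_inv
      have h5 : ((b⁻¹ : GL (Fin r) ℂ) : Matrix (Fin r) (Fin r) ℂ) * (b : Matrix (Fin r) (Fin r) ℂ) = 1 :=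
        b.inv_mul
      calc ((b⁻¹ : GL (Fin r) ℂ) : Matrix (Fin r) (Fin r) ℂ) =
          ((b⁻¹ : GL (Fin r) ℂ) : Matrix (Fin r) (Fin r) ℂ) *
            ((b : Matrix (Fin r) (Fin r) ℂ) * Em lev 2 (ψ.map (Int.cast : ℤ → ℚ)) v⁻¹ (P t)) := by
            rw [h2, Matrix.mul_one]
        _ = _ := by rw [← Matrix.mul_assoc, h5, Matrix.one_mul]
    have h3 := fixed_part hv hne hw.branch hΓ hfin hdet1 (b := ⟨U, w, P⟩) (c := ⟨U, w, P⟩)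
      Relation.ReflTransGen.refl Relation.ReflTransGen.refl (hV ht) ht₀U (inv_ne_zero hv0)
      (g := a⁻¹) (g₁ := a₀⁻¹) (key t (hV ht) a ha) (key t₀ ht₀U a₀ ha₀)
    rwa [inv_inv] at h3
  · intro t ht halgt
    exact galois_clause h hw hMG hfin' hdense (hV ht) ht₀U halgt halg

theorem IsLocalSystem.isConnMono (h : IsLocalSystem S P Y lev 2 ψ) (hw : IsEtaleBranch κ U μ w)
    {V : Set (Fin m → ℂ)} (hV : V ⊆ U) {t₀ : Fin m → ℂ} (ht₀ : t₀ ∈ V)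
    (halg : ∀ i, IsAlgebraic ℚ (t₀ i)) : ∃ Γ, IsConnMono Y lev ψ P V t₀ Γ := by
  obtain ⟨Γ, hΓ, hfin, hdense, hdet1, hperf⟩ := exists_group h.vhs hw.branch (hV ht₀)
  exact ⟨Γ, h.isConnMono_of hw hΓ hfin hdense hdet1 hperf hV ht₀ halg⟩

end

theorem spread {κ : IntermediateField ℚ Qbar} [FiniteDimensional ℚ κ] {m : ℕ} (hm : 1 ≤ m)
    {F : FamiliesM κ m} {μ r₀ r : ℕ} (E : F.Sub μ r₀ (Fin r)) {S : MvPolynomial (Fin m) κ}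
    {U : Set (Fin m → ℂ)} {w : (Fin m → ℂ) → ℂ} (hw : IsEtaleBranch κ U μ w)
    {P : (Fin m → ℂ) → Matrix (Fin r) (Fin r) ℂ} (hP : E.IsPeriod U w P) {ℓ : ℕ} [Fact ℓ.Prime]
    (Y : ∀ k : ℕ, CoverData κ (Fin r → ZMod (ℓ ^ k)) U w) {lev : Fin r → ℤ}
    (hlev : ∀ x, 0 ≤ lev x ∧ lev x ≤ 2) {ψ : Matrix (Fin r) (Fin r) ℤ}
    (h : IsLocalSystem S P Y lev 2 ψ) {V : Set (Fin m → ℂ)}
    (hV : DeepW F.T U V ∨ IsCompact V ∧ V ⊆ U) {t₀ : Fin m → ℂ} (ht₀ : t₀ ∈ V)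
    (halg : ∀ i, IsAlgebraic ℚ (t₀ i))
    (h₀ : AtPoint κ w t₀ fun _ _ act => Q1Some act (pts Y t₀) lev (P t₀))
    {J : Type} [Fintype J] (ω : Module.Basis J ℚ κ)
    {D : ℕ} (hD : 1 ≤ D) (e : ℕ) (N' : Finset (ℕ × J)) (hN' : ∃ j, (0, j) ∈ N') :
    ∃ C θ₀ : ℝ, 0 < θ₀ ∧ ∀ X : ℕ, 1 ≤ X → ((SmallQ1 ω N' V Y lev P D e X).ncard : ℝ) ≤
      C * (X : ℝ) ^ ((((D + 1 + m * (e + 1)) * Module.finrank ℚ κ + N'.card : ℕ) : ℝ) - θ₀) := by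
  have hVU : V ⊆ U := by
    rcases hV with h1 | ⟨-, h1⟩
    · exact deepW_sub h1
    · exact h1
  obtain ⟨Γ, hΓ⟩ := h.isConnMono hw hVU ht₀ halg
  have hv := h.vhs
  exact q1_spread hm E hv.analytic.1 hv.analytic.2.1 hw.branch hP hV
    (fun t ht => hv.det ⟨U, w, P⟩ Relation.ReflTransGen.refl t (hVU ht)) hlev
    (fun t ht => hv.pol ⟨U, w, P⟩ Relation.ReflTransGen.refl t (hVU ht)) Y ht₀ hΓ h₀ ω hD e N' hN'

end Pool.Agent.Helper79.FY
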