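import Mathlib
import Pool.Agent.Helper64.Per.Defs

/-!
# FY-01: analytic functions of moderate growth on the complement of a hypersurface are polynomials

1. `exists_line`: `Z = {s | S (t₀ + s v) = 0}` is the zero set of a nonzero polynomial in one variable (its value at `0` is not zero), so finite.
   `g s = f (t₀ + s v)` is holomorphic outside `Z` and bounded near the points of `Z`: the singularities are removable (`Complex.differentiableOn_update_limUnder_of_bddAbove`, one point after
   the other, or: `h s = (∏_{z ∈ Z} (s - z)) g s` extended by `0` on `Z` is continuous and holomorphic outside a finite set, so entire, and it vanishes on `Z`; divide). The entire function `G` has `|G s| ≤ C' (1 + |s|) ^ n` (by continuity also on `Z`), so it is a polynomial of degree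
   at most `n` (Cauchy estimates `Complex.norm_iteratedDeriv_le_of_forall_mem_sphere_norm_le` or `Complex.norm_deriv_le_of_forall_mem_sphere_norm_le`, all derivatives of order greater than `n` vanish at `0`, and the Taylor series is finite: `Complex.hasSum_taylorSeries_of_entire`).
2. `exists_poly`. Choose a point of `O` with `S ≠ 0` and an open polydisc `D = ∏ D_i` in `O` on which `S ≠ 0` (balls for the maximum norm), and in each `D_i` different algebraic numbers `x_(i,0), …, x_(i,n)` (`ℚ(i)` is dense). On `D` the function `f` is a polynomial of degree at most `n`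
   in each variable separately (`exists_line` with `v = e_i`), so by Lagrange interpolation in one variable after the other (induction on the number of the variables which have been replaced)
   `f t = ∑_J (∏_i L_(i, J i) (t_i)) f (x_J)`, `J : Fin m → Fin (n + 1)`, `x_J i = x_(i, J i)`, `L_(i,j)` the Lagrange polynomials over `Qbar`; the `f (x_J)` are algebraic (`halg`). This is the polynomial `p`.
3. Let `S t ≠ 0`, `t₀ ∈ D`. On the line from `t₀` to `t` `f` and `p` are polynomials in `s` outside `Z` and equal for small `s`, so at `s = 1`.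
-/

namespace Pool.Agent.Helper79.FY

open Pool.Agent.Helper64.Per

open Filter Topology

/-- an entire function of polynomial growth is a polynomial -/
private theorem poly_of_growth (g : ℂ → ℂ) (hg : Differentiable ℂ g) (C R : ℝ) (m : ℕ)
    (hb : ∀ z : ℂ, R ≤ ‖z‖ → ‖g z‖ ≤ C * ‖z‖ ^ m) :
    ∃ p : Polynomial ℂ, p.natDegree ≤ m ∧ ∀ z, g z = p.eval z := by
  have hzero : ∀ n, m < n → iteratedDeriv n g 0 = 0 := by
    intro n hn
    have hbound : ∀ r : ℝ, 0 < r → R ≤ r →
        ‖iteratedDeriv n g 0‖ ≤ n.factorial * (C * r ^ m) / r ^ n := by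
      intro r hr hRr
      apply Complex.norm_iteratedDeriv_le_of_forall_mem_sphere_norm_le n hr hg.diffContOnCl
      intro z hz
      rw [mem_sphere_zero_iff_norm] at hz
      have := hb z (by rw [hz]; exact hRr)
      rwa [hz] at this
    have hlim : Tendsto (fun r : ℝ => n.factorial * (C * r ^ m) / r ^ n) atTop (𝓝 0) := by
      have h1 : Tendsto (fun r : ℝ => (n.factorial * C) * (r ^ (n - m))⁻¹) atTop (𝓝 0) := by
        have h2 : Tendsto (fun r : ℝ => (r ^ (n - m))⁻¹) atTop (𝓝 0) :=
          (tendsto_pow_atTop (by omega)).inv_tendsto_atTop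
        have h3 := h2.const_mul ((n.factorial : ℝ) * C)
        rwa [mul_zero] at h3
      refine h1.congr' ?_
      filter_upwards [eventually_gt_atTop 0] with r hr
      have h4 : r ^ n = r ^ (n - m) * r ^ m := by
        rw [← pow_add]; congr 1; omega
      rw [h4]
      field_simp
    have h5 : ‖iteratedDeriv n g 0‖ ≤ 0 := by
      refine ge_of_tendsto hlim ?_
      filter_upwards [eventually_gt_atTop 0, eventually_ge_atTop R] with r hr hRr
      exact hbound r hr hRr
    exact norm_le_zero_iff.1 h5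
  refine ⟨∑ n ∈ Finset.range (m + 1),
    Polynomial.monomial n ((n.factorial : ℂ)⁻¹ * iteratedDeriv n g 0), ?_, fun z => ?_⟩
  · refine Polynomial.natDegree_sum_le_of_forall_le _ _ fun n hn => ?_
    rw [Finset.mem_range] at hn
    exact (Polynomial.natDegree_monomial_le _).trans (by omega)
  rw [← Complex.taylorSeries_eq_of_entire' 0 z hg, Polynomial.eval_finsetSum,
    tsum_eq_sum (s := Finset.range (m + 1))]
  · refine Finset.sum_congr rfl fun n _ => ?_
    rw [Polynomial.eval_monomial, sub_zero]
  · intro n hn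
    rw [Finset.mem_range] at hn
    rw [hzero n (by omega), mul_zero, zero_mul]

/-- removable singularities at a finite set, with growth -/
private theorem extend {g : ℂ → ℂ} {Z : Set ℂ} (hZ : Z.Finite) (hg : ∀ s ∉ Z, DifferentiableAt ℂ g s)
    {C : ℝ} {n : ℕ} (hC : 0 ≤ C) (hb : ∀ s ∉ Z, ‖g s‖ ≤ C * (1 + ‖s‖) ^ n) :
    ∃ p : Polynomial ℂ, p.natDegree ≤ n ∧ ∀ s ∉ Z, g s = p.eval s := by
  classical
  have hZc : IsClosed Z := hZ.isClosed
  let G : ℂ → ℂ := fun s => if s ∈ Z then limUnder (𝓝[≠] s) g else g s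
  have hGg : ∀ s ∉ Z, G s = g s := fun s hs => if_neg hs
  have hGd : Differentiable ℂ G := by
    intro s
    by_cases hs : s ∈ Z
    · -- a ball without other points of `Z`
      have h1 : (Z \ {s})ᶜ ∈ 𝓝 s := by
        apply (hZ.subset Set.sdiff_subset).isClosed.isOpen_compl.mem_nhds
        simp
      obtain ⟨ε, hε, hball⟩ := Metric.mem_nhds_iff.1 h1
      have h2 : ∀ z ∈ Metric.ball s ε \ {s}, z ∉ Z := by
        rintro z ⟨hz, hzs⟩ hzZ
        exact hball hz ⟨hzZ, hzs⟩
      have h3 := Complex.differentiableOn_update_limUnder_of_bddAbove (f := g)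
        (Metric.ball_mem_nhds s hε) (fun z hz => (hg z (h2 z hz)).differentiableWithinAt) (by
          refine ⟨C * (1 + (‖s‖ + ε)) ^ n, ?_⟩
          rintro _ ⟨z, hz, rfl⟩
          refine (hb z (h2 z hz)).trans ?_
          refine mul_le_mul_of_nonneg_left ?_ hC
          refine pow_le_pow_left₀ (by positivity) ?_ n
          have h4 : ‖z‖ ≤ ‖s‖ + ‖z - s‖ := by
            have := norm_add_le s (z - s)
            rwa [add_sub_cancel] at this
          have h5 : ‖z - s‖ < ε := by
            have := hz.1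
            rwa [mem_ball_iff_norm] at this
          linarith)
      have h4 : DifferentiableAt ℂ (Function.update g s (limUnder (𝓝[≠] s) g)) s :=
        h3.differentiableAt (Metric.ball_mem_nhds s hε)
      refine h4.congr_of_eventuallyEq ?_
      filter_upwards [Metric.ball_mem_nhds s hε] with z hz
      by_cases hzs : z = s
      · subst hzs
        rw [Function.update_self]
        exact if_pos hs
      · rw [Function.update_of_ne hzs]
        exact if_neg (h2 z ⟨hz, hzs⟩)
    · refine (hg s hs).congr_of_eventuallyEq ?_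
      filter_upwards [hZc.isOpen_compl.mem_nhds hs] with z hz
      exact if_neg hz
  have hGb : ∀ s, ‖G s‖ ≤ C * (1 + ‖s‖) ^ n := by
    have hcl : IsClosed {s | ‖G s‖ ≤ C * (1 + ‖s‖) ^ n} :=
      isClosed_le hGd.continuous.norm (by fun_prop)
    have hd : Dense Zᶜ := hZ.countable.dense_compl ℝ
    have hsub : Zᶜ ⊆ {s | ‖G s‖ ≤ C * (1 + ‖s‖) ^ n} := by
      intro s hs
      show ‖G s‖ ≤ _
      rw [hGg s hs]
      exact hb s hs
    intro s
    exact (hcl.closure_subset_iff.2 hsub) (hd s)
  obtain ⟨p, hp, hpe⟩ := poly_of_growth G hGd (C * 2 ^ n) 1 n (by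
    intro z hz
    refine (hGb z).trans ?_
    rw [mul_assoc, ← mul_pow]
    refine mul_le_mul_of_nonneg_left ?_ hC
    exact pow_le_pow_left₀ (by positivity) (by linarith) n)
  exact ⟨p, hp, fun s hs => by rw [← hGg s hs, hpe]⟩

private noncomputable def lineP {m : ℕ} (S : MvPolynomial (Fin m) ℂ) (t₀ v : Fin m → ℂ) :
    Polynomial ℂ :=
  MvPolynomial.aeval (fun i => Polynomial.C (t₀ i) + Polynomial.X * Polynomial.C (v i)) S

private theorem lineP_eval {m : ℕ} (S : MvPolynomial (Fin m) ℂ) (t₀ v : Fin m → ℂ) (s : ℂ) :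
    (lineP S t₀ v).eval s = MvPolynomial.eval (t₀ + s • v) S := by
  unfold lineP
  have h1 : Polynomial.eval s (MvPolynomial.aeval
      (fun i => Polynomial.C (t₀ i) + Polynomial.X * Polynomial.C (v i)) S) =
      (Polynomial.evalRingHom s) (MvPolynomial.aeval
      (fun i => Polynomial.C (t₀ i) + Polynomial.X * Polynomial.C (v i)) S) := rfl
  rw [h1, MvPolynomial.aeval_def, MvPolynomial.hom_eval₂]
  have h2 : (Polynomial.evalRingHom s).comp (algebraMap ℂ (Polynomial ℂ)) = RingHom.id ℂ := by
    ext x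
    simp
  rw [h2, MvPolynomial.eval₂_id]
  have h3 : (fun i => (Polynomial.evalRingHom s) (Polynomial.C (t₀ i) + Polynomial.X * Polynomial.C (v i))) =
      t₀ + s • v := by
    funext i
    simp
    ring
  rw [h3]

theorem exists_line {m : ℕ} {S : MvPolynomial (Fin m) ℂ} {f : (Fin m → ℂ) → ℂ}
    (hf : ∀ t, MvPolynomial.eval t S ≠ 0 → AnalyticAt ℂ f t) {C : ℝ} {n : ℕ}
    (hb : ∀ t, MvPolynomial.eval t S ≠ 0 → ‖f t‖ ≤ C * (1 + ‖t‖) ^ n) {t₀ : Fin m → ℂ}
    (ht₀ : MvPolynomial.eval t₀ S ≠ 0) (v : Fin m → ℂ) :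
    ∃ p : Polynomial ℂ, p.natDegree ≤ n ∧
      ∀ s : ℂ, MvPolynomial.eval (t₀ + s • v) S ≠ 0 → f (t₀ + s • v) = p.eval s := by
  have hC : 0 ≤ C := by
    have h1 := (norm_nonneg (f t₀)).trans (hb t₀ ht₀)
    by_contra hC
    push Not at hC
    have h2 : 0 < (1 + ‖t₀‖) ^ n := by positivity
    nlinarith
  have hP : lineP S t₀ v ≠ 0 := by
    intro h
    have := lineP_eval S t₀ v 0
    rw [h, Polynomial.eval_zero, zero_smul, add_zero] at this
    exact ht₀ this.symm
  have hZ : {s : ℂ | MvPolynomial.eval (t₀ + s • v) S = 0}.Finite := by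
    refine ((lineP S t₀ v).roots.toFinset.finite_toSet).subset ?_
    intro s hs
    rw [Finset.mem_coe, Multiset.mem_toFinset, Polynomial.mem_roots hP, Polynomial.IsRoot.def,
      lineP_eval]
    exact hs
  obtain ⟨p, hp, hpe⟩ := extend (g := fun s : ℂ => f (t₀ + s • v)) hZ (by
    intro s hs
    have h1 : DifferentiableAt ℂ f (t₀ + s • v) := (hf _ hs).differentiableAt
    exact h1.comp s (by fun_prop)) (C := C * (1 + ‖t₀‖ + ‖v‖) ^ n) (n := n) (by positivity) (by
    intro s hs
    refine (hb _ hs).trans ?_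
    rw [mul_assoc, ← mul_pow]
    refine mul_le_mul_of_nonneg_left ?_ hC
    refine pow_le_pow_left₀ (by positivity) ?_ n
    have h1 : ‖t₀ + s • v‖ ≤ ‖t₀‖ + ‖s‖ * ‖v‖ := by
      refine (norm_add_le _ _).trans ?_
      rw [norm_smul]
    nlinarith [norm_nonneg s, norm_nonneg v, norm_nonneg t₀, mul_nonneg (norm_nonneg s) (norm_nonneg t₀)])
  exact ⟨p, hp, fun s hs => hpe s hs⟩

/-- algebraic numbers in open sets -/
private theorem exists_alg (n : ℕ) {A : Set ℂ} (hA : IsOpen A) (hne : A.Nonempty) :
    ∃ x : Fin (n + 1) → Qbar, Function.Injective x ∧ ∀ j, (x j : ℂ) ∈ A := by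
  have hinf : {x : Qbar | (x : ℂ) ∈ A}.Infinite := by
    intro hfin
    -- the algebraic numbers are dense
    have hd : DenseRange (fun q : ℚ × ℚ => ((q.1 : ℝ) : ℂ) + ((q.2 : ℝ) : ℂ) * Complex.I) := by
      have h1 : DenseRange (fun q : ℚ × ℚ => ((q.1 : ℝ), (q.2 : ℝ))) :=
        Rat.denseRange_cast.prodMap Rat.denseRange_cast
      have h2 : Function.Surjective (fun q : ℝ × ℝ => (q.1 : ℂ) + (q.2 : ℂ) * Complex.I) := by
        intro z
        exact ⟨(z.re, z.im), Complex.re_add_im z⟩
      have h3 : Continuous (fun q : ℝ × ℝ => (q.1 : ℂ) + (q.2 : ℂ) * Complex.I) := by fun_prop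
      exact h2.denseRange.comp h1 h3
    have hA' : (A \ ((fun x : Qbar => (x : ℂ)) '' {x : Qbar | (x : ℂ) ∈ A})).Nonempty := by
      have hc : ((fun x : Qbar => (x : ℂ)) '' {x : Qbar | (x : ℂ) ∈ A}).Countable :=
        (hfin.image _).countable
      have := (hc.dense_compl ℝ).inter_open_nonempty A hA hne
      exact this
    have hopen : IsOpen (A \ ((fun x : Qbar => (x : ℂ)) '' {x : Qbar | (x : ℂ) ∈ A})) :=
      hA.sdiff (hfin.image _).isClosed
    obtain ⟨q, hq⟩ := hd.exists_mem_open hopen hA'
    have hI : IsAlgebraic ℚ Complex.I := by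
      refine ⟨Polynomial.X ^ 2 + 1, ?_, ?_⟩
      · intro h
        have := congrArg (Polynomial.eval 0) h
        simp at this
      · simp
    have halg : IsAlgebraic ℚ (((q.1 : ℝ) : ℂ) + ((q.2 : ℝ) : ℂ) * Complex.I) := by
      have h1 : IsAlgebraic ℚ (((q.1 : ℝ) : ℂ)) := by
        have : (((q.1 : ℝ) : ℂ)) = algebraMap ℚ ℂ q.1 := by simp
        rw [this]
        exact isAlgebraic_algebraMap _
      have h2 : IsAlgebraic ℚ (((q.2 : ℝ) : ℂ)) := by
        have : (((q.2 : ℝ) : ℂ)) = algebraMap ℚ ℂ q.2 := by simp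
        rw [this]
        exact isAlgebraic_algebraMap _
      exact h1.add (h2.mul hI)
    have hmem : (((q.1 : ℝ) : ℂ) + ((q.2 : ℝ) : ℂ) * Complex.I) ∈ algebraicClosure ℚ ℂ :=
      mem_algebraicClosure_iff.2 halg
    exact hq.2 ⟨⟨_, hmem⟩, hq.1, rfl⟩
  have hinf' := hinf.to_subtype
  obtain ⟨e⟩ : Nonempty (Fin (n + 1) ↪ {x : Qbar | (x : ℂ) ∈ A}) :=
    ⟨Fin.valEmbedding.trans (Infinite.natEmbedding _)⟩
  exact ⟨fun j => (e j : Qbar), fun a b h => e.injective (Subtype.ext h), fun j => (e j).2⟩

/-- separately polynomial functions with algebraic values at algebraic points -/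
private theorem sep_poly (n : ℕ) : ∀ (m : ℕ) (A : Fin m → Set ℂ) (_ : ∀ i, IsOpen (A i))
    (_ : ∀ i, (A i).Nonempty) (f : (Fin m → ℂ) → ℂ)
    (_ : ∀ t, (∀ i, t i ∈ A i) → ∀ i, ∃ p : Polynomial ℂ, p.natDegree ≤ n ∧
      ∀ s ∈ A i, f (Function.update t i s) = p.eval s)
    (_ : ∀ t, (∀ i, t i ∈ A i) → (∀ i, IsAlgebraic ℚ (t i)) → IsAlgebraic ℚ (f t)),
    ∃ p : MvPolynomial (Fin m) Qbar, ∀ t, (∀ i, t i ∈ A i) → f t = MvPolynomial.aeval t p := by
  intro m
  induction m with
  | zero =>
    intro A hA hne f h1 h2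
    have h3 : IsAlgebraic ℚ (f (fun i => i.elim0)) := h2 _ (fun i => i.elim0) (fun i => i.elim0)
    refine ⟨MvPolynomial.C ⟨f (fun i => i.elim0), mem_algebraicClosure_iff.2 h3⟩, fun t _ => ?_⟩
    rw [MvPolynomial.aeval_C]
    show f t = f (fun i => i.elim0)
    congr 1
    funext i
    exact i.elim0
  | succ m ih =>
    intro A hA hne f h1 h2
    obtain ⟨x, hx, hxA⟩ := exists_alg n (hA 0) (hne 0)
    have hj : ∀ j : Fin (n + 1), ∃ p : MvPolynomial (Fin m) Qbar, ∀ t : Fin m → ℂ,
        (∀ i, t i ∈ A i.succ) → f (Fin.cons (x j : ℂ) t) = MvPolynomial.aeval t p := by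
      intro j
      apply ih (fun i => A i.succ) (fun i => hA i.succ) (fun i => hne i.succ)
        (fun t => f (Fin.cons (x j : ℂ) t))
      · intro t ht i
        obtain ⟨p, hp, hpe⟩ := h1 (Fin.cons (x j : ℂ) t) (by
          intro k
          refine Fin.cases ?_ (fun k => ?_) k
          · exact hxA j
          · exact ht k) i.succ
        refine ⟨p, hp, fun s hs => ?_⟩
        rw [Fin.cons_update (α := fun _ => ℂ)]
        exact hpe s hs
      · intro t ht hta
        apply h2
        · intro k
          refine Fin.cases ?_ (fun k => ?_) k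
          · exact hxA j
          · exact ht k
        · intro k
          refine Fin.cases ?_ (fun k => ?_) k
          · exact mem_algebraicClosure_iff.1 (x j).2
          · exact hta k
    choose p hp using hj
    classical
    refine ⟨∑ j, Polynomial.aeval (MvPolynomial.X 0 : MvPolynomial (Fin (m + 1)) Qbar)
      (Lagrange.basis Finset.univ x j) * MvPolynomial.rename Fin.succ (p j), fun t ht => ?_⟩
    obtain ⟨q, hq, hqe⟩ := h1 t ht 0
    have hcons : ∀ s : ℂ, Function.update t 0 s = Fin.cons s (fun i => t i.succ) := by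
      intro s
      funext k
      refine Fin.cases ?_ (fun k => ?_) k
      · simp
      · simp
    have hself : Function.update t 0 (t 0) = t := Function.update_eq_self 0 t
    -- interpolation
    have hinj : Set.InjOn (fun j => (x j : ℂ)) (Finset.univ : Finset (Fin (n + 1))) := by
      intro a _ b _ h
      exact hx (Subtype.ext h)
    have hdeg : q.degree < ((Finset.univ : Finset (Fin (n + 1))).card : ℕ) := by
      rw [Finset.card_univ, Fintype.card_fin]
      refine lt_of_le_of_lt Polynomial.degree_le_natDegree ?_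
      exact_mod_cast Nat.lt_succ_of_le hq
    have hint := Lagrange.eq_interpolate hinj hdeg
    have h3 : f t = q.eval (t 0) := by
      have := hqe (t 0) (ht 0)
      rwa [hself] at this
    rw [h3, hint, Lagrange.interpolate_apply, Polynomial.eval_finsetSum, map_sum]
    refine Finset.sum_congr rfl fun j _ => ?_
    rw [Polynomial.eval_mul, Polynomial.eval_C, map_mul, MvPolynomial.aeval_rename, mul_comm]
    congr 1
    · have h4 : Lagrange.basis Finset.univ (fun j => (x j : ℂ)) j =
          (Lagrange.basis Finset.univ x j).map (algebraMap Qbar ℂ) := by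
        unfold Lagrange.basis Lagrange.basisDivisor
        rw [Polynomial.map_prod]
        refine Finset.prod_congr rfl fun k _ => ?_
        simp only [Polynomial.map_mul, Polynomial.map_C, Polynomial.map_sub, Polynomial.map_X]
        rfl
      rw [h4, Polynomial.eval_map_algebraMap, ← Polynomial.aeval_algHom_apply, MvPolynomial.aeval_X]
    · rw [← hqe _ (hxA j), hcons, hp j _ (fun i => ht i.succ)]
      rfl

theorem exists_poly {m : ℕ} {S : MvPolynomial (Fin m) ℂ} (hS : S ≠ 0) {f : (Fin m → ℂ) → ℂ}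
    (hf : ∀ t, MvPolynomial.eval t S ≠ 0 → AnalyticAt ℂ f t) {C : ℝ} {n : ℕ}
    (hb : ∀ t, MvPolynomial.eval t S ≠ 0 → ‖f t‖ ≤ C * (1 + ‖t‖) ^ n) {O : Set (Fin m → ℂ)}
    (hO : IsOpen O) (hne : O.Nonempty)
    (halg : ∀ t ∈ O, MvPolynomial.eval t S ≠ 0 → (∀ i, IsAlgebraic ℚ (t i)) → IsAlgebraic ℚ (f t)) :
    ∃ p : MvPolynomial (Fin m) Qbar, ∀ t, MvPolynomial.eval t S ≠ 0 → f t = MvPolynomial.aeval t p := by
  -- a good point
  obtain ⟨t₂, ht₂O, ht₂⟩ : ∃ t₂ ∈ O, MvPolynomial.eval t₂ S ≠ 0 := by
    by_contra hcon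
    push Not at hcon
    obtain ⟨t₁, ht₁⟩ := hne
    obtain ⟨ε, hε, hball⟩ := Metric.isOpen_iff.1 hO t₁ ht₁
    apply hS
    apply MvPolynomial.funext_set (fun i => Metric.ball (t₁ i) ε)
    · intro i
      exact infinite_of_mem_nhds (t₁ i) (Metric.ball_mem_nhds _ hε)
    · intro t ht
      rw [map_zero]
      apply hcon
      apply hball
      rw [Metric.mem_ball, dist_pi_lt_iff hε]
      intro i
      exact ht i (Set.mem_univ i)
  have hSc : Continuous fun t : Fin m → ℂ => MvPolynomial.eval t S := MvPolynomial.continuous_eval S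
  have hgood : IsOpen (O ∩ {t | MvPolynomial.eval t S ≠ 0}) :=
    hO.inter (isOpen_ne_fun hSc continuous_const)
  obtain ⟨δ, hδ, hball⟩ := Metric.isOpen_iff.1 hgood t₂ ⟨ht₂O, ht₂⟩
  have hmem : ∀ t : Fin m → ℂ, (∀ i, t i ∈ Metric.ball (t₂ i) δ) →
      t ∈ O ∩ {t | MvPolynomial.eval t S ≠ 0} := by
    intro t ht
    apply hball
    rw [Metric.mem_ball, dist_pi_lt_iff hδ]
    exact fun i => ht i
  obtain ⟨p, hp⟩ := sep_poly n m (fun i => Metric.ball (t₂ i) δ) (fun i => Metric.isOpen_ball)
    (fun i => ⟨t₂ i, Metric.mem_ball_self hδ⟩) f (by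
      intro t ht i
      -- the line in the direction `i`
      obtain ⟨q, hq, hqe⟩ := exists_line hf hb (hmem t ht).2 (Pi.single i (1 : ℂ))
      refine ⟨q.comp (Polynomial.X - Polynomial.C (t i)), ?_, fun s hs => ?_⟩
      · refine Polynomial.natDegree_comp_le.trans ?_
        rw [Polynomial.natDegree_X_sub_C, mul_one]
        exact hq
      · have h1 : t + (s - t i) • Pi.single i (1 : ℂ) = Function.update t i s := by
          funext k
          by_cases hk : k = i
          · subst hk
            simp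
          · simp [hk]
        have h2 : MvPolynomial.eval (t + (s - t i) • Pi.single i (1 : ℂ)) S ≠ 0 := by
          rw [h1]
          refine (hmem _ ?_).2
          intro k
          by_cases hk : k = i
          · subst hk
            simpa using hs
          · rw [Function.update_of_ne hk]
            exact ht k
        have h3 := hqe (s - t i) h2
        rw [h1] at h3
        rw [h3, Polynomial.eval_comp]
        simp)
    (by
      intro t ht hta
      exact halg t (hmem t ht).1 (hmem t ht).2 hta)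
  refine ⟨p, fun t ht => ?_⟩
  obtain ⟨q, -, hqe⟩ := exists_line hf hb ht₂ (t - t₂)
  let pL : Polynomial ℂ :=
    MvPolynomial.aeval (fun i => Polynomial.C (t₂ i) + Polynomial.X * Polynomial.C ((t - t₂) i)) p
  have hpL : ∀ s : ℂ, pL.eval s = MvPolynomial.aeval (t₂ + s • (t - t₂)) p := by
    intro s
    have h1 : pL.eval s = (Polynomial.evalRingHom s) (MvPolynomial.aeval
      (fun i => Polynomial.C (t₂ i) + Polynomial.X * Polynomial.C ((t - t₂) i)) p) := rfl
    rw [h1, MvPolynomial.aeval_def, MvPolynomial.hom_eval₂, MvPolynomial.aeval_def]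
    congr 1
    · ext x
      simp
    · funext i
      simp
  have hq : q = pL := by
    apply Polynomial.eq_of_infinite_eval_eq
    have hn : {s : ℂ | ∀ i, (t₂ + s • (t - t₂)) i ∈ Metric.ball (t₂ i) δ} ∈ 𝓝 (0 : ℂ) := by
      have h1 : Continuous fun s : ℂ => t₂ + s • (t - t₂) := by fun_prop
      have h2 : Metric.ball t₂ δ ∈ 𝓝 (t₂ + (0 : ℂ) • (t - t₂)) := by
        rw [zero_smul, add_zero]
        exact Metric.ball_mem_nhds _ hδ
      refine Filter.mem_of_superset (h1.continuousAt.preimage_mem_nhds h2) ?_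
      intro s hs
      rw [Set.mem_preimage, Metric.mem_ball, dist_pi_lt_iff hδ] at hs
      exact hs
    refine (infinite_of_mem_nhds _ hn).mono ?_
    intro s hs
    show q.eval s = pL.eval s
    rw [hpL, ← hp _ hs, hqe s (hmem _ hs).2]
  have h1 : t₂ + (1 : ℂ) • (t - t₂) = t := by
    rw [one_smul, add_sub_cancel]
  have h2 := hqe 1 (by rw [h1]; exact ht)
  rw [h1, hq, hpL, h1] at h2
  exact h2

end Pool.Agent.Helper79.FY
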