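import Pool.Agent.Helper79.FY.Conj

/-!
# FY-09: the conjugate of the set of the branches over `U`

`A = Fin r → ZMod (ℓ ^ k)`, `G(t, w, W) = ∑_l GG (f(t)) w l * W ^ l`.
* `star_point`: `t` algebraic, `t ∈ U`, `t'' = σ⁻¹ t`, `M` with `ms (cv t'') = M.map cv` (`exists_msQ`, `conj_S`), `w₀` = `w t` (algebraic: `HG.algebraic_point` or `reach_algebraic` for `base`), `X` from `conj_set`. `Qf (cv t'') ^ n * Tf (W ^ l e) (cv t'') = (g l)(t'')`; all these numbers are in `Qbar`; apply `σ`: with `(g l).map σ` at `t` equal to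
  `σ ((g l)(t''))`, and `Tf = ∑_(p ∈ M) p_w ^ l e(p_y)`, `e` rational: `((g l).map σ)(t) = (q'.map σ)(t) ^ n * ∑_(p ∈ M) (σ p_w) ^ l e(σ p_y)`. Multiply by `GG .. l` and sum over `l`: `∑_(p ∈ M) G(t, w₀, σ p_w) e(σ p_y)`; `G(t, w₀, σ p_w) = 0` if `σ p_w ≠ w₀` (`GG_mul`, `conj_eqn`), so only the `p` with `σ p_w = w₀`
  remain, and these give `G(t, w₀, w₀) ∑_(π ∈ X) e(y_π(t))` (`conj_set`).
* `exists_star`: for fixed `e`, `n`, `q'`, `g` both sides are analytic functions of `t ∈ U`. For a finite set `X` let `U_X` be the set of the `t ∈ U` where the identity holds for all `e`, `n`, `q'`, `g` as in `Star`. It is closed in `U`. By `star_point` the union of the `U_X` (there are finitely many `X`) contains the algebraic points of `U`, which are dense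
  in `U`, so it is `U`. One of the `U_X` has an interior point (a finite union of closed sets without interior points has no interior points), and then `U_X = U` by the identity theorem. The identity for all reached `b` by `reach_rel`.
-/

namespace Pool.Agent.Helper79.FY

open Matrix Pool.Agent.Helper79.BB Pool.Agent.Helper79.HH Pool.Agent.Helper79.HG Pool.Agent.Helper64.Per

variable {κ : IntermediateField ℚ Qbar} {m r ℓ μ : ℕ} [Fact ℓ.Prime] {U : Set (Fin m → ℂ)}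
  {w : (Fin m → ℂ) → ℂ} {S : MvPolynomial (Fin m) κ} {P : (Fin m → ℂ) → Matrix (Fin r) (Fin r) ℂ}
  {Y : ∀ k : ℕ, CoverData κ (Fin r → ZMod (ℓ ^ k)) U w} {lev : Fin r → ℤ} {j : ℤ}
  {ψ : Matrix (Fin r) (Fin r) ℤ}

/-- The polynomials `q'` and `g` give `Qf` and `Qf ^ n * Tf (W ^ l e)`. -/
def IsPair (S : MvPolynomial (Fin m) κ) (P : (Fin m → ℂ) → Matrix (Fin r) (Fin r) ℂ)
    (Y : ∀ k : ℕ, CoverData κ (Fin r → ZMod (ℓ ^ k)) U w) (k : ℕ)
    (e : MvPolynomial ((Fin r → ZMod (ℓ ^ k)) × Fin (Y k).N) ℚ) (n : ℕ) (q' : MvPolynomial (Fin m) Qbar)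
    (g : Fin μ → MvPolynomial (Fin m) Qbar) : Prop :=
  ∀ t : Fin m → ℂ, MvPolynomial.aeval t S ≠ 0 → Qf S P Y k t = MvPolynomial.aeval t q' ∧
    ∀ l : Fin μ, Qf S P Y k t ^ n * Tf S P Y k
      (MvPolynomial.X (Sum.inl ()) ^ (l : ℕ) * MvPolynomial.rename Sum.inr e) t = MvPolynomial.aeval t (g l)

/-- The identity at a point of an element. -/
def Ident (f : Fin μ → MvPolynomial (Fin m) κ) (σ : Qbar ≃ₐ[κ] Qbar) {k : ℕ}
    (X : Finset (Equiv.Perm (Fin r → ZMod (ℓ ^ k))))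
    (e : MvPolynomial ((Fin r → ZMod (ℓ ^ k)) × Fin (Y k).N) ℚ) (n : ℕ) (q' : MvPolynomial (Fin m) Qbar)
    (g : Fin μ → MvPolynomial (Fin m) Qbar) (b : Elem m (Ix Y)) (t : Fin m → ℂ) : Prop :=
  ∑ l, GG (fun l => MvPolynomial.aeval t (f l)) (b.w t) l *
      MvPolynomial.aeval t ((g l).map (σ : Qbar →+* Qbar)) =
    MvPolynomial.aeval t (q'.map (σ : Qbar →+* Qbar)) ^ n *
      (∑ l, GG (fun l => MvPolynomial.aeval t (f l)) (b.w t) l * b.w t ^ (l : ℕ)) *
      ∑ π ∈ X, MvPolynomial.aeval (fun x => b.f (Sum.inr ⟨k, (π x.1, x.2)⟩) t) e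

private theorem aeval_cvQ {X : Type} (p : MvPolynomial X Qbar) (x : X → Qbar) :
    MvPolynomial.aeval (cv x) p = ((MvPolynomial.eval x p : Qbar) : ℂ) := by
  have h1 := MvPolynomial.eval₂_comp (algebraMap Qbar ℂ) x p
  rw [MvPolynomial.aeval_def]
  exact h1.symm

private theorem aeval_cvR {X : Type} (e : MvPolynomial X ℚ) (x : X → Qbar) :
    MvPolynomial.aeval (cv x) e = ((MvPolynomial.aeval x e : Qbar) : ℂ) := by
  have h1 := MvPolynomial.comp_aeval_apply (R := ℚ) (f := x) (IsScalarTower.toAlgHom ℚ Qbar ℂ) e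
  exact h1.symm

private theorem sigma_aeval {X : Type} (σ : Qbar ≃ₐ[κ] Qbar) (e : MvPolynomial X ℚ) (x : X → Qbar) :
    σ (MvPolynomial.aeval x e) = MvPolynomial.aeval (fun i => σ (x i)) e := by
  have h1 := MvPolynomial.comp_aeval_apply (R := ℚ) (f := x) ((σ : Qbar →ₐ[κ] Qbar).restrictScalars ℚ) e
  exact h1

private theorem sigma_eval {X : Type} (σ : Qbar ≃ₐ[κ] Qbar) (p : MvPolynomial X Qbar) (x : X → Qbar) :
    σ (MvPolynomial.eval x p) =
      MvPolynomial.eval (fun i => σ (x i)) (p.map (σ : Qbar →+* Qbar)) := by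
  have h1 := MvPolynomial.map_eval (σ : Qbar →+* Qbar) x p
  exact h1

private theorem gg_zero {μ : ℕ} {f : Fin μ → ℂ} {w W : ℂ} (hw : w ^ μ = ∑ l, f l * w ^ (l : ℕ))
    (hW : W ^ μ = ∑ l, f l * W ^ (l : ℕ)) (hne : W ≠ w) :
    ∑ n, GG f w n * W ^ (n : ℕ) = 0 := by
  have h1 := GG_mul f w W
  rw [hw, hW, sub_self, sub_self, sub_self] at h1
  exact (mul_eq_zero.1 h1).resolve_left (sub_ne_zero.2 hne)

/-- The sum over the branches, from a pair. -/
private theorem pair_sum {k : ℕ} {e : MvPolynomial ((Fin r → ZMod (ℓ ^ k)) × Fin (Y k).N) ℚ} {n : ℕ}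
    {q' : MvPolynomial (Fin m) Qbar} {g : Fin μ → MvPolynomial (Fin m) Qbar}
    (hp : IsPair S P Y k e n q' g) (σ : Qbar ≃ₐ[κ] Qbar) {t t' : Fin m → Qbar}
    (ht : MvPolynomial.aeval (cv t') S ≠ 0) (hσt : ∀ i, σ (t' i) = t i) {N : ℕ} {pQ : Fin N → Vx Y k → Qbar}
    (hms : ms S P Y k (cv t') = Finset.univ.val.map fun i => cv (pQ i)) (l : Fin μ) :
    MvPolynomial.eval t ((g l).map (σ : Qbar →+* Qbar)) =
      MvPolynomial.eval t (q'.map (σ : Qbar →+* Qbar)) ^ n *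
        ∑ i, σ (pQ i (Sum.inl ())) ^ (l : ℕ) *
          MvPolynomial.aeval (fun x => σ (pQ i (Sum.inr x))) e := by
  have hσt' : (fun i => σ (t' i)) = t := funext hσt
  obtain ⟨h1, h2⟩ := hp _ ht
  have h3 := h2 l
  rw [h1, aeval_cvQ, aeval_cvQ, Tf, hms, Multiset.map_map] at h3
  have h4 : (Multiset.map ((fun p : Vx Y k → ℂ => MvPolynomial.aeval p
      (MvPolynomial.X (Sum.inl ()) ^ (l : ℕ) * MvPolynomial.rename Sum.inr e :
        MvPolynomial (Vx Y k) ℚ)) ∘ fun i => cv (pQ i)) Finset.univ.val).sum =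
      ∑ i, (((pQ i (Sum.inl ())) ^ (l : ℕ) *
        MvPolynomial.aeval (fun x => pQ i (Sum.inr x)) e : Qbar) : ℂ) := by
    change ∑ i, _ = _
    refine Finset.sum_congr rfl fun i _ => ?_
    simp only [Function.comp]
    rw [aeval_cvR, map_mul, map_pow, MvPolynomial.aeval_X, MvPolynomial.aeval_rename]
    rfl
  rw [h4] at h3
  have h5 : MvPolynomial.eval t' q' ^ n * ∑ i, ((pQ i (Sum.inl ())) ^ (l : ℕ) *
        MvPolynomial.aeval (fun x => pQ i (Sum.inr x)) e) = MvPolynomial.eval t' (g l) := by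
    apply Subtype.coe_injective
    push_cast
    push_cast at h3
    exact h3
  have h6 := congrArg σ h5
  rw [sigma_eval, hσt', map_mul, map_pow, sigma_eval, hσt', map_sum] at h6
  rw [← h6]
  congr 1
  refine Finset.sum_congr rfl fun i _ => ?_
  rw [map_mul, map_pow, sigma_aeval]

theorem star_point (h : IsLocalSystem S P Y lev j ψ) (hw : IsBranchM κ U μ w)
    {f : Fin μ → MvPolynomial (Fin m) κ}
    (hf : ∀ t ∈ U, w t ^ μ = ∑ l : Fin μ, MvPolynomial.aeval t (f l) * w t ^ (l : ℕ) ∧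
      (μ : ℂ) * w t ^ (μ - 1) ≠
        ∑ l : Fin μ, (l : ℕ) * MvPolynomial.aeval t (f l) * w t ^ ((l : ℕ) - 1))
    (σ : Qbar ≃ₐ[κ] Qbar) (k : ℕ) {t : Fin m → Qbar} (ht : cv t ∈ U) :
    ∃ X : Finset (Equiv.Perm (Fin r → ZMod (ℓ ^ k))),
      ∀ (e : MvPolynomial ((Fin r → ZMod (ℓ ^ k)) × Fin (Y k).N) ℚ) (n : ℕ) (q' : MvPolynomial (Fin m) Qbar)
        (g : Fin μ → MvPolynomial (Fin m) Qbar), IsPair S P Y k e n q' g →
        Ident f σ X e n q' g (base P Y) (cv t) := by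
  classical
  have hne : U.Nonempty := ⟨_, ht⟩
  have hS : MvPolynomial.aeval (cv t) S ≠ 0 := h.dom _ ht
  have hS'' : MvPolynomial.aeval (cv fun i => σ.symm (t i)) S ≠ 0 := (conj_S σ.symm t).2 hS
  have halg : IsAlgebraic ℚ (w (cv t)) :=
    reach_algebraic h hne hw (b := base P Y) Relation.ReflTransGen.refl (t := cv t) ht
      (fun i => mem_algebraicClosure_iff.1 (t i).2) k (Sum.inl ())
  let w₀ : Qbar := ⟨w (cv t), mem_algebraicClosure_iff.2 halg⟩
  have hw₀ : (w₀ : ℂ) = w (cv t) := rfl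
  obtain ⟨M, hM⟩ := exists_msQ h hne hw k hS''
  obtain ⟨X, hX⟩ := conj_set h hne hw hf σ ht hw₀ hM
  refine ⟨X, fun e n q' g hp => ?_⟩
  -- enumerate
  obtain ⟨N, pQ, hpQ⟩ : ∃ (N : ℕ) (pQ : Fin N → Vx Y k → Qbar), M = Finset.univ.val.map pQ := by
    refine ⟨M.toList.length, M.toList.get, ?_⟩
    rw [Fin.univ_val_map, List.ofFn_get, Multiset.coe_toList]
  have hms : ms S P Y k (cv fun i => σ.symm (t i)) = Finset.univ.val.map fun i => cv (pQ i) := by
    rw [hM, hpQ, Multiset.map_map]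
    rfl
  have hσt : ∀ i, σ (σ.symm (t i)) = t i := fun i => σ.apply_symm_apply _
  have hconj : ∀ i, ((σ (pQ i (Sum.inl ())) : Qbar) : ℂ) ^ μ = ∑ l : Fin μ,
      MvPolynomial.aeval (cv t) (f l) * ((σ (pQ i (Sum.inl ())) : Qbar) : ℂ) ^ (l : ℕ) := by
    intro i
    have h1 := conj_eqn h hne hw (fun t ht => (hf t ht).1) σ (k := k) (t := t) hS hM (pQ i)
      (by rw [hpQ]; exact Multiset.mem_map_of_mem _ (Finset.mem_univ_val i))
    have h2 := congrArg (fun z : Qbar => (z : ℂ)) h1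
    push_cast at h2
    rw [h2]
    refine Finset.sum_congr rfl fun l _ => ?_
    rw [aeval_cv]
  unfold Ident
  have hbw : (base P Y).w = w := rfl
  rw [hbw]
  set G0 : ℂ := ∑ l, GG (fun l => MvPolynomial.aeval (cv t) (f l)) (w (cv t)) l * w (cv t) ^ (l : ℕ)
    with hG0
  set Q : ℂ := MvPolynomial.aeval (cv t) (q'.map (σ : Qbar →+* Qbar)) with hQ
  let I : Finset (Fin N) := Finset.univ.filter fun i => σ (pQ i (Sum.inl ())) = w₀
  have hI : ∀ i, i ∈ I ↔ ((σ (pQ i (Sum.inl ())) : Qbar) : ℂ) = w (cv t) := by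
    intro i
    rw [Finset.mem_filter]
    constructor
    · rintro ⟨-, h1⟩
      rw [h1]
    · intro h1
      exact ⟨Finset.mem_univ i, Subtype.ext h1⟩
  have hfac : ∀ i, ∑ l, GG (fun l => MvPolynomial.aeval (cv t) (f l)) (w (cv t)) l *
      ((σ (pQ i (Sum.inl ())) : Qbar) : ℂ) ^ (l : ℕ) = if i ∈ I then G0 else 0 := by
    intro i
    by_cases hi : i ∈ I
    · rw [if_pos hi, (hI i).1 hi]
    · rw [if_neg hi]
      exact gg_zero (hf _ ht).1 (hconj i) fun h0 => hi ((hI i).2 h0)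
  have hleft : ∑ l, GG (fun l => MvPolynomial.aeval (cv t) (f l)) (w (cv t)) l *
      MvPolynomial.aeval (cv t) ((g l).map (σ : Qbar →+* Qbar)) =
      Q ^ n * (G0 * ∑ i ∈ I, MvPolynomial.aeval (fun x => ((σ (pQ i (Sum.inr x)) : Qbar) : ℂ)) e) := by
    have h1 : ∀ l : Fin μ, MvPolynomial.aeval (cv t) ((g l).map (σ : Qbar →+* Qbar)) =
        Q ^ n * ∑ i, ((σ (pQ i (Sum.inl ())) : Qbar) : ℂ) ^ (l : ℕ) *
          MvPolynomial.aeval (fun x => ((σ (pQ i (Sum.inr x)) : Qbar) : ℂ)) e := by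
      intro l
      rw [aeval_cvQ, pair_sum hp σ hS'' hσt hms l, hQ, aeval_cvQ]
      push_cast
      congr 1
      refine Finset.sum_congr rfl fun i _ => ?_
      congr 1
      exact (aeval_cvR e fun x => σ (pQ i (Sum.inr x))).symm
    calc ∑ l, GG (fun l => MvPolynomial.aeval (cv t) (f l)) (w (cv t)) l *
          MvPolynomial.aeval (cv t) ((g l).map (σ : Qbar →+* Qbar))
        = ∑ l, ∑ i, Q ^ n * ((GG (fun l => MvPolynomial.aeval (cv t) (f l)) (w (cv t)) l *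
            ((σ (pQ i (Sum.inl ())) : Qbar) : ℂ) ^ (l : ℕ)) *
            MvPolynomial.aeval (fun x => ((σ (pQ i (Sum.inr x)) : Qbar) : ℂ)) e) := by
          refine Finset.sum_congr rfl fun l _ => ?_
          rw [h1 l, Finset.mul_sum, Finset.mul_sum]
          refine Finset.sum_congr rfl fun i _ => ?_
          ring
      _ = ∑ i, ∑ l, Q ^ n * ((GG (fun l => MvPolynomial.aeval (cv t) (f l)) (w (cv t)) l *
            ((σ (pQ i (Sum.inl ())) : Qbar) : ℂ) ^ (l : ℕ)) *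
            MvPolynomial.aeval (fun x => ((σ (pQ i (Sum.inr x)) : Qbar) : ℂ)) e) :=
          Finset.sum_comm
      _ = ∑ i, Q ^ n * ((if i ∈ I then G0 else 0) *
            MvPolynomial.aeval (fun x => ((σ (pQ i (Sum.inr x)) : Qbar) : ℂ)) e) := by
          refine Finset.sum_congr rfl fun i _ => ?_
          rw [← hfac i, Finset.sum_mul, Finset.mul_sum]
      _ = Q ^ n * (G0 * ∑ i ∈ I,
            MvPolynomial.aeval (fun x => ((σ (pQ i (Sum.inr x)) : Qbar) : ℂ)) e) := by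
          rw [← Finset.mul_sum]
          congr 1
          rw [Finset.mul_sum, ← Finset.sum_filter_add_sum_filter_not Finset.univ (fun i => i ∈ I)]
          rw [Finset.sum_congr rfl (g := fun i => G0 *
            MvPolynomial.aeval (fun x => ((σ (pQ i (Sum.inr x)) : Qbar) : ℂ)) e)
            (fun i hi => by rw [if_pos (Finset.mem_filter.1 hi).2]),
            Finset.sum_eq_zero (s := Finset.univ.filter fun i => ¬ i ∈ I)
            (fun i hi => by rw [if_neg (Finset.mem_filter.1 hi).2, zero_mul]), add_zero,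
            Finset.filter_mem_eq_inter, Finset.univ_inter]
  rw [hleft, mul_assoc]
  congr 2
  -- the set `X`
  have h1 : ∑ i ∈ I, MvPolynomial.aeval (fun x => ((σ (pQ i (Sum.inr x)) : Qbar) : ℂ)) e =
      (((M.filter fun p => σ (p (Sum.inl ())) = w₀).map
        (fun p (x : (Fin r → ZMod (ℓ ^ k)) × Fin (Y k).N) => ((σ (p (Sum.inr x)) : Qbar) : ℂ))).map
        fun y => MvPolynomial.aeval y e).sum := by
    rw [hpQ, Multiset.filter_map, Multiset.map_map, Multiset.map_map]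
    rfl
  rw [h1, hX, Multiset.map_map]
  change ∑ π ∈ X, _ = _
  refine Finset.sum_congr rfl fun π _ => ?_
  simp only [Function.comp]
  congr 1
  congr 1
  funext x
  exact (congrFun (base_inr (P := P) k (π x.1) x.2) (cv t)).symm

/-- The values of a polynomial at analytic functions are analytic. -/
private theorem analytic_mv {κ : Type} [CommRing κ] [Algebra κ ℂ] {m : ℕ} {X : Type}
    {D : Set (Fin m → ℂ)} (Q : MvPolynomial X κ) (τ : (Fin m → ℂ) → X → ℂ)
    (hτ : ∀ i, AnalyticOnNhd ℂ (fun t => τ t i) D) :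
    AnalyticOnNhd ℂ (fun t => MvPolynomial.aeval (τ t) Q) D := by
  induction Q using MvPolynomial.induction_on with
  | C k =>
    simp only [MvPolynomial.aeval_C]
    exact analyticOnNhd_const
  | add p q hp hq =>
    simp only [map_add]
    exact hp.add hq
  | mul_X p i hp =>
    simp only [map_mul, MvPolynomial.aeval_X]
    exact hp.mul (hτ i)

private theorem analytic_proj {m : ℕ} {D : Set (Fin m → ℂ)} (i : Fin m) :
    AnalyticOnNhd ℂ (fun t : Fin m → ℂ => t i) D :=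
  fun y _ => (ContinuousLinearMap.proj (R := ℂ) (φ := fun _ : Fin m => ℂ) i).analyticAt y

/-- The difference of the two sides of `Ident`. -/
private noncomputable def GI (f : Fin μ → MvPolynomial (Fin m) κ) (σ : Qbar ≃ₐ[κ] Qbar) {k : ℕ}
    (X : Finset (Equiv.Perm (Fin r → ZMod (ℓ ^ k))))
    (e : MvPolynomial ((Fin r → ZMod (ℓ ^ k)) × Fin (Y k).N) ℚ) (n : ℕ) (q' : MvPolynomial (Fin m) Qbar)
    (g : Fin μ → MvPolynomial (Fin m) Qbar) (t : Fin m → ℂ) (ω : ℂ) (φ : Ix Y → ℂ) : ℂ :=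
  ∑ l, GG (fun l => MvPolynomial.aeval t (f l)) ω l *
      MvPolynomial.aeval t ((g l).map (σ : Qbar →+* Qbar)) -
    MvPolynomial.aeval t (q'.map (σ : Qbar →+* Qbar)) ^ n *
      (∑ l, GG (fun l => MvPolynomial.aeval t (f l)) ω l * ω ^ (l : ℕ)) *
      ∑ π ∈ X, MvPolynomial.aeval (fun x => φ (Sum.inr ⟨k, (π x.1, x.2)⟩)) e

private theorem ident_iff (f : Fin μ → MvPolynomial (Fin m) κ) (σ : Qbar ≃ₐ[κ] Qbar) {k : ℕ}
    (X : Finset (Equiv.Perm (Fin r → ZMod (ℓ ^ k))))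
    (e : MvPolynomial ((Fin r → ZMod (ℓ ^ k)) × Fin (Y k).N) ℚ) (n : ℕ) (q' : MvPolynomial (Fin m) Qbar)
    (g : Fin μ → MvPolynomial (Fin m) Qbar) (b : Elem m (Ix Y)) (t : Fin m → ℂ) :
    Ident f σ X e n q' g b t ↔ GI f σ X e n q' g t (b.w t) (fun i => b.f i t) = 0 := by
  unfold Ident GI
  rw [sub_eq_zero]

private theorem GI_analytic (f : Fin μ → MvPolynomial (Fin m) κ) (σ : Qbar ≃ₐ[κ] Qbar) {k : ℕ}
    (X : Finset (Equiv.Perm (Fin r → ZMod (ℓ ^ k))))
    (e : MvPolynomial ((Fin r → ZMod (ℓ ^ k)) × Fin (Y k).N) ℚ) (n : ℕ) (q' : MvPolynomial (Fin m) Qbar)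
    (g : Fin μ → MvPolynomial (Fin m) Qbar) (b : Elem m (Ix Y)) (hb : b.IsAnalytic) :
    AnalyticOnNhd ℂ (fun t => GI f σ X e n q' g t (b.w t) fun i => b.f i t) b.U := by
  have hGG : ∀ l, AnalyticOnNhd ℂ (fun t => GG (fun l => MvPolynomial.aeval t (f l)) (b.w t) l) b.U := by
    intro l
    unfold GG
    refine (hb.2.2.1.pow _).sub (Finset.analyticOnNhd_fun_sum _ fun l' _ => ?_)
    split_ifs
    · exact (analytic_mv (f l') (fun t => t) analytic_proj).mul (hb.2.2.1.pow _)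
    · exact analyticOnNhd_const
  unfold GI
  refine AnalyticOnNhd.sub (Finset.analyticOnNhd_fun_sum _ fun l _ => ?_)
    (AnalyticOnNhd.mul (AnalyticOnNhd.mul ?_ (Finset.analyticOnNhd_fun_sum _ fun l _ => ?_))
      (Finset.analyticOnNhd_fun_sum _ fun π _ => ?_))
  · exact (hGG l).mul (analytic_mv _ (fun t => t) analytic_proj)
  · exact (analytic_mv _ (fun t => t) analytic_proj).pow _
  · exact (hGG l).mul (hb.2.2.1.pow _)
  · exact analytic_mv e (fun t x => b.f (Sum.inr ⟨k, (π x.1, x.2)⟩) t) fun x => hb.2.2.2 _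

/-- Algebraic points in open sets. -/
private theorem exists_algebraic {O : Set (Fin m → ℂ)} (hO : IsOpen O) (hne : O.Nonempty) :
    ∃ t : Fin m → Qbar, cv t ∈ O := by
  have hd : DenseRange (fun q : ℚ × ℚ => ((q.1 : ℝ) : ℂ) + ((q.2 : ℝ) : ℂ) * Complex.I) := by
    have h1 : DenseRange (fun q : ℚ × ℚ => ((q.1 : ℝ), (q.2 : ℝ))) :=
      Rat.denseRange_cast.prodMap Rat.denseRange_cast
    have h2 : Function.Surjective (fun q : ℝ × ℝ => (q.1 : ℂ) + (q.2 : ℂ) * Complex.I) := by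
      intro z
      exact ⟨(z.re, z.im), Complex.re_add_im z⟩
    have h3 : Continuous (fun q : ℝ × ℝ => (q.1 : ℂ) + (q.2 : ℂ) * Complex.I) := by fun_prop
    exact h2.denseRange.comp h1 h3
  have hI : IsAlgebraic ℚ Complex.I := by
    refine ⟨Polynomial.X ^ 2 + 1, ?_, ?_⟩
    · intro h
      have := congrArg (Polynomial.eval 0) h
      simp at this
    · simp
  have hpt : ∀ q : ℚ × ℚ, ∃ x : Qbar, (x : ℂ) = ((q.1 : ℝ) : ℂ) + ((q.2 : ℝ) : ℂ) * Complex.I := by
    intro q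
    have halg : IsAlgebraic ℚ (((q.1 : ℝ) : ℂ) + ((q.2 : ℝ) : ℂ) * Complex.I) := by
      have h1 : IsAlgebraic ℚ (((q.1 : ℝ) : ℂ)) := by
        have : (((q.1 : ℝ) : ℂ)) = algebraMap ℚ ℂ q.1 := by simp
        rw [this]
        exact isAlgebraic_algebraMap _
      have h2 : IsAlgebraic ℚ (((q.2 : ℝ) : ℂ)) := by
        have : (((q.2 : ℝ) : ℂ)) = algebraMap ℚ ℂ q.2 := by simp
        rw [this]
        exact isAlgebraic_algebraMap _
      exact h1.add (h2.mul hI)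
    exact ⟨⟨_, mem_algebraicClosure_iff.2 halg⟩, rfl⟩
  obtain ⟨z, hz⟩ := hne
  obtain ⟨ε, hε, hsub⟩ := Metric.isOpen_iff.1 hO z hz
  have h1 : ∀ i, ∃ x : Qbar, dist (x : ℂ) (z i) < ε := by
    intro i
    obtain ⟨q, hq⟩ := hd.exists_mem_open (Metric.isOpen_ball (x := z i) (ε := ε))
      ⟨z i, Metric.mem_ball_self hε⟩
    obtain ⟨x, hx⟩ := hpt q
    exact ⟨x, by rw [hx]; exact hq⟩
  choose x hx using h1
  refine ⟨x, hsub ?_⟩
  rw [Metric.mem_ball, dist_pi_lt_iff hε]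
  exact hx

/-- Finitely many analytic functions which are not identically zero are different from zero on an open set. -/
private theorem exists_nonzero {A : Type} {U : Set (Fin m → ℂ)} (hU : IsOpen U) (hU' : IsPreconnected U)
    (hne : U.Nonempty) (F : A → (Fin m → ℂ) → ℂ) (hF : ∀ a, AnalyticOnNhd ℂ (F a) U)
    (h0 : ∀ a, ∃ t ∈ U, F a t ≠ 0) (s : Finset A) :
    ∃ O : Set (Fin m → ℂ), IsOpen O ∧ O.Nonempty ∧ O ⊆ U ∧ ∀ a ∈ s, ∀ t ∈ O, F a t ≠ 0 := by
  classical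
  induction s using Finset.induction_on with
  | empty => exact ⟨U, hU, hne, subset_rfl, fun a ha => absurd ha (Finset.notMem_empty a)⟩
  | insert a s _ ih =>
    obtain ⟨O, hO, hOne, hOU, hs⟩ := ih
    have h1 : ∃ t ∈ O, F a t ≠ 0 := by
      by_contra hcon
      push Not at hcon
      obtain ⟨y, hy⟩ := hOne
      obtain ⟨t, ht, hta⟩ := h0 a
      apply hta
      refine (hF a).eqOn_zero_of_preconnected_of_eventuallyEq_zero hU' (hOU hy) ?_ ht
      filter_upwards [hO.mem_nhds hy] with x hx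
      exact hcon x hx
    obtain ⟨t, ht, hta⟩ := h1
    have hcont : ContinuousOn (F a) O := ((hF a).mono hOU).continuousOn
    refine ⟨O ∩ F a ⁻¹' {0}ᶜ, hcont.isOpen_inter_preimage hO isOpen_compl_singleton,
      ⟨t, ht, hta⟩, fun x hx => hOU hx.1, ?_⟩
    intro a' ha' x hx
    rcases Finset.mem_insert.1 ha' with rfl | h2
    · exact hx.2
    · exact hs a' h2 x hx.1

theorem exists_star (h : IsLocalSystem S P Y lev j ψ) (hne : U.Nonempty) (hw : IsBranchM κ U μ w)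
    {f : Fin μ → MvPolynomial (Fin m) κ}
    (hf : ∀ t ∈ U, w t ^ μ = ∑ l : Fin μ, MvPolynomial.aeval t (f l) * w t ^ (l : ℕ) ∧
      (μ : ℂ) * w t ^ (μ - 1) ≠
        ∑ l : Fin μ, (l : ℕ) * MvPolynomial.aeval t (f l) * w t ^ ((l : ℕ) - 1))
    (σ : Qbar ≃ₐ[κ] Qbar) (k : ℕ) :
    ∃ X : Finset (Equiv.Perm (Fin r → ZMod (ℓ ^ k))),
      ∀ (e : MvPolynomial ((Fin r → ZMod (ℓ ^ k)) × Fin (Y k).N) ℚ) (n : ℕ) (q' : MvPolynomial (Fin m) Qbar)
        (g : Fin μ → MvPolynomial (Fin m) Qbar), IsPair S P Y k e n q' g →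
        ∀ b, Reach S (base P Y) b → ∀ t ∈ b.U, Ident f σ X e n q' g b t := by
  classical
  suffices hmain : ∃ X : Finset (Equiv.Perm (Fin r → ZMod (ℓ ^ k))),
      ∀ (e : MvPolynomial ((Fin r → ZMod (ℓ ^ k)) × Fin (Y k).N) ℚ) (n : ℕ) (q' : MvPolynomial (Fin m) Qbar)
        (g : Fin μ → MvPolynomial (Fin m) Qbar), IsPair S P Y k e n q' g →
        ∀ t ∈ U, Ident f σ X e n q' g (base P Y) t by
    obtain ⟨X, hX⟩ := hmain
    refine ⟨X, fun e n q' g hp b hb t ht => ?_⟩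
    rw [ident_iff]
    refine reach_rel (a := base P Y) (G := GI f σ X e n q' g)
      (fun c hc => GI_analytic f σ X e n q' g c hc) hb ?_ t ht
    intro s hs
    rw [← ident_iff]
    exact hX e n q' g hp s hs
  by_contra hcon
  push Not at hcon
  choose e n q' g hp t htU htn using hcon
  have hbase := h.analytic
  obtain ⟨O, hO, hOne, hOU, hOn⟩ := exists_nonzero (U := U) hbase.1 hbase.2.1 hne
    (fun (X : Finset (Equiv.Perm (Fin r → ZMod (ℓ ^ k)))) t =>
      GI f σ X (e X) (n X) (q' X) (g X) t ((base P Y).w t) fun i => (base P Y).f i t)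
    (fun X => GI_analytic f σ X (e X) (n X) (q' X) (g X) (base P Y) hbase)
    (fun X => ⟨t X, htU X, fun h0 => htn X ((ident_iff f σ X (e X) (n X) (q' X) (g X) _ _).2 h0)⟩)
    Finset.univ
  obtain ⟨s, hs⟩ := exists_algebraic hO hOne
  obtain ⟨X, hX⟩ := star_point h hw hf σ k (hOU hs)
  exact hOn X (Finset.mem_univ X) (cv s) hs
    ((ident_iff f σ X (e X) (n X) (q' X) (g X) _ _).1 (hX (e X) (n X) (q' X) (g X) (hp X)))

end Pool.Agent.Helper79.FY
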