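import Pool.Agent.Helper79.FY.Growth
import Pool.Agent.Helper79.FY.Rat

/-!
# FY-06: symmetric functions of the branches are rational functions over the algebraic numbers

`S₁ = S.map (algebraMap κ ℂ)`, `MvPolynomial.eval t S₁ = MvPolynomial.aeval t S`.
On a ball `D` with `S ≠ 0` and representatives `G` (`exists_reps`, `ms_eq`): `Qf t = ∏_i q(t, (G i).w t)`, `Tf e t = ∑_i e(val k (G i) t)`: analytic on `D`. `Qf t ≠ 0` (`cover`).
* `exists_Q`: `exists_poly` for `Qf`: growth: the number of factors is not bounded a priori over different balls: let `n₀` be this number for one ball; it is the same for all points (`card_ms`: the number of elements of `ms t` is locally constant on the set `S ≠ 0` (`ms_eq` on a ball), which is connected: join two points by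
  the complex line: the line minus finitely many points is path connected, or: continue along two segments in convex open sets as in `FX.Conn` (`Pool/Agent/Helper79/FX/Conn.lean`); `Set.Countable.isPathConnected_compl_of_one_lt_rank` or `Complex.isConnected..`). Each factor is bounded by `bound_q`. Algebraic values: `reach_algebraic`.
* `exists_T`: `f t = Qf t ^ N * Tf e t`, `N ≥ totalDegree e`. For each `i` and each monomial of `e`, of degree `d ≤ N`: `Qf ^ N * w ^ a ∏ y ^ b` is a product of `N - ∑ b` factors `Qf`, of `a` factors `w` and of `∑ b` factors `Qf * y = (q * y) ∏_(i' ≠ i) q(t, (G i').w t)`: bounded by `C (1 + ‖t‖) ^ n`. `exists_poly` with `O` = any ball.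
-/

namespace Pool.Agent.Helper79.FY

open Matrix Pool.Agent.Helper79.BB Pool.Agent.Helper79.HH Pool.Agent.Helper79.HG Pool.Agent.Helper64.Per

variable {κ : IntermediateField ℚ Qbar} {m r ℓ μ : ℕ} [Fact ℓ.Prime] {U : Set (Fin m → ℂ)}
  {w : (Fin m → ℂ) → ℂ} {S : MvPolynomial (Fin m) κ} {P : (Fin m → ℂ) → Matrix (Fin r) (Fin r) ℂ}
  {Y : ∀ k : ℕ, CoverData κ (Fin r → ZMod (ℓ ^ k)) U w} {lev : Fin r → ℤ} {j : ℤ}
  {ψ : Matrix (Fin r) (Fin r) ℤ}

/-- The product of the denominators over all branches. -/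
noncomputable def Qf (S : MvPolynomial (Fin m) κ) (P : (Fin m → ℂ) → Matrix (Fin r) (Fin r) ℂ)
    (Y : ∀ k : ℕ, CoverData κ (Fin r → ZMod (ℓ ^ k)) U w) (k : ℕ) (t : Fin m → ℂ) : ℂ :=
  ((ms S P Y k t).map fun p => MvPolynomial.aeval (Sum.elim t fun _ => p (Sum.inl ())) (Y k).q).prod

/-- The sum of the values of the polynomial `e` over all branches. -/
noncomputable def Tf (S : MvPolynomial (Fin m) κ) (P : (Fin m → ℂ) → Matrix (Fin r) (Fin r) ℂ)
    (Y : ∀ k : ℕ, CoverData κ (Fin r → ZMod (ℓ ^ k)) U w) (k : ℕ) (e : MvPolynomial (Vx Y k) ℚ)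
    (t : Fin m → ℂ) : ℂ :=
  ((ms S P Y k t).map fun p => MvPolynomial.aeval p e).sum

omit [Fact ℓ.Prime] in
private theorem eval_map' (S : MvPolynomial (Fin m) κ) (t : Fin m → ℂ) :
    MvPolynomial.eval t (S.map (algebraMap κ ℂ)) = MvPolynomial.aeval t S := by
  rw [MvPolynomial.eval_map, MvPolynomial.aeval_def]

private theorem isOpen_ne (S : MvPolynomial (Fin m) κ) :
    IsOpen {t : Fin m → ℂ | MvPolynomial.aeval t S ≠ 0} := by
  have h : IsOpen {t : Fin m → ℂ | MvPolynomial.eval t (S.map (algebraMap κ ℂ)) ≠ 0} :=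
    isOpen_ne_fun (MvPolynomial.continuous_eval _) continuous_const
  simpa only [eval_map'] using h

private theorem alg_aeval {X R : Type} [CommRing R] [Algebra R ℂ]
    (hR : ∀ a : R, IsAlgebraic ℚ (algebraMap R ℂ a)) {x : X → ℂ} (hx : ∀ i, IsAlgebraic ℚ (x i))
    (p : MvPolynomial X R) : IsAlgebraic ℚ (MvPolynomial.aeval x p) := by
  induction p using MvPolynomial.induction_on with
  | C a => rw [MvPolynomial.aeval_C]; exact hR a
  | add p q hp hq => rw [map_add]; exact hp.add hq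
  | mul_X p i hp => rw [map_mul, MvPolynomial.aeval_X]; exact hp.mul (hx i)

private theorem alg_kappa (a : κ) : IsAlgebraic ℚ (algebraMap κ ℂ a) :=
  mem_algebraicClosure_iff.1 (a : Qbar).2

/-- The restriction of a polynomial to a line. -/
private theorem exists_line_poly (S : MvPolynomial (Fin m) ℂ) (t₀ v : Fin m → ℂ) :
    ∃ q : Polynomial ℂ, ∀ z : ℂ, q.eval z = MvPolynomial.eval (t₀ + z • v) S := by
  refine ⟨MvPolynomial.aeval (fun i => Polynomial.C (t₀ i) + Polynomial.X * Polynomial.C (v i)) S,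
    fun z => ?_⟩
  have h : (Polynomial.evalRingHom z).comp
      (MvPolynomial.aeval (R := ℂ)
        (fun i => Polynomial.C (t₀ i) + Polynomial.X * Polynomial.C (v i))).toRingHom =
      MvPolynomial.eval (t₀ + z • v) := by
    apply MvPolynomial.ringHom_ext
    · intro c
      simp
    · intro i
      simp
      ring
  have := congrArg (fun f : MvPolynomial (Fin m) ℂ →+* ℂ => f S) h
  simpa using this

/-- A finite set of complex numbers without `0` and `1` is avoided by two segments from `0` to `z` and from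
`z` to `1`. -/
private theorem exists_mid (F : Finset ℂ) (h0 : (0 : ℂ) ∉ F) (h1 : (1 : ℂ) ∉ F) :
    ∃ z : ℂ, (∀ s : ℝ, 0 ≤ s → s ≤ 1 → (s : ℂ) * z ∉ F) ∧
      ∀ s : ℝ, 0 ≤ s → s ≤ 1 → (1 : ℂ) - (s : ℂ) * (1 - z) ∉ F := by
  obtain ⟨ε, hε⟩ := Infinite.exists_notMem_finset
    (F.image (fun σ : ℂ => σ.im / (2 * σ.re)) ∪ F.image (fun σ : ℂ => σ.im / (2 * (1 - σ.re))))
  rw [Finset.mem_union, not_or] at hε
  refine ⟨⟨1 / 2, ε⟩, fun s hs0 hs1 hF => ?_, fun s hs0 hs1 hF => ?_⟩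
  · by_cases hs : s = 0
    · apply h0
      simpa [hs] using hF
    · apply hε.1
      rw [Finset.mem_image]
      refine ⟨_, hF, ?_⟩
      have hs' : s ≠ 0 := hs
      simp only [Complex.mul_im, Complex.mul_re, Complex.ofReal_re, Complex.ofReal_im]
      rw [show (2 * (s * (1 / 2) - 0 * ε) : ℝ) = s by ring,
        show (s * ε + 0 * (1 / 2) : ℝ) = s * ε by ring]
      field_simp
  · by_cases hs : s = 0
    · apply h1
      simpa [hs] using hF
    · apply hε.2
      rw [Finset.mem_image]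
      refine ⟨_, hF, ?_⟩
      simp only [Complex.mul_im, Complex.mul_re, Complex.ofReal_re, Complex.ofReal_im,
        Complex.sub_re, Complex.sub_im, Complex.one_re, Complex.one_im]
      field_simp
      ring

/-- A segment outside `S = 0` has a convex open neighbourhood outside `S = 0`. -/
private theorem exists_nhd (S : MvPolynomial (Fin m) κ) (x y : Fin m → ℂ)
    (h : ∀ t ∈ segment ℝ x y, MvPolynomial.aeval t S ≠ 0) :
    ∃ D : Set (Fin m → ℂ), IsOpen D ∧ Convex ℝ D ∧ (∀ t ∈ D, MvPolynomial.aeval t S ≠ 0) ∧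
      x ∈ D ∧ y ∈ D := by
  have hO := isOpen_ne S
  have hK : IsCompact (segment ℝ x y) := by
    rw [segment_eq_image]
    exact isCompact_Icc.image (by fun_prop)
  obtain ⟨δ, hδ, hsub⟩ := hK.exists_thickening_subset_open hO (fun t ht => h t ht)
  refine ⟨Metric.thickening δ (segment ℝ x y), Metric.isOpen_thickening,
    (convex_segment x y).thickening δ, fun t ht => hsub ht, ?_, ?_⟩
  · exact Metric.self_subset_thickening hδ _ (left_mem_segment ℝ x y)
  · exact Metric.self_subset_thickening hδ _ (right_mem_segment ℝ x y)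

private theorem card_eq_of_convex (h : IsLocalSystem S P Y lev j ψ) (hne : U.Nonempty)
    (hw : IsBranchM κ U μ w) (k : ℕ) {D : Set (Fin m → ℂ)} (hD : IsOpen D) (hDc : Convex ℝ D)
    (hDS : ∀ t ∈ D, MvPolynomial.aeval t S ≠ 0) {t t' : Fin m → ℂ} (ht : t ∈ D) (ht' : t' ∈ D) :
    (ms S P Y k t).card = (ms S P Y k t').card := by
  obtain ⟨n, G, hG⟩ := exists_reps h hne hw k hD hDc hDS ⟨t, ht⟩
  rw [ms_eq h hD hDc hDS hG ht, ms_eq h hD hDc hDS hG ht', Multiset.card_map, Multiset.card_map]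

/-- The number of the branches is the same at all points. -/
theorem card_ms (h : IsLocalSystem S P Y lev j ψ) (hne : U.Nonempty) (hw : IsBranchM κ U μ w) (k : ℕ)
    {t t' : Fin m → ℂ} (ht : MvPolynomial.aeval t S ≠ 0) (ht' : MvPolynomial.aeval t' S ≠ 0) :
    (ms S P Y k t).card = (ms S P Y k t').card := by
  obtain ⟨q, hq⟩ := exists_line_poly (S.map (algebraMap κ ℂ)) t (t' - t)
  simp only [eval_map'] at hq
  have hq0 : q.eval 0 ≠ 0 := by
    rw [hq]
    simpa using ht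
  have hq1 : q.eval 1 ≠ 0 := by
    rw [hq]
    simpa using ht'
  have hqne : q ≠ 0 := by
    rintro rfl
    simp at hq0
  obtain ⟨z, hz1, hz2⟩ := exists_mid q.roots.toFinset
    (by simpa [hqne, Polynomial.IsRoot] using hq0) (by simpa [hqne, Polynomial.IsRoot] using hq1)
  have hroot : ∀ w : ℂ, w ∉ q.roots.toFinset →
      MvPolynomial.aeval (t + w • (t' - t)) S ≠ 0 := by
    intro w hw h0
    apply hw
    rw [Multiset.mem_toFinset, Polynomial.mem_roots hqne, Polynomial.IsRoot, hq, h0]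
  set p : Fin m → ℂ := t + z • (t' - t) with hp
  obtain ⟨D₁, hD₁, hD₁c, hD₁S, hx₁, hy₁⟩ := exists_nhd S t p (by
    intro u hu
    rw [segment_eq_image'] at hu
    obtain ⟨s, ⟨hs0, hs1⟩, rfl⟩ := hu
    have := hroot _ (hz1 s hs0 hs1)
    have he : t + s • (p - t) = t + ((s : ℂ) * z) • (t' - t) := by
      ext i
      simp [hp, mul_assoc]
    simpa only [he] using this)
  obtain ⟨D₂, hD₂, hD₂c, hD₂S, hx₂, hy₂⟩ := exists_nhd S t' p (by
    intro u hu
    rw [segment_eq_image'] at hu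
    obtain ⟨s, ⟨hs0, hs1⟩, rfl⟩ := hu
    have := hroot _ (hz2 s hs0 hs1)
    have he : t' + s • (p - t') = t + ((1 : ℂ) - (s : ℂ) * (1 - z)) • (t' - t) := by
      ext i
      simp [hp]
      ring
    simpa only [he] using this)
  rw [card_eq_of_convex h hne hw k hD₁ hD₁c hD₁S hx₁ hy₁,
    card_eq_of_convex h hne hw k hD₂ hD₂c hD₂S hx₂ hy₂]

/-- Representatives near a point. -/
private theorem local_reps (h : IsLocalSystem S P Y lev j ψ) (hne : U.Nonempty)
    (hw : IsBranchM κ U μ w) (k : ℕ) {t₀ : Fin m → ℂ} (ht₀ : MvPolynomial.aeval t₀ S ≠ 0) :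
    ∃ (D : Set (Fin m → ℂ)) (n : ℕ) (G : Fin n → Elem m (Ix Y)), IsOpen D ∧ t₀ ∈ D ∧
      (∀ i x, AnalyticAt ℂ (fun t => val k (G i) t x) t₀) ∧
      ∀ t ∈ D, ms S P Y k t = Finset.univ.val.map fun i => val k (G i) t := by
  obtain ⟨ε, hε, hsub⟩ := Metric.isOpen_iff.1 (isOpen_ne S) t₀ ht₀
  have hDS : ∀ t ∈ Metric.ball t₀ ε, MvPolynomial.aeval t S ≠ 0 := fun t ht => hsub ht
  have hmem : t₀ ∈ Metric.ball t₀ ε := Metric.mem_ball_self hε
  obtain ⟨n, G, hG⟩ := exists_reps h hne hw k Metric.isOpen_ball (convex_ball t₀ ε) hDS ⟨t₀, hmem⟩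
  refine ⟨Metric.ball t₀ ε, n, G, Metric.isOpen_ball, hmem, ?_, fun t ht =>
    ms_eq h Metric.isOpen_ball (convex_ball t₀ ε) hDS hG ht⟩
  intro i x
  obtain ⟨hr, hU⟩ := hG.1 i
  obtain ⟨-, -, h1, h2⟩ := reach_analytic h.analytic hr
  have hmem' : t₀ ∈ (G i).U := by rw [hU]; exact hmem
  rcases x with x | x
  · exact h1 t₀ hmem'
  · exact h2 _ t₀ hmem'

private theorem analyticAt_Qf (h : IsLocalSystem S P Y lev j ψ) (hne : U.Nonempty)
    (hw : IsBranchM κ U μ w) (k : ℕ) {t₀ : Fin m → ℂ} (ht₀ : MvPolynomial.aeval t₀ S ≠ 0) :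
    AnalyticAt ℂ (Qf S P Y k) t₀ := by
  obtain ⟨D, n, G, hD, hmem, hA, hms⟩ := local_reps h hne hw k ht₀
  have h1 : AnalyticAt ℂ (fun t => ∏ i, MvPolynomial.aeval
      (Sum.elim t fun _ => val k (G i) t (Sum.inl ())) (Y k).q) t₀ := by
    apply Finset.analyticAt_fun_prod
    intro i _
    apply AnalyticAt.aeval_mvPolynomial
    rintro (x | x)
    · exact (ContinuousLinearMap.proj (R := ℂ) (φ := fun _ : Fin m => ℂ) x).analyticAt t₀
    · exact hA i (Sum.inl ())
  refine h1.congr ?_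
  filter_upwards [hD.mem_nhds hmem] with t ht
  rw [Qf, hms t ht, Multiset.map_map]
  rfl

private theorem analyticAt_Tf (h : IsLocalSystem S P Y lev j ψ) (hne : U.Nonempty)
    (hw : IsBranchM κ U μ w) (k : ℕ) (e : MvPolynomial (Vx Y k) ℚ) {t₀ : Fin m → ℂ}
    (ht₀ : MvPolynomial.aeval t₀ S ≠ 0) :
    AnalyticAt ℂ (Tf S P Y k e) t₀ := by
  obtain ⟨D, n, G, hD, hmem, hA, hms⟩ := local_reps h hne hw k ht₀
  have h1 : AnalyticAt ℂ (fun t => ∑ i, MvPolynomial.aeval (val k (G i) t) e) t₀ := by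
    apply Finset.analyticAt_fun_sum
    intro i _
    exact AnalyticAt.aeval_mvPolynomial (fun x => hA i x) e
  refine h1.congr ?_
  filter_upwards [hD.mem_nhds hmem] with t ht
  rw [Tf, hms t ht, Multiset.map_map]
  rfl

private theorem norm_prod_le (M : Multiset ℂ) {B : ℝ} (hB : ∀ z ∈ M, ‖z‖ ≤ B) (hB0 : 0 ≤ B) :
    ‖M.prod‖ ≤ B ^ M.card := by
  induction M using Multiset.induction_on with
  | empty => simp
  | cons a M ih =>
    rw [Multiset.prod_cons, norm_mul, Multiset.card_cons, pow_succ']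
    exact mul_le_mul (hB a (Multiset.mem_cons_self a M))
      (ih fun z hz => hB z (Multiset.mem_cons_of_mem hz)) (norm_nonneg _) hB0

private theorem norm_sum_le' (M : Multiset ℂ) {B : ℝ} (hB : ∀ z ∈ M, ‖z‖ ≤ B) :
    ‖M.sum‖ ≤ M.card * B := by
  induction M using Multiset.induction_on with
  | empty => simp
  | cons a M ih =>
    rw [Multiset.sum_cons, Multiset.card_cons]
    have h1 := norm_add_le a M.sum
    have h2 := hB a (Multiset.mem_cons_self a M)
    have h3 := ih fun z hz => hB z (Multiset.mem_cons_of_mem hz)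
    push_cast
    linarith

private theorem alg_prod (M : Multiset ℂ) (h : ∀ z ∈ M, IsAlgebraic ℚ z) : IsAlgebraic ℚ M.prod := by
  induction M using Multiset.induction_on with
  | empty => rw [Multiset.prod_zero]; exact isAlgebraic_one
  | cons a M ih =>
    rw [Multiset.prod_cons]
    exact (h a (Multiset.mem_cons_self a M)).mul (ih fun z hz => h z (Multiset.mem_cons_of_mem hz))

private theorem alg_sum (M : Multiset ℂ) (h : ∀ z ∈ M, IsAlgebraic ℚ z) : IsAlgebraic ℚ M.sum := by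
  induction M using Multiset.induction_on with
  | empty => rw [Multiset.sum_zero]; exact isAlgebraic_zero
  | cons a M ih =>
    rw [Multiset.sum_cons]
    exact (h a (Multiset.mem_cons_self a M)).add (ih fun z hz => h z (Multiset.mem_cons_of_mem hz))

private theorem alg_mem (h : IsLocalSystem S P Y lev j ψ) (hne : U.Nonempty) (hw : IsBranchM κ U μ w)
    (k : ℕ) {t : Fin m → ℂ} (ht : MvPolynomial.aeval t S ≠ 0) (halg : ∀ i, IsAlgebraic ℚ (t i))
    {p : Vx Y k → ℂ} (hp : p ∈ ms S P Y k t) (x : Vx Y k) : IsAlgebraic ℚ (p x) := by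
  obtain ⟨b, hb, htb, rfl⟩ := exists_of_mem_ms h hne hw ht hp
  exact reach_algebraic h hne hw hb htb halg k x

private theorem alg_Qf (h : IsLocalSystem S P Y lev j ψ) (hne : U.Nonempty) (hw : IsBranchM κ U μ w)
    (k : ℕ) {t : Fin m → ℂ} (ht : MvPolynomial.aeval t S ≠ 0) (halg : ∀ i, IsAlgebraic ℚ (t i)) :
    IsAlgebraic ℚ (Qf S P Y k t) := by
  apply alg_prod
  intro z hz
  obtain ⟨p, hp, rfl⟩ := Multiset.mem_map.1 hz
  apply alg_aeval alg_kappa
  rintro (x | x)
  · exact halg x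
  · exact alg_mem h hne hw k ht halg hp _

private theorem Qf_ne (h : IsLocalSystem S P Y lev j ψ) (hne : U.Nonempty) (hw : IsBranchM κ U μ w)
    (k : ℕ) {t : Fin m → ℂ} (ht : MvPolynomial.aeval t S ≠ 0) : Qf S P Y k t ≠ 0 := by
  apply Multiset.prod_ne_zero
  intro hz
  obtain ⟨p, hp, h0⟩ := Multiset.mem_map.1 hz
  obtain ⟨b, hb, htb, rfl⟩ := exists_of_mem_ms h hne hw ht hp
  exact (h.cover b hb t htb k).1 h0

/-- Uniform bounds. -/
private theorem exists_bound (h : IsLocalSystem S P Y lev j ψ) (hne : U.Nonempty)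
    (hw : IsBranchM κ U μ w) (k : ℕ) :
    ∃ (C : ℝ) (n : ℕ), 1 ≤ C ∧ ∀ t : Fin m → ℂ, MvPolynomial.aeval t S ≠ 0 → ∀ p ∈ ms S P Y k t,
      ‖MvPolynomial.aeval (Sum.elim t fun _ => p (Sum.inl ())) (Y k).q‖ ≤ C * (1 + ‖t‖) ^ n ∧
      ∀ x, ‖MvPolynomial.aeval (Sum.elim t fun _ => p (Sum.inl ())) (Y k).q * p x‖ ≤
        C * (1 + ‖t‖) ^ n := by
  obtain ⟨C₁, n₁, hC₁, h₁⟩ := bound_q h hne hw (Y k).q
  obtain ⟨C₂, n₂, hC₂, h₂⟩ := bound_q h hne hw ((Y k).q * MvPolynomial.X (Sum.inr ()))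
  obtain ⟨C₃, n₃, hC₃, h₃⟩ := bound_y h hne hw k
  refine ⟨C₁ + C₂ + C₃ + 1, n₁ + n₂ + n₃, by linarith, fun t ht p hp => ?_⟩
  obtain ⟨b, hb, htb, rfl⟩ := exists_of_mem_ms h hne hw ht hp
  have h1t : (1 : ℝ) ≤ 1 + ‖t‖ := by linarith [norm_nonneg t]
  have key : ∀ (C : ℝ) (n : ℕ), 0 ≤ C → C ≤ C₁ + C₂ + C₃ + 1 → n ≤ n₁ + n₂ + n₃ →
      C * (1 + ‖t‖) ^ n ≤ (C₁ + C₂ + C₃ + 1) * (1 + ‖t‖) ^ (n₁ + n₂ + n₃) := by
    intro C n hC hC' hn
    have h4 := pow_le_pow_right₀ h1t hn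
    exact mul_le_mul hC' h4 (by positivity) (by linarith)
  refine ⟨(h₁ b hb t htb).trans (key C₁ n₁ hC₁ (by linarith) (by omega)), ?_⟩
  rintro (x | ⟨v, i⟩)
  · have h5 := h₂ b hb t htb
    rw [map_mul, MvPolynomial.aeval_X] at h5
    exact h5.trans (key C₂ n₂ hC₂ (by linarith) (by omega))
  · exact (h₃ b hb t htb v i).trans (key C₃ n₃ hC₃ (by linarith) (by omega))

private theorem exists_bound_Q (h : IsLocalSystem S P Y lev j ψ) (hne : U.Nonempty)
    (hw : IsBranchM κ U μ w) (k : ℕ) :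
    ∃ (n₀ : ℕ) (C : ℝ) (n : ℕ), 1 ≤ C ∧ ∀ t : Fin m → ℂ, MvPolynomial.aeval t S ≠ 0 →
      (ms S P Y k t).card = n₀ ∧ ‖Qf S P Y k t‖ ≤ C * (1 + ‖t‖) ^ n ∧
      ∀ p ∈ ms S P Y k t, ∀ x, ‖Qf S P Y k t * p x‖ ≤ C * (1 + ‖t‖) ^ n := by
  classical
  obtain ⟨C, n, hC, hb⟩ := exists_bound h hne hw k
  obtain ⟨t₁, ht₁⟩ := hne
  have hne : U.Nonempty := ⟨t₁, ht₁⟩
  refine ⟨(ms S P Y k t₁).card, C ^ (ms S P Y k t₁).card, n * (ms S P Y k t₁).card,
    one_le_pow₀ hC, fun t ht => ?_⟩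
  have hcard := card_ms h hne hw k ht (h.dom t₁ ht₁)
  have h1t : (1 : ℝ) ≤ 1 + ‖t‖ := by linarith [norm_nonneg t]
  have hB1 : 1 ≤ C * (1 + ‖t‖) ^ n := one_le_mul_of_one_le_of_one_le hC (one_le_pow₀ h1t)
  have hpow : C ^ (ms S P Y k t₁).card * (1 + ‖t‖) ^ (n * (ms S P Y k t₁).card) =
      (C * (1 + ‖t‖) ^ n) ^ (ms S P Y k t₁).card := by rw [mul_pow, pow_mul]
  refine ⟨hcard, ?_, ?_⟩
  · rw [hpow, ← hcard]
    have h2 := norm_prod_le ((ms S P Y k t).map fun p =>
      MvPolynomial.aeval (Sum.elim t fun _ => p (Sum.inl ())) (Y k).q) (B := C * (1 + ‖t‖) ^ n)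
      (by
        intro z hz
        obtain ⟨p, hp, rfl⟩ := Multiset.mem_map.1 hz
        exact (hb t ht p hp).1) (by linarith)
    rw [Multiset.card_map] at h2
    exact h2
  · intro p hp x
    obtain ⟨M, hM⟩ := Multiset.exists_cons_of_mem hp
    have h2 : Qf S P Y k t = MvPolynomial.aeval (Sum.elim t fun _ => p (Sum.inl ())) (Y k).q *
        (M.map fun p => MvPolynomial.aeval (Sum.elim t fun _ => p (Sum.inl ())) (Y k).q).prod := by
      rw [Qf, hM, Multiset.map_cons, Multiset.prod_cons]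
    have h3 := norm_prod_le (M.map fun p =>
      MvPolynomial.aeval (Sum.elim t fun _ => p (Sum.inl ())) (Y k).q) (B := C * (1 + ‖t‖) ^ n)
      (by
        intro z hz
        obtain ⟨p', hp', rfl⟩ := Multiset.mem_map.1 hz
        exact (hb t ht p' (by rw [hM]; exact Multiset.mem_cons_of_mem hp')).1) (by linarith)
    rw [Multiset.card_map] at h3
    have h4 := (hb t ht p hp).2 x
    have h5 : (ms S P Y k t₁).card = M.card + 1 := by rw [← hcard, hM, Multiset.card_cons]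
    rw [hpow, h5, pow_succ', h2, mul_right_comm, norm_mul]
    exact mul_le_mul h4 h3 (norm_nonneg _) (by linarith)

theorem exists_Q (h : IsLocalSystem S P Y lev j ψ) (hne : U.Nonempty) (hw : IsBranchM κ U μ w) (k : ℕ) :
    ∃ q' : MvPolynomial (Fin m) Qbar, ∀ t : Fin m → ℂ, MvPolynomial.aeval t S ≠ 0 →
      Qf S P Y k t = MvPolynomial.aeval t q' ∧ Qf S P Y k t ≠ 0 := by
  obtain ⟨n₀, C, n, hC, hb⟩ := exists_bound_Q h hne hw k
  have hS : S.map (algebraMap κ ℂ) ≠ 0 := by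
    intro h0
    exact h.ne (MvPolynomial.map_injective _ (algebraMap κ ℂ).injective (by rw [h0, map_zero]))
  obtain ⟨q', hq'⟩ := exists_poly hS (f := Qf S P Y k) (C := C) (n := n) (O := Set.univ)
    (fun t ht => analyticAt_Qf h hne hw k (by rwa [eval_map'] at ht))
    (fun t ht => (hb t (by rwa [eval_map'] at ht)).2.1) isOpen_univ Set.univ_nonempty
    (fun t _ ht halg => alg_Qf h hne hw k (by rwa [eval_map'] at ht) halg)
  exact ⟨q', fun t ht => ⟨hq' t (by rwa [eval_map']), Qf_ne h hne hw k ht⟩⟩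

private theorem mono_bound {X : Type} (s : X →₀ ℕ) (p : X → ℂ) (Q : ℂ) {K : ℝ} {N : ℕ} (hK : 1 ≤ K)
    (hQ : ‖Q‖ ≤ K) (hp : ∀ x, ‖Q * p x‖ ≤ K) (hs : (s.sum fun _ e => e) ≤ N) :
    ‖Q ^ N * ∏ x ∈ s.support, p x ^ s x‖ ≤ K ^ N := by
  have hsum : (s.sum fun _ e => e) = ∑ x ∈ s.support, s x := rfl
  rw [hsum] at hs
  have e1 : Q ^ N * ∏ x ∈ s.support, p x ^ s x =
      Q ^ (N - ∑ x ∈ s.support, s x) * ∏ x ∈ s.support, (Q * p x) ^ s x := by
    have e2 : ∏ x ∈ s.support, (Q * p x) ^ s x =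
        Q ^ (∑ x ∈ s.support, s x) * ∏ x ∈ s.support, p x ^ s x := by
      rw [← Finset.prod_pow_eq_pow_sum, ← Finset.prod_mul_distrib]
      exact Finset.prod_congr rfl fun x _ => mul_pow _ _ _
    rw [e2, ← mul_assoc, ← pow_add, Nat.sub_add_cancel hs]
  have e3 : K ^ N = K ^ (N - ∑ x ∈ s.support, s x) * ∏ x ∈ s.support, K ^ s x := by
    rw [Finset.prod_pow_eq_pow_sum, ← pow_add, Nat.sub_add_cancel hs]
  rw [e1, e3, norm_mul, norm_pow, norm_prod]
  refine mul_le_mul (pow_le_pow_left₀ (norm_nonneg _) hQ _) ?_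
    (Finset.prod_nonneg fun _ _ => norm_nonneg _) (by positivity)
  refine Finset.prod_le_prod (fun _ _ => norm_nonneg _) fun x _ => ?_
  rw [norm_pow]
  exact pow_le_pow_left₀ (norm_nonneg _) (hp x) _

theorem exists_T (h : IsLocalSystem S P Y lev j ψ) (hne : U.Nonempty) (hw : IsBranchM κ U μ w) (k : ℕ)
    (e : MvPolynomial (Vx Y k) ℚ) {N : ℕ} (hN : e.totalDegree ≤ N) :
    ∃ f : MvPolynomial (Fin m) Qbar, ∀ t : Fin m → ℂ, MvPolynomial.aeval t S ≠ 0 →
      Qf S P Y k t ^ N * Tf S P Y k e t = MvPolynomial.aeval t f := by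
  obtain ⟨n₀, C, n, hC, hb⟩ := exists_bound_Q h hne hw k
  have hS : S.map (algebraMap κ ℂ) ≠ 0 := by
    intro h0
    exact h.ne (MvPolynomial.map_injective _ (algebraMap κ ℂ).injective (by rw [h0, map_zero]))
  set A : ℝ := ∑ s ∈ e.support, ‖(algebraMap ℚ ℂ) (e.coeff s)‖ with hA
  have hgrow : ∀ t : Fin m → ℂ, MvPolynomial.aeval t S ≠ 0 →
      ‖Qf S P Y k t ^ N * Tf S P Y k e t‖ ≤ (n₀ * A * C ^ N) * (1 + ‖t‖) ^ (n * N) := by
    intro t ht
    obtain ⟨hcard, hQ, hQp⟩ := hb t ht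
    have h1t : (1 : ℝ) ≤ 1 + ‖t‖ := by linarith [norm_nonneg t]
    have hK1 : 1 ≤ C * (1 + ‖t‖) ^ n := one_le_mul_of_one_le_of_one_le hC (one_le_pow₀ h1t)
    have e1 : Qf S P Y k t ^ N * Tf S P Y k e t =
        ((ms S P Y k t).map fun p => Qf S P Y k t ^ N * MvPolynomial.aeval p e).sum := by
      rw [Multiset.sum_map_mul_left, Tf]
    rw [e1]
    have h2 := norm_sum_le' ((ms S P Y k t).map fun p => Qf S P Y k t ^ N * MvPolynomial.aeval p e)
      (B := A * (C * (1 + ‖t‖) ^ n) ^ N) (by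
        intro z hz
        obtain ⟨p, hp, rfl⟩ := Multiset.mem_map.1 hz
        show ‖Qf S P Y k t ^ N * MvPolynomial.aeval p e‖ ≤ _
        rw [MvPolynomial.aeval_def, MvPolynomial.eval₂_eq, Finset.mul_sum, hA, Finset.sum_mul]
        refine (norm_sum_le _ _).trans (Finset.sum_le_sum fun s hs => ?_)
        have h3 := mono_bound s p (Qf S P Y k t) hK1 hQ (hQp p hp)
          ((MvPolynomial.le_totalDegree hs).trans hN)
        rw [mul_left_comm, norm_mul]
        exact mul_le_mul_of_nonneg_left h3 (norm_nonneg _))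
    rw [Multiset.card_map, hcard] at h2
    refine h2.trans_eq ?_
    rw [mul_pow, ← pow_mul]
    ring
  obtain ⟨f, hf⟩ := exists_poly hS (f := fun t => Qf S P Y k t ^ N * Tf S P Y k e t)
    (C := n₀ * A * C ^ N) (n := n * N) (O := Set.univ)
    (fun t ht => by
      rw [eval_map'] at ht
      exact ((analyticAt_Qf h hne hw k ht).pow N).mul (analyticAt_Tf h hne hw k e ht))
    (fun t ht => hgrow t (by rwa [eval_map'] at ht)) isOpen_univ Set.univ_nonempty
    (fun t _ ht halg => by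
      rw [eval_map'] at ht
      refine ((alg_Qf h hne hw k ht halg).pow N).mul (alg_sum _ fun z hz => ?_)
      obtain ⟨p, hp, rfl⟩ := Multiset.mem_map.1 hz
      exact alg_aeval (fun a => isAlgebraic_algebraMap a) (fun x => alg_mem h hne hw k ht halg hp x) e)
  exact ⟨f, fun t ht => hf t (by rwa [eval_map'])⟩

end Pool.Agent.Helper79.FY
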