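import Pool.Agent.Helper79.FY.Star

/-!
# FY-10: the Galois action at two points of `U`

`X` as in `exists_star`, for `σ` and `k`; `A = Fin r → ZMod (ℓ ^ k)`.
* `exists_pair`: `exists_Q`, `exists_T` for the polynomials `W ^ l e`, `n` at least all their total degrees.
* `star_fixed`: let `t` be algebraic, fixed by `σ`, as well as `w t = w₀`, and let `σ` act on the points over `t` by `π₁`. Let `e` be given, and a pair as in `exists_pair`. `ms (cv t) = M.map cv` (`exists_msQ`). As in `star_point` (here `σ⁻¹ t = t`): `((g l).map σ)(t) = (q'.map σ)(t) ^ n ∑_(p ∈ M) (σ p_w) ^ l e(σ p_y)`, so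
  the left side of `Ident` (at `base`) is `(q'.map σ)(t) ^ n * G(t, w₀, w₀) * ∑_(p ∈ M, σ p_w = w₀) e(σ p_y)`, and `(q'.map σ)(t) = σ (Qf t) ≠ 0`, `G(t, w₀, w₀) ≠ 0` (`GG_self`): `∑_(p ∈ M, p_w = w₀) e(σ p_y) = ∑_(π ∈ X) e(y_π(t))`.
  Ball `D ⊆ U` about `cv t`, `G` as in `exists_reps`. The `i` with `(G i).w = w₀` at `cv t`: then `(G i).w = w` near `cv t` (simple root, as in `conj_set`) and on `D`, so by `int` (with the restriction of `base` to `D`) and `mem_MG` there is `γ ∈ MG` such that the `y` of `G i` are the `y_(γ v)`: `σ p_y = y_(π₁ γ v)(t)`. Conversely for `γ ∈ MG`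
  the restriction of `gact γ base` to `D` is reached (`reach_of_mem`, `restrict`) and has the values of one `G i`. So the left side is the sum of `e(y_π(t))` over the set `X'` of the permutations `π = π₁ ∘ actZ γ`, `γ ∈ MG`, each of them once (different `i` have different `val k` on `D`, so different `actZ γ`). `eq_of_sums`
  (`p π = y_π(t)` is injective in `π` by `(Y k).inj`): `X = X'`.
* `star_stable`: `Ident` at `gact γ base` (reached, domain `U`): its `y_v` are the `y_(γ v)`, so `∑_(π ∈ X) e(y_(γ π)(t)) = ∑_(π ∈ X) e(y_π(t))` at a point `t ∈ U` where `q'.map σ` and `G` are not zero (`cv t` as in the theorem); `eq_of_sums`: `γ X = X`.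
* `two_points`: `star_fixed` at `t` and at `t₀`, `star_stable`.
-/

namespace Pool.Agent.Helper79.FY

open Matrix Pool.Agent.Helper79.BB Pool.Agent.Helper79.HH Pool.Agent.Helper79.HG Pool.Agent.Helper64.Per

variable {κ : IntermediateField ℚ Qbar} {m r ℓ μ : ℕ} [Fact ℓ.Prime] {U : Set (Fin m → ℂ)}
  {w : (Fin m → ℂ) → ℂ} {S : MvPolynomial (Fin m) κ} {P : (Fin m → ℂ) → Matrix (Fin r) (Fin r) ℂ}
  {Y : ∀ k : ℕ, CoverData κ (Fin r → ZMod (ℓ ^ k)) U w} {lev : Fin r → ℤ} {j : ℤ}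
  {ψ : Matrix (Fin r) (Fin r) ℤ}

private theorem aeval_cvQ {X : Type} (p : MvPolynomial X Qbar) (x : X → Qbar) :
    MvPolynomial.aeval (cv x) p = ((MvPolynomial.eval x p : Qbar) : ℂ) := by
  have h1 := MvPolynomial.eval₂_comp (algebraMap Qbar ℂ) x p
  rw [MvPolynomial.aeval_def]
  exact h1.symm

private theorem aeval_cvR {X : Type} (e : MvPolynomial X ℚ) (x : X → Qbar) :
    MvPolynomial.aeval (cv x) e = ((MvPolynomial.aeval x e : Qbar) : ℂ) := by
  have h1 := MvPolynomial.comp_aeval_apply (R := ℚ) (f := x) (IsScalarTower.toAlgHom ℚ Qbar ℂ) e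
  exact h1.symm

private theorem sigma_aeval {X : Type} (σ : Qbar ≃ₐ[κ] Qbar) (e : MvPolynomial X ℚ) (x : X → Qbar) :
    σ (MvPolynomial.aeval x e) = MvPolynomial.aeval (fun i => σ (x i)) e := by
  have h1 := MvPolynomial.comp_aeval_apply (R := ℚ) (f := x) ((σ : Qbar →ₐ[κ] Qbar).restrictScalars ℚ) e
  exact h1

private theorem sigma_eval {X : Type} (σ : Qbar ≃ₐ[κ] Qbar) (p : MvPolynomial X Qbar) (x : X → Qbar) :
    σ (MvPolynomial.eval x p) =
      MvPolynomial.eval (fun i => σ (x i)) (p.map (σ : Qbar →+* Qbar)) := by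
  have h1 := MvPolynomial.map_eval (σ : Qbar →+* Qbar) x p
  exact h1

private theorem gg_zero {μ : ℕ} {f : Fin μ → ℂ} {w W : ℂ} (hw : w ^ μ = ∑ l, f l * w ^ (l : ℕ))
    (hW : W ^ μ = ∑ l, f l * W ^ (l : ℕ)) (hne : W ≠ w) :
    ∑ n, GG f w n * W ^ (n : ℕ) = 0 := by
  have h1 := GG_mul f w W
  rw [hw, hW, sub_self, sub_self, sub_self] at h1
  exact (mul_eq_zero.1 h1).resolve_left (sub_ne_zero.2 hne)

/-- `γ` acts on the points of level `k` by a permutation. -/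
private noncomputable def aPerm (γ : GL (Fin r) ℤ) (k : ℕ) : Equiv.Perm (Fin r → ZMod (ℓ ^ k)) :=
  Equiv.ofBijective (actZ (γ : Matrix (Fin r) (Fin r) ℤ))
    (Finite.injective_iff_bijective.1 (actZ_injective γ k))

private theorem aPerm_apply (γ : GL (Fin r) ℤ) (k : ℕ) (v : Fin r → ZMod (ℓ ^ k)) :
    aPerm γ k v = actZ (γ : Matrix (Fin r) (Fin r) ℤ) v := rfl

theorem exists_pair (h : IsLocalSystem S P Y lev j ψ) (hne : U.Nonempty) (hw : IsBranchM κ U μ w) (k : ℕ)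
    (e : MvPolynomial ((Fin r → ZMod (ℓ ^ k)) × Fin (Y k).N) ℚ) :
    ∃ (n : ℕ) (q' : MvPolynomial (Fin m) Qbar) (g : Fin μ → MvPolynomial (Fin m) Qbar),
      IsPair S P Y k e n q' g := by
  classical
  obtain ⟨q', hq'⟩ := exists_Q h hne hw k
  have hT := fun l : Fin μ => exists_T h hne hw k
    (MvPolynomial.X (Sum.inl ()) ^ (l : ℕ) * MvPolynomial.rename Sum.inr e : MvPolynomial (Vx Y k) ℚ)
    (N := Finset.univ.sup fun l : Fin μ => (MvPolynomial.X (Sum.inl ()) ^ (l : ℕ) *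
      MvPolynomial.rename Sum.inr e : MvPolynomial (Vx Y k) ℚ).totalDegree)
    (Finset.le_sup (f := fun l : Fin μ => (MvPolynomial.X (Sum.inl ()) ^ (l : ℕ) *
      MvPolynomial.rename Sum.inr e : MvPolynomial (Vx Y k) ℚ).totalDegree) (Finset.mem_univ l))
  choose g hg using hT
  exact ⟨_, q', g, fun t ht => ⟨(hq' t ht).1, fun l => hg l t ht⟩⟩

/-- The polynomial `q'` conjugated by `σ` does not vanish at the algebraic points with `S ≠ 0`. -/
private theorem qmap_ne (h : IsLocalSystem S P Y lev j ψ) (hne : U.Nonempty) (hw : IsBranchM κ U μ w)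
    {k n : ℕ} {e : MvPolynomial ((Fin r → ZMod (ℓ ^ k)) × Fin (Y k).N) ℚ}
    {q' : MvPolynomial (Fin m) Qbar} {g : Fin μ → MvPolynomial (Fin m) Qbar}
    (hp : IsPair S P Y k e n q' g) (σ : Qbar ≃ₐ[κ] Qbar) {t : Fin m → Qbar}
    (ht : MvPolynomial.aeval (cv t) S ≠ 0) :
    MvPolynomial.aeval (cv t) (q'.map (σ : Qbar →+* Qbar)) ≠ 0 := by
  have h1 : MvPolynomial.aeval (cv fun i => σ.symm (t i)) S ≠ 0 := (conj_S σ.symm t).2 ht
  obtain ⟨q₁, hq₁⟩ := exists_Q h hne hw k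
  have h2 : Qf S P Y k (cv fun i => σ.symm (t i)) ≠ 0 := (hq₁ _ h1).2
  rw [(hp _ h1).1, aeval_cvQ] at h2
  have h3 : MvPolynomial.eval (fun i => σ.symm (t i)) q' ≠ 0 := by
    intro h0
    apply h2
    rw [h0]
    rfl
  have h4 := sigma_eval σ q' (fun i => σ.symm (t i))
  have h5 : (fun i => σ (σ.symm (t i))) = t := funext fun i => σ.apply_symm_apply _
  rw [h5] at h4
  rw [aeval_cvQ, ← h4]
  intro h6
  apply h3
  have h7 : σ (MvPolynomial.eval (fun i => σ.symm (t i)) q') = 0 := Subtype.ext h6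
  exact (map_eq_zero_iff σ σ.injective).1 h7

private theorem gg_self_ne {f : Fin μ → MvPolynomial (Fin m) κ}
    (hf : ∀ t ∈ U, w t ^ μ = ∑ l : Fin μ, MvPolynomial.aeval t (f l) * w t ^ (l : ℕ) ∧
      (μ : ℂ) * w t ^ (μ - 1) ≠
        ∑ l : Fin μ, (l : ℕ) * MvPolynomial.aeval t (f l) * w t ^ ((l : ℕ) - 1))
    {t : Fin m → ℂ} (ht : t ∈ U) :
    ∑ n, GG (fun l => MvPolynomial.aeval t (f l)) (w t) n * w t ^ (n : ℕ) ≠ 0 := by
  rw [GG_self]
  exact sub_ne_zero.2 (hf t ht).2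

private theorem continuous_aeval (p : MvPolynomial (Fin m) κ) :
    Continuous fun t : Fin m → ℂ => MvPolynomial.aeval t p := by
  have h1 : (fun t : Fin m → ℂ => MvPolynomial.aeval t p) =
      fun t => MvPolynomial.eval t (p.map (algebraMap κ ℂ)) := by
    funext t
    rw [MvPolynomial.aeval_def, MvPolynomial.eval₂_eq_eval_map]
  rw [h1]
  exact MvPolynomial.continuous_eval _

/-- A reached element over `D ⊆ U` with the value `w t` at a point `t` of `D` comes from the base by an element of the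
monodromy group. -/
private theorem rep_of_w (h : IsLocalSystem S P Y lev j ψ) (hw : IsBranchM κ U μ w)
    {f : Fin μ → MvPolynomial (Fin m) κ}
    (hf : ∀ t ∈ U, w t ^ μ = ∑ l : Fin μ, MvPolynomial.aeval t (f l) * w t ^ (l : ℕ) ∧
      (μ : ℂ) * w t ^ (μ - 1) ≠
        ∑ l : Fin μ, (l : ℕ) * MvPolynomial.aeval t (f l) * w t ^ ((l : ℕ) - 1))
    {D : Set (Fin m → ℂ)} (hD : IsOpen D) (hDp : IsPreconnected D) (hDU : D ⊆ U) {c : Elem m (Ix Y)}
    (hc : Reach S (base P Y) c) (hcU : c.U = D) {t : Fin m → ℂ} (ht : t ∈ D) (hwt : c.w t = w t) :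
    ∃ γ ∈ MG P Y S ψ h.dom, ∀ s ∈ D, c.w s = w s ∧ ∀ k v i,
      c.f (Sum.inr ⟨k, (v, i)⟩) s = (Y k).y (actZ (γ : Matrix (Fin r) (Fin r) ℤ) v) i s := by
  subst hcU
  have hca : c.IsAnalytic := reach_analytic h.analytic hc
  have hwa : AnalyticOnNhd ℂ w U := h.analytic.2.2.1
  have heqc := eqn_w (μ := μ) hw (fun t ht => (hf t ht).1) hc
  have hw1 : ContinuousAt w t := (hwa t (hDU ht)).continuousAt
  have hw2 : ContinuousAt c.w t := (hca.2.2.1 t ht).continuousAt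
  have hcont : ContinuousAt (fun s => ∑ n, GG (fun l => MvPolynomial.aeval s (f l)) (w s) n *
      c.w s ^ (n : ℕ)) t := by
    refine tendsto_finsetSum _ fun n _ => ?_
    refine ContinuousAt.mul ?_ (hw2.pow _)
    unfold GG
    refine (hw1.pow _).sub ?_
    refine tendsto_finsetSum _ fun l _ => ?_
    split_ifs
    · exact ((continuous_aeval (f l)).continuousAt).mul (hw1.pow _)
    · exact continuousAt_const
  have hG0 : (∑ n, GG (fun l => MvPolynomial.aeval t (f l)) (w t) n * c.w t ^ (n : ℕ)) ≠ 0 := by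
    rw [hwt]
    exact gg_self_ne hf (hDU ht)
  have hev : ∀ᶠ s in nhds t, c.w s = w s := by
    filter_upwards [hcont.eventually_ne hG0, hD.mem_nhds ht] with s hs hsD
    by_contra hne
    exact hs (gg_zero (hf s (hDU hsD)).1 (heqc s hsD) hne)
  have hww : ∀ s ∈ c.U, c.w s = w s := by
    have h1 := AnalyticOnNhd.eqOn_of_preconnected_of_eventuallyEq hca.2.2.1
      (hwa.mono hDU) hDp ht hev
    exact fun s hs => h1 hs
  have hb : Reach S (base P Y) ⟨c.U, (base P Y).w, (base P Y).f⟩ :=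
    restrict h.dom h.analytic Relation.ReflTransGen.refl hD hDp ⟨t, ht⟩ hDU
  obtain ⟨γ, hγ, hP⟩ := h.int ⟨c.U, (base P Y).w, (base P Y).f⟩ c hb hc rfl
    (fun s hs => (hww s hs).symm)
  refine ⟨γ, mem_MG h.dom h.analytic hb hc ⟨t, ht⟩ rfl (fun s hs => (hww s hs).symm) hγ hP, ?_⟩
  intro s hs
  refine ⟨hww s hs, fun k v i => ?_⟩
  rw [(hP s hs).2 k v i]
  exact congrFun (base_inr (P := P) k (actZ (γ : Matrix (Fin r) (Fin r) ℤ) v) i) s

/-- `σ` fixes the point `t` and `w t` and acts on the points of `Y k` over `t` by the permutation `π`. -/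
def ActsBy (Y : ∀ k : ℕ, CoverData κ (Fin r → ZMod (ℓ ^ k)) U w) (σ : Qbar ≃ₐ[κ] Qbar) (k : ℕ)
    (t : Fin m → Qbar) (π : Equiv.Perm (Fin r → ZMod (ℓ ^ k))) : Prop :=
  (∀ i, σ (t i) = t i) ∧ (∀ z : Qbar, (z : ℂ) = w (cv t) → σ z = z) ∧
    ∀ v i (z : Qbar), (z : ℂ) = (Y k).y v i (cv t) → ((σ z : Qbar) : ℂ) = (Y k).y (π v) i (cv t)

private theorem isAlg (z : Qbar) : IsAlgebraic ℚ (z : ℂ) := mem_algebraicClosure_iff.1 z.2

/-- The sum over the branches, from a pair. -/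
private theorem pair_sum {k : ℕ} {e : MvPolynomial ((Fin r → ZMod (ℓ ^ k)) × Fin (Y k).N) ℚ} {n : ℕ}
    {q' : MvPolynomial (Fin m) Qbar} {g : Fin μ → MvPolynomial (Fin m) Qbar}
    (hp : IsPair S P Y k e n q' g) (σ : Qbar ≃ₐ[κ] Qbar) {t : Fin m → Qbar}
    (ht : MvPolynomial.aeval (cv t) S ≠ 0) (hσt : ∀ i, σ (t i) = t i) {N : ℕ} {pQ : Fin N → Vx Y k → Qbar}
    (hms : ms S P Y k (cv t) = Finset.univ.val.map fun i => cv (pQ i)) (l : Fin μ) :
    MvPolynomial.eval t ((g l).map (σ : Qbar →+* Qbar)) =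
      MvPolynomial.eval t (q'.map (σ : Qbar →+* Qbar)) ^ n *
        ∑ i, σ (pQ i (Sum.inl ())) ^ (l : ℕ) *
          MvPolynomial.aeval (fun x => σ (pQ i (Sum.inr x))) e := by
  have hσt' : (fun i => σ (t i)) = t := funext hσt
  obtain ⟨h1, h2⟩ := hp _ ht
  have h3 := h2 l
  rw [h1, aeval_cvQ, aeval_cvQ, Tf, hms, Multiset.map_map] at h3
  have h4 : (Multiset.map ((fun p : Vx Y k → ℂ => MvPolynomial.aeval p
      (MvPolynomial.X (Sum.inl ()) ^ (l : ℕ) * MvPolynomial.rename Sum.inr e :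
        MvPolynomial (Vx Y k) ℚ)) ∘ fun i => cv (pQ i)) Finset.univ.val).sum =
      ∑ i, (((pQ i (Sum.inl ())) ^ (l : ℕ) *
        MvPolynomial.aeval (fun x => pQ i (Sum.inr x)) e : Qbar) : ℂ) := by
    change ∑ i, _ = _
    refine Finset.sum_congr rfl fun i _ => ?_
    simp only [Function.comp]
    rw [aeval_cvR, map_mul, map_pow, MvPolynomial.aeval_X, MvPolynomial.aeval_rename]
    rfl
  rw [h4] at h3
  have h5 : MvPolynomial.eval t q' ^ n * ∑ i, ((pQ i (Sum.inl ())) ^ (l : ℕ) *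
        MvPolynomial.aeval (fun x => pQ i (Sum.inr x)) e) = MvPolynomial.eval t (g l) := by
    apply Subtype.coe_injective
    push_cast
    push_cast at h3
    exact h3
  have h6 := congrArg σ h5
  rw [sigma_eval, hσt', map_mul, map_pow, sigma_eval, hσt', map_sum] at h6
  rw [← h6]
  congr 1
  refine Finset.sum_congr rfl fun i _ => ?_
  rw [map_mul, map_pow, sigma_aeval]

/-- The value at `cv t` of the coordinates, permuted by `π`. -/
private def yv (Y : ∀ k : ℕ, CoverData κ (Fin r → ZMod (ℓ ^ k)) U w) (k : ℕ) (t : Fin m → ℂ)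
    (π : Equiv.Perm (Fin r → ZMod (ℓ ^ k))) (x : (Fin r → ZMod (ℓ ^ k)) × Fin (Y k).N) : ℂ :=
  (Y k).y (π x.1) x.2 t

private theorem yv_injective {k : ℕ} {t : Fin m → ℂ} (ht : t ∈ U) : Function.Injective (yv Y k t) := by
  intro π π' hπ
  ext1 v
  apply (Y k).inj t ht
  funext i
  exact congrFun hπ (v, i)

private theorem key_sum (h : IsLocalSystem S P Y lev j ψ) (hw : IsBranchM κ U μ w)
    {f : Fin μ → MvPolynomial (Fin m) κ}
    (hf : ∀ t ∈ U, w t ^ μ = ∑ l : Fin μ, MvPolynomial.aeval t (f l) * w t ^ (l : ℕ) ∧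
      (μ : ℂ) * w t ^ (μ - 1) ≠
        ∑ l : Fin μ, (l : ℕ) * MvPolynomial.aeval t (f l) * w t ^ ((l : ℕ) - 1))
    {σ : Qbar ≃ₐ[κ] Qbar} {k : ℕ} {X : Finset (Equiv.Perm (Fin r → ZMod (ℓ ^ k)))}
    (hX : ∀ (e : MvPolynomial ((Fin r → ZMod (ℓ ^ k)) × Fin (Y k).N) ℚ) (n : ℕ)
      (q' : MvPolynomial (Fin m) Qbar) (g : Fin μ → MvPolynomial (Fin m) Qbar), IsPair S P Y k e n q' g →
        ∀ b, Reach S (base P Y) b → ∀ t ∈ b.U, Ident f σ X e n q' g b t)
    {t : Fin m → Qbar} (ht : cv t ∈ U) (hσt : ∀ i, σ (t i) = t i) {N : ℕ} {pQ : Fin N → Vx Y k → Qbar}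
    (hms : ms S P Y k (cv t) = Finset.univ.val.map fun i => cv (pQ i))
    (I : Finset (Fin N)) (hI : ∀ i, i ∈ I ↔ ((σ (pQ i (Sum.inl ())) : Qbar) : ℂ) = w (cv t))
    (e : MvPolynomial ((Fin r → ZMod (ℓ ^ k)) × Fin (Y k).N) ℚ) :
    ∑ i ∈ I, MvPolynomial.aeval (fun x => ((σ (pQ i (Sum.inr x)) : Qbar) : ℂ)) e =
      ∑ π ∈ X, MvPolynomial.aeval (yv Y k (cv t) π) e := by
  classical
  have hne : U.Nonempty := ⟨_, ht⟩
  have hS : MvPolynomial.aeval (cv t) S ≠ 0 := h.dom _ ht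
  obtain ⟨n, q', g, hp⟩ := exists_pair h hne hw k e
  have hid := hX e n q' g hp (base P Y) Relation.ReflTransGen.refl (cv t) ht
  unfold Ident at hid
  have hbw : (base P Y).w = w := rfl
  rw [hbw] at hid
  have hσs : (fun i => σ.symm (t i)) = t := by
    funext i
    rw [AlgEquiv.symm_apply_eq]
    exact (hσt i).symm
  have hconj : ∀ i, ((σ (pQ i (Sum.inl ())) : Qbar) : ℂ) ^ μ = ∑ l : Fin μ,
      MvPolynomial.aeval (cv t) (f l) * ((σ (pQ i (Sum.inl ())) : Qbar) : ℂ) ^ (l : ℕ) := by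
    intro i
    have h1 := conj_eqn h hne hw (fun t ht => (hf t ht).1) σ (k := k) (t := t) hS
      (M := Finset.univ.val.map pQ) (by rw [hσs, hms, Multiset.map_map]; rfl) (pQ i)
      (Multiset.mem_map_of_mem _ (Finset.mem_univ_val i))
    have h2 := congrArg (fun z : Qbar => (z : ℂ)) h1
    push_cast at h2
    rw [h2]
    refine Finset.sum_congr rfl fun l _ => ?_
    rw [aeval_cv]
  set G0 : ℂ := ∑ l, GG (fun l => MvPolynomial.aeval (cv t) (f l)) (w (cv t)) l * w (cv t) ^ (l : ℕ)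
    with hG0
  have hG0ne : G0 ≠ 0 := gg_self_ne hf ht
  set Q : ℂ := MvPolynomial.aeval (cv t) (q'.map (σ : Qbar →+* Qbar)) with hQ
  have hQne : Q ≠ 0 := qmap_ne h hne hw hp σ hS
  have hfac : ∀ i, ∑ l, GG (fun l => MvPolynomial.aeval (cv t) (f l)) (w (cv t)) l *
      ((σ (pQ i (Sum.inl ())) : Qbar) : ℂ) ^ (l : ℕ) = if i ∈ I then G0 else 0 := by
    intro i
    by_cases hi : i ∈ I
    · rw [if_pos hi, (hI i).1 hi]
    · rw [if_neg hi]
      exact gg_zero (hf _ ht).1 (hconj i) fun h0 => hi ((hI i).2 h0)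
  have hleft : ∑ l, GG (fun l => MvPolynomial.aeval (cv t) (f l)) (w (cv t)) l *
      MvPolynomial.aeval (cv t) ((g l).map (σ : Qbar →+* Qbar)) =
      Q ^ n * (G0 * ∑ i ∈ I, MvPolynomial.aeval (fun x => ((σ (pQ i (Sum.inr x)) : Qbar) : ℂ)) e) := by
    have h1 : ∀ l : Fin μ, MvPolynomial.aeval (cv t) ((g l).map (σ : Qbar →+* Qbar)) =
        Q ^ n * ∑ i, ((σ (pQ i (Sum.inl ())) : Qbar) : ℂ) ^ (l : ℕ) *
          MvPolynomial.aeval (fun x => ((σ (pQ i (Sum.inr x)) : Qbar) : ℂ)) e := by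
      intro l
      rw [aeval_cvQ, pair_sum hp σ hS hσt hms l, hQ, aeval_cvQ]
      push_cast
      congr 1
      refine Finset.sum_congr rfl fun i _ => ?_
      congr 1
      exact (aeval_cvR e fun x => σ (pQ i (Sum.inr x))).symm
    calc ∑ l, GG (fun l => MvPolynomial.aeval (cv t) (f l)) (w (cv t)) l *
          MvPolynomial.aeval (cv t) ((g l).map (σ : Qbar →+* Qbar))
        = ∑ l, ∑ i, Q ^ n * ((GG (fun l => MvPolynomial.aeval (cv t) (f l)) (w (cv t)) l *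
            ((σ (pQ i (Sum.inl ())) : Qbar) : ℂ) ^ (l : ℕ)) *
            MvPolynomial.aeval (fun x => ((σ (pQ i (Sum.inr x)) : Qbar) : ℂ)) e) := by
          refine Finset.sum_congr rfl fun l _ => ?_
          rw [h1 l, Finset.mul_sum, Finset.mul_sum]
          refine Finset.sum_congr rfl fun i _ => ?_
          ring
      _ = ∑ i, ∑ l, Q ^ n * ((GG (fun l => MvPolynomial.aeval (cv t) (f l)) (w (cv t)) l *
            ((σ (pQ i (Sum.inl ())) : Qbar) : ℂ) ^ (l : ℕ)) *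
            MvPolynomial.aeval (fun x => ((σ (pQ i (Sum.inr x)) : Qbar) : ℂ)) e) :=
          Finset.sum_comm
      _ = ∑ i, Q ^ n * ((if i ∈ I then G0 else 0) *
            MvPolynomial.aeval (fun x => ((σ (pQ i (Sum.inr x)) : Qbar) : ℂ)) e) := by
          refine Finset.sum_congr rfl fun i _ => ?_
          rw [← hfac i, Finset.sum_mul, Finset.mul_sum]
      _ = Q ^ n * (G0 * ∑ i ∈ I,
            MvPolynomial.aeval (fun x => ((σ (pQ i (Sum.inr x)) : Qbar) : ℂ)) e) := by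
          rw [← Finset.mul_sum]
          congr 1
          rw [Finset.mul_sum, ← Finset.sum_filter_add_sum_filter_not Finset.univ (fun i => i ∈ I)]
          rw [Finset.sum_congr rfl (g := fun i => G0 *
            MvPolynomial.aeval (fun x => ((σ (pQ i (Sum.inr x)) : Qbar) : ℂ)) e)
            (fun i hi => by rw [if_pos (Finset.mem_filter.1 hi).2]),
            Finset.sum_eq_zero (s := Finset.univ.filter fun i => ¬ i ∈ I)
            (fun i hi => by rw [if_neg (Finset.mem_filter.1 hi).2, zero_mul]), add_zero,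
            Finset.filter_mem_eq_inter, Finset.univ_inter]
  rw [hleft, mul_assoc] at hid
  have h1 := mul_left_cancel₀ (pow_ne_zero n hQne) hid
  have h2 := mul_left_cancel₀ hG0ne h1
  rw [h2]
  refine Finset.sum_congr rfl fun π _ => ?_
  have h3 : (fun x : (Fin r → ZMod (ℓ ^ k)) × Fin (Y k).N =>
      (base P Y).f (Sum.inr ⟨k, (π x.1, x.2)⟩) (cv t)) = yv Y k (cv t) π := by
    funext x
    exact congrFun (base_inr (P := P) k (π x.1) x.2) (cv t)
  rw [h3]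

theorem star_fixed (h : IsLocalSystem S P Y lev j ψ) (hw : IsBranchM κ U μ w)
    {f : Fin μ → MvPolynomial (Fin m) κ}
    (hf : ∀ t ∈ U, w t ^ μ = ∑ l : Fin μ, MvPolynomial.aeval t (f l) * w t ^ (l : ℕ) ∧
      (μ : ℂ) * w t ^ (μ - 1) ≠
        ∑ l : Fin μ, (l : ℕ) * MvPolynomial.aeval t (f l) * w t ^ ((l : ℕ) - 1))
    {σ : Qbar ≃ₐ[κ] Qbar} {k : ℕ} {X : Finset (Equiv.Perm (Fin r → ZMod (ℓ ^ k)))}
    (hX : ∀ (e : MvPolynomial ((Fin r → ZMod (ℓ ^ k)) × Fin (Y k).N) ℚ) (n : ℕ)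
      (q' : MvPolynomial (Fin m) Qbar) (g : Fin μ → MvPolynomial (Fin m) Qbar), IsPair S P Y k e n q' g →
        ∀ b, Reach S (base P Y) b → ∀ t ∈ b.U, Ident f σ X e n q' g b t)
    {t : Fin m → Qbar} (ht : cv t ∈ U) {π₁ : Equiv.Perm (Fin r → ZMod (ℓ ^ k))}
    (hσ : ActsBy Y σ k t π₁) (π : Equiv.Perm (Fin r → ZMod (ℓ ^ k))) :
    π ∈ X ↔ ∃ γ ∈ MG P Y S ψ h.dom, ∀ v, π v = π₁ (actZ (γ : Matrix (Fin r) (Fin r) ℤ) v) := by
  classical
  have hne : U.Nonempty := ⟨_, ht⟩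
  obtain ⟨ε, hε, hball⟩ := Metric.isOpen_iff.1 h.analytic.1 (cv t) ht
  have hDo : IsOpen (Metric.ball (cv t) ε) := Metric.isOpen_ball
  have hDc : Convex ℝ (Metric.ball (cv t) ε) := convex_ball _ _
  have htD : cv t ∈ Metric.ball (cv t) ε := Metric.mem_ball_self hε
  obtain ⟨D, hDo, hDc, hDU, htD⟩ : ∃ D : Set (Fin m → ℂ), IsOpen D ∧ Convex ℝ D ∧ D ⊆ U ∧ cv t ∈ D :=
    ⟨_, hDo, hDc, hball, htD⟩
  have hDp : IsPreconnected D := hDc.isPreconnected
  have hDS : ∀ s ∈ D, MvPolynomial.aeval s S ≠ 0 := fun s hs => h.dom s (hDU hs)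
  obtain ⟨N, G, hG⟩ := exists_reps h hne hw k hDo hDc hDS ⟨_, htD⟩
  have halg : ∀ i x, ∃ z : Qbar, (z : ℂ) = val k (G i) (cv t) x := by
    intro i x
    have h1 := reach_algebraic h hne hw (hG.1 i).1 (t := cv t) (by rw [(hG.1 i).2]; exact htD)
      (fun i => isAlg (t i)) k x
    exact ⟨⟨_, mem_algebraicClosure_iff.2 h1⟩, rfl⟩
  choose pQ hpQ using halg
  have hms : ms S P Y k (cv t) = Finset.univ.val.map fun i => cv (pQ i) := by
    rw [ms_eq h hDo hDc hDS hG htD]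
    congr 1
    funext i x
    exact (hpQ i x).symm
  obtain ⟨w₀, hw₀⟩ : ∃ z : Qbar, (z : ℂ) = w (cv t) := by
    have h1 := reach_algebraic h hne hw (b := base P Y) Relation.ReflTransGen.refl (t := cv t) ht
      (fun i => isAlg (t i)) k (Sum.inl ())
    exact ⟨⟨_, mem_algebraicClosure_iff.2 h1⟩, rfl⟩
  have hσw := hσ.2.1 w₀ hw₀
  let I : Finset (Fin N) := Finset.univ.filter fun i => (G i).w (cv t) = w (cv t)
  have hI : ∀ i, i ∈ I ↔ ((σ (pQ i (Sum.inl ())) : Qbar) : ℂ) = w (cv t) := by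
    intro i
    rw [Finset.mem_filter, and_iff_right (Finset.mem_univ i)]
    have h1 : (G i).w (cv t) = (pQ i (Sum.inl ()) : ℂ) := (hpQ i (Sum.inl ())).symm
    constructor
    · intro h2
      rw [hσ.2.1 (pQ i (Sum.inl ())) (by rw [← h1, h2]), ← h1, h2]
    · intro h2
      rw [← hw₀] at h2
      have h3 : σ (pQ i (Sum.inl ())) = w₀ := Subtype.coe_injective h2
      have h4 : pQ i (Sum.inl ()) = w₀ := σ.injective (h3.trans hσw.symm)
      rw [h1, h4, hw₀]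
  have key : ∀ i, i ∈ I → ∃ γ ∈ MG P Y S ψ h.dom, ∀ s ∈ D, (G i).w s = w s ∧ ∀ k v i',
      (G i).f (Sum.inr ⟨k, (v, i')⟩) s = (Y k).y (actZ (γ : Matrix (Fin r) (Fin r) ℤ) v) i' s := by
    intro i hi
    exact rep_of_w h hw hf hDo hDp hDU (hG.1 i).1 (hG.1 i).2 htD (Finset.mem_filter.1 hi).2
  choose! γ hγ1 hγ2 using key
  let X' : Finset (Equiv.Perm (Fin r → ZMod (ℓ ^ k))) := Finset.univ.filter fun π =>
    ∃ γ ∈ MG P Y S ψ h.dom, ∀ v, π v = π₁ (actZ (γ : Matrix (Fin r) (Fin r) ℤ) v)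
  have hXX : X = X' := by
    refine eq_of_sums (p := yv Y k (cv t)) (yv_injective ht) fun e => ?_
    rw [← key_sum h hw hf hX ht hσ.1 hms I hI e]
    refine Finset.sum_bij (fun i _ => (aPerm (γ i) k).trans π₁) ?_ ?_ ?_ ?_
    · intro i hi
      rw [Finset.mem_filter]
      exact ⟨Finset.mem_univ _, γ i, hγ1 i hi, fun v => rfl⟩
    · intro i hi i' hi' heq
      have h1 : ∀ v : Fin r → ZMod (ℓ ^ k), actZ (γ i : Matrix (Fin r) (Fin r) ℤ) v =
          actZ (γ i' : Matrix (Fin r) (Fin r) ℤ) v := by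
        intro v
        apply π₁.injective
        exact congrArg (fun π : Equiv.Perm (Fin r → ZMod (ℓ ^ k)) => π v) heq
      obtain ⟨i₀, _, hi₀⟩ := hG.2 (G i) (hG.1 i).1 (hG.1 i).2
      have h2 : i = i₀ := hi₀ i fun s _ => rfl
      have h3 : i' = i₀ := by
        refine hi₀ i' fun s hs => ?_
        funext x
        rcases x with x | ⟨v, i''⟩
        · exact (hγ2 i hi s hs).1.trans (hγ2 i' hi' s hs).1.symm
        · exact ((hγ2 i hi s hs).2 k v i'').trans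
            ((congrArg (fun a => (Y k).y a i'' s) (h1 v)).trans ((hγ2 i' hi' s hs).2 k v i'').symm)
      rw [h2, h3]
    · intro π' hπ'
      obtain ⟨_, γ', hγ', hπ'⟩ := Finset.mem_filter.1 hπ'
      have hb : Reach S (base P Y) ⟨D, (gact (γ' : Matrix (Fin r) (Fin r) ℤ) (base P Y)).w,
          (gact (γ' : Matrix (Fin r) (Fin r) ℤ) (base P Y)).f⟩ :=
        restrict h.dom h.analytic (reach_of_mem h.dom hγ' Relation.ReflTransGen.refl) hDo hDp
          ⟨_, htD⟩ hDU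
      obtain ⟨i, hi, _⟩ := hG.2 _ hb rfl
      have hiI : i ∈ I := by
        rw [Finset.mem_filter]
        refine ⟨Finset.mem_univ _, ?_⟩
        exact (congrFun (hi _ htD) (Sum.inl ())).symm
      refine ⟨i, hiI, ?_⟩
      ext1 v
      rw [hπ' v]
      change π₁ (actZ (γ i : Matrix (Fin r) (Fin r) ℤ) v) = _
      congr 1
      apply (Y k).inj (cv t) ht
      funext i'
      have h1 := congrFun (hi _ htD) (Sum.inr (v, i'))
      have h2 := (hγ2 i hiI _ htD).2 k v i'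
      have h3 : (gact (γ' : Matrix (Fin r) (Fin r) ℤ) (base P Y)).f (Sum.inr ⟨k, (v, i')⟩) (cv t) =
          (Y k).y (actZ (γ' : Matrix (Fin r) (Fin r) ℤ) v) i' (cv t) :=
        congrFun (base_inr (P := P) k (actZ (γ' : Matrix (Fin r) (Fin r) ℤ) v) i') (cv t)
      exact h2.symm.trans (h1.symm.trans h3)
    · intro i hi
      congr 2
      funext x
      have h1 := hpQ i (Sum.inr x)
      have h2 : val k (G i) (cv t) (Sum.inr x) =
          (Y k).y (actZ (γ i : Matrix (Fin r) (Fin r) ℤ) x.1) x.2 (cv t) :=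
        (hγ2 i hi _ htD).2 k x.1 x.2
      exact hσ.2.2 _ _ _ (h1.trans h2)
  rw [hXX, Finset.mem_filter]
  exact and_iff_right (Finset.mem_univ π)

theorem star_stable (h : IsLocalSystem S P Y lev j ψ) (hw : IsBranchM κ U μ w)
    {f : Fin μ → MvPolynomial (Fin m) κ}
    (hf : ∀ t ∈ U, w t ^ μ = ∑ l : Fin μ, MvPolynomial.aeval t (f l) * w t ^ (l : ℕ) ∧
      (μ : ℂ) * w t ^ (μ - 1) ≠
        ∑ l : Fin μ, (l : ℕ) * MvPolynomial.aeval t (f l) * w t ^ ((l : ℕ) - 1))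
    {σ : Qbar ≃ₐ[κ] Qbar} {k : ℕ} {X : Finset (Equiv.Perm (Fin r → ZMod (ℓ ^ k)))}
    (hX : ∀ (e : MvPolynomial ((Fin r → ZMod (ℓ ^ k)) × Fin (Y k).N) ℚ) (n : ℕ)
      (q' : MvPolynomial (Fin m) Qbar) (g : Fin μ → MvPolynomial (Fin m) Qbar), IsPair S P Y k e n q' g →
        ∀ b, Reach S (base P Y) b → ∀ t ∈ b.U, Ident f σ X e n q' g b t)
    {t : Fin m → Qbar} (ht : cv t ∈ U) {γ : GL (Fin r) ℤ} (hγ : γ ∈ MG P Y S ψ h.dom)
    {π : Equiv.Perm (Fin r → ZMod (ℓ ^ k))} (hπ : π ∈ X) :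
    ∃ π' ∈ X, ∀ v, π' v = actZ (γ : Matrix (Fin r) (Fin r) ℤ) (π v) := by
  classical
  have hne : U.Nonempty := ⟨_, ht⟩
  have hS : MvPolynomial.aeval (cv t) S ≠ 0 := h.dom _ ht
  have hXX : X.map (Equiv.mulLeft (aPerm γ k)).toEmbedding = X := by
    refine eq_of_sums (p := yv Y k (cv t)) (yv_injective ht) fun e => ?_
    rw [Finset.sum_map]
    obtain ⟨n, q', g, hp⟩ := exists_pair h hne hw k e
    have hid1 := hX e n q' g hp (base P Y) Relation.ReflTransGen.refl (cv t) ht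
    have hid2 := hX e n q' g hp (gact (γ : Matrix (Fin r) (Fin r) ℤ) (base P Y))
      (reach_of_mem h.dom hγ Relation.ReflTransGen.refl) (cv t) ht
    unfold Ident at hid1 hid2
    have hbw : (base P Y).w = w := rfl
    have hbw' : (gact (γ : Matrix (Fin r) (Fin r) ℤ) (base P Y)).w = w := rfl
    rw [hbw] at hid1
    rw [hbw', hid1] at hid2
    have hc : MvPolynomial.aeval (cv t) (q'.map (σ : Qbar →+* Qbar)) ^ n *
        (∑ l, GG (fun l => MvPolynomial.aeval (cv t) (f l)) (w (cv t)) l * w (cv t) ^ (l : ℕ)) ≠ 0 :=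
      mul_ne_zero (pow_ne_zero n (qmap_ne h hne hw hp σ hS)) (gg_self_ne hf ht)
    have h1 := mul_left_cancel₀ hc hid2
    have h2 : ∀ π : Equiv.Perm (Fin r → ZMod (ℓ ^ k)), (fun x : (Fin r → ZMod (ℓ ^ k)) × Fin (Y k).N =>
        (base P Y).f (Sum.inr ⟨k, (π x.1, x.2)⟩) (cv t)) = yv Y k (cv t) π := by
      intro π
      funext x
      exact congrFun (base_inr (P := P) k (π x.1) x.2) (cv t)
    have h3 : ∀ π : Equiv.Perm (Fin r → ZMod (ℓ ^ k)), (fun x : (Fin r → ZMod (ℓ ^ k)) × Fin (Y k).N =>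
        (gact (γ : Matrix (Fin r) (Fin r) ℤ) (base P Y)).f (Sum.inr ⟨k, (π x.1, x.2)⟩) (cv t)) =
        yv Y k (cv t) ((Equiv.mulLeft (aPerm γ k)).toEmbedding π) := by
      intro π
      funext x
      exact congrFun (base_inr (P := P) k (actZ (γ : Matrix (Fin r) (Fin r) ℤ) (π x.1)) x.2) (cv t)
    simp_rw [h2, h3] at h1
    exact h1.symm
  refine ⟨(Equiv.mulLeft (aPerm γ k)).toEmbedding π, ?_, fun v => rfl⟩
  rw [← hXX]
  exact Finset.mem_map_of_mem _ hπ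

/-- The two points theorem. -/
theorem two_points (h : IsLocalSystem S P Y lev j ψ) (hw : IsEtaleBranch κ U μ w) (σ : Qbar ≃ₐ[κ] Qbar)
    (k : ℕ) {t t₀ : Fin m → Qbar} (ht : cv t ∈ U) (ht₀ : cv t₀ ∈ U)
    {π π₀ : Equiv.Perm (Fin r → ZMod (ℓ ^ k))} (hσ : ActsBy Y σ k t π) (hσ₀ : ActsBy Y σ k t₀ π₀) :
    (∃ γ ∈ MG P Y S ψ h.dom, ∀ v, π v = π₀ (actZ (γ : Matrix (Fin r) (Fin r) ℤ) v)) ∧
    ∀ γ ∈ MG P Y S ψ h.dom, ∃ γ' ∈ MG P Y S ψ h.dom, ∀ v,
      actZ (γ : Matrix (Fin r) (Fin r) ℤ) (π v) = π (actZ (γ' : Matrix (Fin r) (Fin r) ℤ) v) := by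
  obtain ⟨f, hf⟩ := hw.eqn
  have hwB : IsBranchM κ U μ w := ⟨hw.analytic, f, fun t ht => (hf t ht).1⟩
  obtain ⟨X, hX⟩ := exists_star h ⟨_, ht⟩ hwB hf σ k
  have hπ : π ∈ X := (star_fixed h hwB hf hX ht hσ π).2
    ⟨1, Subgroup.one_mem _, fun v => by rw [Units.val_one, actZ_one]⟩
  refine ⟨(star_fixed h hwB hf hX ht₀ hσ₀ π).1 hπ, fun γ hγ => ?_⟩
  obtain ⟨π', hπ', h1⟩ := star_stable h hwB hf hX ht hγ hπ
  obtain ⟨γ', hγ', h2⟩ := (star_fixed h hwB hf hX ht hσ π').1 hπ'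
  exact ⟨γ', hγ', fun v => (h1 v).symm.trans (h2 v)⟩

end Pool.Agent.Helper79.FY
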